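import Mathlib

/-!
# A finite algebra with only one point over each of the given points

Commutative algebra for `Pool/Agent/H40GO/Main.lean`.
-/

set_option autoImplicit false
set_option linter.unusedSectionVars false
set_option linter.style.haveILetI false

namespace Pool.Agent.H40GO

open Module

section CA

variable {F A R : Type*} [Field F] [IsAlgClosed F] [CharZero F] [CommRing A] [CommRing R]
  [Algebra F A] [Algebra F R] [Algebra A R] [IsScalarTower F A R]

/-- the point of `A` below a point of `R`: its elements are constants modulo the kernel -/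
theorem sub_mem (e : R →ₐ[F] F) (I : Ideal R)
    (hP : ∀ a : A, e (algebraMap A R a) = 0 → algebraMap A R a ∈ I) (a : A) :
    algebraMap A R a - algebraMap F R (e (algebraMap A R a)) ∈ I := by
  have h1 := hP (a - algebraMap F A (e (algebraMap A R a))) (by
    rw [map_sub, ← IsScalarTower.algebraMap_apply, map_sub, AlgHom.commutes]
    simp)
  rwa [map_sub, ← IsScalarTower.algebraMap_apply] at h1

theorem mk_mul (e : R →ₐ[F] F) (I : Ideal R)
    (hP : ∀ a : A, e (algebraMap A R a) = 0 → algebraMap A R a ∈ I) (a : A) (x : R) :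
    Ideal.Quotient.mk I (algebraMap A R a * x) =
      (e (algebraMap A R a)) • Ideal.Quotient.mk I x := by
  rw [map_mul, Algebra.smul_def]
  congr 1
  have h3 : algebraMap F (R ⧸ I) (e (algebraMap A R a)) =
      Ideal.Quotient.mk I (algebraMap F R (e (algebraMap A R a))) := rfl
  rw [← sub_eq_zero, h3, ← map_sub]
  exact Ideal.Quotient.eq_zero_iff_mem.mpr (sub_mem e I hP a)

theorem finite_quot [Module.Finite A R] (e : R →ₐ[F] F) (I : Ideal R)
    (hP : ∀ a : A, e (algebraMap A R a) = 0 → algebraMap A R a ∈ I) : Module.Finite F (R ⧸ I) := by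
  classical
  obtain ⟨s, hs⟩ := (inferInstance : Module.Finite A R).fg_top
  refine ⟨⟨s.image (Ideal.Quotient.mk I), ?_⟩⟩
  rw [eq_top_iff]
  rintro x -
  obtain ⟨r, rfl⟩ := Ideal.Quotient.mk_surjective x
  have hr : r ∈ Submodule.span A (s : Set R) := by rw [hs]; trivial
  induction hr using Submodule.span_induction with
  | mem x hx => exact Submodule.subset_span (by simpa using ⟨x, hx, rfl⟩)
  | zero => simp
  | add x y _ _ hx hy => rw [map_add]; exact Submodule.add_mem _ hx hy
  | smul a x _ hx =>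
    rw [Algebra.smul_def, mk_mul e I hP]
    exact Submodule.smul_mem _ _ hx

/-- a point of an integral algebra: a prime ideal over the kernel of a point of `A` -/
theorem exists_point [Module.Finite A R] (e : R →ₐ[F] F) (P : Ideal R) [P.IsPrime]
    (hP : ∀ a : A, e (algebraMap A R a) = 0 → algebraMap A R a ∈ P) :
    ∃ y : R →ₐ[F] F, (∀ a : A, y (algebraMap A R a) = e (algebraMap A R a)) ∧
      ∀ r, y r = 0 ↔ r ∈ P := by
  have hfin : Module.Finite F (R ⧸ P) := finite_quot e P hP
  have hb : Function.Bijective (algebraMap F (R ⧸ P)) :=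
    IsAlgClosed.algebraMap_bijective_of_isIntegral
  let E : F ≃ₐ[F] (R ⧸ P) := AlgEquiv.ofBijective (Algebra.ofId F (R ⧸ P)) hb
  refine ⟨(E.symm : (R ⧸ P) →ₐ[F] F).comp (Ideal.Quotient.mkₐ F P), ?_, ?_⟩
  · intro a
    have h1 : Ideal.Quotient.mkₐ F P (algebraMap A R a) = algebraMap F (R ⧸ P) (e (algebraMap A R a)) := by
      have h3 : algebraMap F (R ⧸ P) (e (algebraMap A R a)) =
            Ideal.Quotient.mk P (algebraMap F R (e (algebraMap A R a))) := rfl
      rw [h3, ← sub_eq_zero]
      change Ideal.Quotient.mk P _ - _ = 0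
      rw [← map_sub]
      exact Ideal.Quotient.eq_zero_iff_mem.mpr (sub_mem e P hP a)
    rw [AlgHom.comp_apply, h1]
    exact (E.symm : (R ⧸ P) →ₐ[F] F).commutes _
  · intro r
    change E.symm (Ideal.Quotient.mk P r) = 0 ↔ _
    rw [map_eq_zero_iff _ E.symm.injective, Ideal.Quotient.eq_zero_iff_mem]

/-- the fibre over a point -/
theorem fibre [Module.Finite A R] (e : R →ₐ[F] F)
    (hpt : ∀ y : R →ₐ[F] F, (∀ a : A, y (algebraMap A R a) = e (algebraMap A R a)) → y = e) :
    ∃ I : Ideal R, (∀ a : A, e (algebraMap A R a) = 0 → algebraMap A R a ∈ I) ∧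
      (∀ r ∈ I, e r = 0) ∧
      ((I : Submodule R R).restrictScalars A ≤
        (RingHom.ker ((e : R →+* F).comp (algebraMap A R))) • (⊤ : Submodule A R)) ∧
      (Module.Finite F (R ⧸ I)) ∧
      ∀ r : R, LinearMap.trace F (R ⧸ I) (LinearMap.mulLeft F (Ideal.Quotient.mk I r)) =
        (finrank F (R ⧸ I) : F) * e r := by
  obtain ⟨m, hm⟩ : ∃ m : Ideal A, m = RingHom.ker ((e : R →+* F).comp (algebraMap A R)) := ⟨_, rfl⟩
  have hm' : ∀ a, a ∈ m ↔ e (algebraMap A R a) = 0 := fun a => by rw [hm]; exact Iff.rfl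
  obtain ⟨I, hIdef⟩ : ∃ I : Ideal R, I = m.map (algebraMap A R) := ⟨_, rfl⟩
  have hI : ∀ a, e (algebraMap A R a) = 0 → algebraMap A R a ∈ I := fun a h => by
    rw [hIdef]
    exact Ideal.mem_map_of_mem _ ((hm' a).2 h)
  have hIe : ∀ r, r ∈ I → e r = 0 := by
    intro r hr
    have h1 : I ≤ RingHom.ker (e : R →+* F) := by
      rw [hIdef, Ideal.map_le_iff_le_comap]
      intro a ha
      exact (hm' a).1 ha
    exact h1 hr
  have hfin : Module.Finite F (R ⧸ I) := finite_quot e I hI
  refine ⟨I, hI, hIe, ?_, hfin, ?_⟩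
  · rw [← hm, hIdef, Ideal.smul_top_eq_map]
  -- nilpotency
  have hnil : ∀ (r : R), IsNilpotent (Ideal.Quotient.mk I (r - algebraMap F R (e r))) := by
    intro r
    have h1 : r - algebraMap F R (e r) ∈ I.radical := by
      rw [Ideal.radical_eq_sInf, Submodule.mem_sInf]
      rintro P ⟨hP1, hP2⟩
      have := hP2
      obtain ⟨y, hy1, hy2⟩ := exists_point (A := A) e P (fun a ha => hP1 (hI a ha))
      have hy := hpt y hy1
      rw [← hy2, hy, map_sub, AlgHom.commutes]
      simp
    obtain ⟨k, hk⟩ := h1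
    exact ⟨k, by rw [← map_pow]; exact Ideal.Quotient.eq_zero_iff_mem.mpr hk⟩
  intro r
  have h1 : LinearMap.mulLeft F (Ideal.Quotient.mk I r) =
      LinearMap.mulLeft F (Ideal.Quotient.mk I (r - algebraMap F R (e r))) +
        (e r) • (LinearMap.id : (R ⧸ I) →ₗ[F] (R ⧸ I)) := by
    ext x
    simp only [LinearMap.mulLeft_apply, LinearMap.add_apply, LinearMap.smul_apply, LinearMap.id_apply,
      map_sub, sub_mul]
    have h3 : Ideal.Quotient.mk I (algebraMap F R (e r)) = algebraMap F (R ⧸ I) (e r) := rfl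
    rw [h3, ← Algebra.smul_def]
    abel
  have h2 : IsNilpotent (LinearMap.mulLeft F
      (Ideal.Quotient.mk I (r - algebraMap F R (e r)))) := by
    obtain ⟨k, hk⟩ := hnil r
    refine ⟨k, ?_⟩
    rw [LinearMap.pow_mulLeft, hk, LinearMap.mulLeft_zero_eq_zero]
  have h4 : LinearMap.trace F (R ⧸ I) (LinearMap.mulLeft F
      (Ideal.Quotient.mk I (r - algebraMap F R (e r)))) = 0 :=
    (LinearMap.isNilpotent_trace_of_isNilpotent h2).eq_zero
  rw [h1, map_add, h4, map_smul, LinearMap.trace_id, zero_add, smul_eq_mul, mul_comm]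

/-- Let `R` be a finite `A`-algebra with points `e γ` which separate the elements of `R`, and which are the
only points over their images.  Then `R` and `A` are equal at some of the points. -/
theorem generic_eq {ι : Type*} (e : ι → (R →ₐ[F] F)) [Module.Finite A R] [Nonempty ι]
    (hinj : ∀ r : R, (∀ γ, e γ r = 0) → r = 0)
    (hpt : ∀ (γ : ι) (y : R →ₐ[F] F), (∀ a : A, y (algebraMap A R a) = e γ (algebraMap A R a)) → y = e γ) :
    ∃ (γ : ι) (b : A), e γ (algebraMap A R b) ≠ 0 ∧
      ∀ r : R, ∃ c : A, algebraMap A R b * r = algebraMap A R c := by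
  classical
  choose I hI hIe hIm hfin htr using fun γ => fibre (A := A) (e γ) (hpt γ)
  obtain ⟨γ₀, hγ₀⟩ : ∃ γ₀, ∀ γ, finrank F (R ⧸ I γ₀) ≤ finrank F (R ⧸ I γ) := by
    obtain ⟨k, ⟨γ₀, hk⟩, hmin⟩ : ∃ k, (∃ γ, finrank F (R ⧸ I γ) = k) ∧
        ∀ k', (∃ γ, finrank F (R ⧸ I γ) = k') → k ≤ k' := by
      have hne : ∃ k, ∃ γ, finrank F (R ⧸ I γ) = k := ⟨_, Classical.arbitrary ι, rfl⟩
      exact ⟨Nat.find hne, Nat.find_spec hne, fun k' h => Nat.find_min' hne h⟩
    exact ⟨γ₀, fun γ => by rw [hk]; exact hmin _ ⟨γ, rfl⟩⟩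
  obtain ⟨d, hd⟩ : ∃ d, d = finrank F (R ⧸ I γ₀) := ⟨_, rfl⟩
  have := hfin γ₀
  -- a basis
  let bs : Basis (Fin d) F (R ⧸ I γ₀) := (finBasisOfFinrankEq F (R ⧸ I γ₀) hd.symm)
  choose r hr using fun i => Ideal.Quotient.mk_surjective (bs i)
  let M : Submodule A R := Submodule.span A (Set.range r)
  have hgen : (⊤ : Submodule A R) ≤ M ⊔
      (RingHom.ker ((e γ₀ : R →+* F).comp (algebraMap A R))) • (⊤ : Submodule A R) := by
    rintro x -
    have h1 : Ideal.Quotient.mk (I γ₀) x = ∑ i, bs.repr (Ideal.Quotient.mk (I γ₀) x) i • bs i :=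
      (bs.sum_repr _).symm
    obtain ⟨c, hc⟩ : ∃ c : Fin d → F, c = fun i => bs.repr (Ideal.Quotient.mk (I γ₀) x) i := ⟨_, rfl⟩
    have h2 : x - ∑ i, algebraMap F R (c i) * r i ∈ I γ₀ := by
      rw [← Ideal.Quotient.eq_zero_iff_mem, map_sub, map_sum, h1, sub_eq_zero]
      refine Finset.sum_congr rfl fun i _ => ?_
      rw [map_mul, hr, hc, Algebra.smul_def]
      rfl
    have h3 : x = (∑ i, algebraMap F R (c i) * r i) + (x - ∑ i, algebraMap F R (c i) * r i) := by ring
    rw [h3]
    refine Submodule.add_mem_sup (Submodule.sum_mem _ fun i _ => ?_) (hIm γ₀ h2)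
    have h4 : algebraMap F R (c i) * r i = (algebraMap F A (c i)) • r i := by
      rw [Algebra.smul_def, ← IsScalarTower.algebraMap_apply]
    rw [h4]
    exact Submodule.smul_mem _ _ (Submodule.subset_span ⟨i, rfl⟩)
  -- Nakayama
  obtain ⟨a, ha1, ha2⟩ : ∃ a : A, e γ₀ (algebraMap A R a) = 1 ∧ ∀ x : R, a • x ∈ M := by
    obtain ⟨m, hm⟩ : ∃ m : Ideal A, m = RingHom.ker ((e γ₀ : R →+* F).comp (algebraMap A R)) := ⟨_, rfl⟩
    rw [← hm] at hgen
    have h1 : (⊤ : Submodule A (R ⧸ M)) ≤ m • (⊤ : Submodule A (R ⧸ M)) := by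
      have h2 := Submodule.map_mono (f := M.mkQ) hgen
      rw [Submodule.map_sup, Submodule.map_smul'', Submodule.map_top, Submodule.range_mkQ,
        Submodule.mkQ_map_self, bot_sup_eq] at h2
      exact h2
    obtain ⟨a, ha, ha'⟩ := Submodule.exists_sub_one_mem_and_smul_eq_zero_of_fg_of_le_smul m
      (⊤ : Submodule A (R ⧸ M)) Module.Finite.fg_top h1
    refine ⟨a, ?_, fun x => ?_⟩
    · have h2 : e γ₀ (algebraMap A R (a - 1)) = 0 := by
        rw [hm] at ha
        exact ha
      rw [map_sub, map_sub, map_one, map_one, sub_eq_zero] at h2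
      exact h2
    · have h2 := ha' (M.mkQ x) trivial
      rw [← map_smul] at h2
      exact (Submodule.Quotient.mk_eq_zero M).1 h2
  have hd0 : (d : F) ≠ 0 := by
    have h1 : Nontrivial (R ⧸ I γ₀) := by
      rw [Ideal.Quotient.nontrivial_iff]
      intro h
      have h2 := hIe γ₀ 1 (by rw [h]; trivial)
      rw [map_one] at h2
      exact one_ne_zero h2
    have h2 : 0 < d := by rw [hd]; exact finrank_pos
    exact_mod_cast h2.ne'
  refine ⟨γ₀, a ^ 2, by rw [map_pow, map_pow, ha1]; simp, fun x => ?_⟩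
  -- coefficients
  have hcoef : ∀ j, ∃ c : Fin d → A, algebraMap A R a * (x * r j) = ∑ i, algebraMap A R (c i) * r i := by
    intro j
    have h1 := ha2 (x * r j)
    rw [Submodule.mem_span_range_iff_exists_fun] at h1
    obtain ⟨c, hc⟩ := h1
    refine ⟨c, ?_⟩
    rw [← Algebra.smul_def, ← hc]
    exact Finset.sum_congr rfl fun i _ => by rw [Algebra.smul_def]
  choose c hc using hcoef
  have key : ∀ γ, e γ (algebraMap A R a) ≠ 0 →
      e γ (algebraMap A R a) * ((d : F) * e γ x) = ∑ i, e γ (algebraMap A R (c i i)) := by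
    intro γ hγ
    have := hfin γ
    -- the classes of the `r i` are a basis
    have hspan : (⊤ : Submodule F (R ⧸ I γ)) ≤
        Submodule.span F (Set.range fun i => Ideal.Quotient.mk (I γ) (r i)) := by
      rintro y -
      obtain ⟨z, rfl⟩ := Ideal.Quotient.mk_surjective y
      have h1 := ha2 z
      rw [Submodule.mem_span_range_iff_exists_fun] at h1
      obtain ⟨w, hw⟩ := h1
      have h2 : Ideal.Quotient.mk (I γ) (algebraMap A R a * z) =
          ∑ i, e γ (algebraMap A R (w i)) • Ideal.Quotient.mk (I γ) (r i) := by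
        rw [← Algebra.smul_def, ← hw, map_sum]
        refine Finset.sum_congr rfl fun i _ => ?_
        rw [Algebra.smul_def, mk_mul (e γ) (I γ) (hI γ)]
      rw [mk_mul (e γ) (I γ) (hI γ)] at h2
      have h3 : Ideal.Quotient.mk (I γ) z = (e γ (algebraMap A R a))⁻¹ •
          ∑ i, e γ (algebraMap A R (w i)) • Ideal.Quotient.mk (I γ) (r i) := by
        rw [← h2, smul_smul, inv_mul_cancel₀ hγ, one_smul]
      rw [h3]
      exact Submodule.smul_mem _ _ (Submodule.sum_mem _ fun i _ =>
        Submodule.smul_mem _ _ (Submodule.subset_span ⟨i, rfl⟩))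
    have hcard : finrank F (R ⧸ I γ) = d := by
      apply le_antisymm
      · have h1 := finrank_range_le_card (R := F) (fun i => Ideal.Quotient.mk (I γ) (r i))
        rw [Set.finrank, top_le_iff.mp hspan, finrank_top, Fintype.card_fin] at h1
        exact h1
      · rw [hd]
        exact hγ₀ γ
    have hli : LinearIndependent F (fun i => Ideal.Quotient.mk (I γ) (r i)) :=
      linearIndependent_of_top_le_span_of_card_eq_finrank hspan (by rw [Fintype.card_fin, hcard])
    let bγ : Basis (Fin d) F (R ⧸ I γ) := Basis.mk hli hspan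
    have hbγ : ∀ i, bγ i = Ideal.Quotient.mk (I γ) (r i) := fun i => Basis.mk_apply hli hspan i
    have h1 := htr γ x
    rw [hcard] at h1
    have h2 : LinearMap.trace F (R ⧸ I γ) ((e γ (algebraMap A R a)) •
        LinearMap.mulLeft F (Ideal.Quotient.mk (I γ) x)) = ∑ i, e γ (algebraMap A R (c i i)) := by
      rw [LinearMap.trace_eq_matrix_trace F bγ, Matrix.trace]
      refine Finset.sum_congr rfl fun j _ => ?_
      rw [Matrix.diag_apply, LinearMap.toMatrix_apply, LinearMap.smul_apply, LinearMap.mulLeft_apply,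
        hbγ, ← map_mul, ← mk_mul (e γ) (I γ) (hI γ), hc, map_sum, map_sum, Finsupp.coe_finsetSum,
        Finset.sum_apply, Finset.sum_eq_single j]
      · rw [mk_mul (e γ) (I γ) (hI γ), ← hbγ, map_smul, Finsupp.smul_apply, Basis.repr_self,
          Finsupp.single_eq_same, smul_eq_mul, mul_one]
      · intro i _ hij
        rw [mk_mul (e γ) (I γ) (hI γ), ← hbγ, map_smul, Finsupp.smul_apply, Basis.repr_self,
          Finsupp.single_eq_of_ne (Ne.symm hij), smul_zero]
      · intro h
        exact absurd (Finset.mem_univ j) h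
    rw [map_smul, h1, smul_eq_mul] at h2
    exact h2
  refine ⟨algebraMap F A (d : F)⁻¹ * (a * ∑ i, c i i), ?_⟩
  rw [← sub_eq_zero]
  apply hinj
  intro γ
  by_cases hγ : e γ (algebraMap A R a) = 0
  · simp only [map_sub, map_mul, map_pow, hγ, map_sum]
    ring
  · have h1 := key γ hγ
    simp only [map_sub, map_mul, map_pow, map_sum]
    rw [← h1, ← IsScalarTower.algebraMap_apply, AlgHom.commutes]
    have : (algebraMap F F) (d : F)⁻¹ = (d : F)⁻¹ := rfl
    rw [this]
    field_simp
    ring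

end CA

end Pool.Agent.H40GO
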