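import Mathlib
import Pool.Agent.H40GO.CA

/-!
# Algebras of functions on a group

Matrix coefficients of a representation which are integral over an algebra of representative functions, with
only unipotent points over the unit element, belong to the algebra.
-/

set_option autoImplicit false
set_option linter.unusedSectionVars false

namespace Pool.Agent.H40GO

open Module Matrix

section Fun

variable {F : Type*} [Field F] {Γ : Type*} [Group Γ]

/-- the translate `x ↦ f (g * x)` -/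
def lt (g : Γ) : (Γ → F) →ₐ[F] (Γ → F) where
  toFun f x := f (g * x)
  map_one' := rfl
  map_mul' _ _ := rfl
  map_zero' := rfl
  map_add' _ _ := rfl
  commutes' _ := rfl

/-- the translate `x ↦ f (x * g)` -/
def rt (g : Γ) : (Γ → F) →ₐ[F] (Γ → F) where
  toFun f x := f (x * g)
  map_one' := rfl
  map_mul' _ _ := rfl
  map_zero' := rfl
  map_add' _ _ := rfl
  commutes' _ := rfl

/-- the function `x ↦ f x⁻¹` -/
def iv : (Γ → F) →ₐ[F] (Γ → F) where
  toFun f x := f x⁻¹
  map_one' := rfl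
  map_mul' _ _ := rfl
  map_zero' := rfl
  map_add' _ _ := rfl
  commutes' _ := rfl

@[simp] theorem lt_apply (g x : Γ) (f : Γ → F) : lt g f x = f (g * x) := rfl
@[simp] theorem rt_apply (g x : Γ) (f : Γ → F) : rt g f x = f (x * g) := rfl
@[simp] theorem iv_apply (x : Γ) (f : Γ → F) : iv f x = f x⁻¹ := rfl

/-- `a (x * y)` is a finite sum of products `u x * w y` with `u`, `w` in the algebra -/
def Comul (A : Subalgebra F (Γ → F)) (a : Γ → F) : Prop :=
  ∃ (n : ℕ) (u w : Fin n → (Γ → F)), (∀ k, u k ∈ A) ∧ (∀ k, w k ∈ A) ∧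
    ∀ x y, a (x * y) = ∑ k, u k x * w k y

theorem Comul.of_finset {A : Subalgebra F (Γ → F)} {a : Γ → F} {ι : Type*} [Fintype ι]
    (u w : ι → (Γ → F)) (hu : ∀ k, u k ∈ A) (hw : ∀ k, w k ∈ A)
    (h : ∀ x y, a (x * y) = ∑ k, u k x * w k y) : Comul A a := by
  refine ⟨Fintype.card ι, fun k => u ((Fintype.equivFin ι).symm k), fun k => w ((Fintype.equivFin ι).symm k),
    fun k => hu _, fun k => hw _, fun x y => ?_⟩
  rw [h x y]
  exact (Equiv.sum_comp (Fintype.equivFin ι).symm (fun k => u k x * w k y)).symm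

theorem Comul.mono {A B : Subalgebra F (Γ → F)} (hAB : A ≤ B) {a : Γ → F} (h : Comul A a) : Comul B a := by
  obtain ⟨n, u, w, hu, hw, h⟩ := h
  exact ⟨n, u, w, fun k => hAB (hu k), fun k => hAB (hw k), h⟩

theorem Comul.add {A : Subalgebra F (Γ → F)} {a b : Γ → F} (ha : Comul A a) (hb : Comul A b) :
    Comul A (a + b) := by
  obtain ⟨n, u, w, hu, hw, h⟩ := ha
  obtain ⟨n', u', w', hu', hw', h'⟩ := hb
  refine Comul.of_finset (ι := Fin n ⊕ Fin n') (Sum.elim u u') (Sum.elim w w') ?_ ?_ ?_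
  · rintro (k | k)
    · exact hu k
    · exact hu' k
  · rintro (k | k)
    · exact hw k
    · exact hw' k
  · intro x y
    rw [Fintype.sum_sum_type]
    simp [h, h']

theorem Comul.mul {A : Subalgebra F (Γ → F)} {a b : Γ → F} (ha : Comul A a) (hb : Comul A b) :
    Comul A (a * b) := by
  obtain ⟨n, u, w, hu, hw, h⟩ := ha
  obtain ⟨n', u', w', hu', hw', h'⟩ := hb
  refine Comul.of_finset (ι := Fin n × Fin n') (fun k => u k.1 * u' k.2) (fun k => w k.1 * w' k.2) ?_ ?_ ?_
  · exact fun k => A.mul_mem (hu _) (hu' _)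
  · exact fun k => A.mul_mem (hw _) (hw' _)
  · intro x y
    rw [Fintype.sum_prod_type, Pi.mul_apply, h, h', Finset.sum_mul_sum]
    refine Finset.sum_congr rfl fun i _ => Finset.sum_congr rfl fun j _ => ?_
    simp only [Pi.mul_apply]
    ring

theorem Comul.const {A : Subalgebra F (Γ → F)} (c : F) : Comul A (algebraMap F (Γ → F) c) := by
  refine ⟨1, fun _ => algebraMap F (Γ → F) c, fun _ => 1, fun _ => A.algebraMap_mem c, fun _ => A.one_mem, ?_⟩
  intro x y
  simp

/-- the algebra generated by functions with comultiplication has comultiplication -/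
theorem comul_adjoin {A : Subalgebra F (Γ → F)} {S : Set (Γ → F)} (hS : ∀ s ∈ S, Comul A s) :
    ∀ a ∈ Algebra.adjoin F S, Comul A a := by
  intro a ha
  induction ha using Algebra.adjoin_induction with
  | mem x hx => exact hS x hx
  | algebraMap r => exact Comul.const r
  | add x y _ _ hx hy => exact hx.add hy
  | mul x y _ _ hx hy => exact hx.mul hy

theorem Comul.lt_mem {A : Subalgebra F (Γ → F)} {a : Γ → F} (h : Comul A a) (g : Γ) : lt g a ∈ A := by
  obtain ⟨n, u, w, hu, hw, h⟩ := h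
  have h1 : lt g a = ∑ k, u k g • w k := by
    ext x
    simp [h]
  rw [h1]
  exact A.sum_mem fun k _ => A.smul_mem (hw k) _

theorem Comul.rt_mem {A : Subalgebra F (Γ → F)} {a : Γ → F} (h : Comul A a) (g : Γ) : rt g a ∈ A := by
  obtain ⟨n, u, w, hu, hw, h⟩ := h
  have h1 : rt g a = ∑ k, w k g • u k := by
    ext x
    simp [h, mul_comm]
  rw [h1]
  exact A.sum_mem fun k _ => A.smul_mem (hu k) _

/-- An algebra of representative functions: finitely generated, with comultiplication and inverse. -/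
structure Hopf (A : Subalgebra F (Γ → F)) : Prop where
  fg : A.FG
  comul : ∀ a ∈ A, Comul A a
  inv : ∀ a ∈ A, iv a ∈ A

/-- A translation-stable ideal with an element which is not zero is the whole algebra. -/
theorem Hopf.ideal_eq_top [IsAlgClosed F] {A : Subalgebra F (Γ → F)} (hA : Hopf A) (J : Ideal A)
    (hJ : ∀ a : A, a ∈ J → ∀ g : Γ, ∀ h : lt g (a : Γ → F) ∈ A, (⟨lt g a, h⟩ : A) ∈ J)
    (h0 : ∃ a ∈ J, (a : Γ → F) ≠ 0) : J = ⊤ := by
  by_contra hne
  obtain ⟨P, hP, hJP⟩ := Ideal.exists_le_maximal J hne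
  have hft : Algebra.FiniteType F A := A.fg_iff_finiteType.mp hA.fg
  letI : Field (A ⧸ P) := Ideal.Quotient.field P
  have hfin : Module.Finite F (A ⧸ P) := finite_of_finite_type_of_isJacobsonRing F (A ⧸ P)
  have hb : Function.Bijective (algebraMap F (A ⧸ P)) :=
    IsAlgClosed.algebraMap_bijective_of_isIntegral
  let E : F ≃ₐ[F] (A ⧸ P) := AlgEquiv.ofBijective (Algebra.ofId F (A ⧸ P)) hb
  let y : A →ₐ[F] F := (E.symm : (A ⧸ P) →ₐ[F] F).comp (Ideal.Quotient.mkₐ F P)
  have hy : ∀ a ∈ J, y a = 0 := by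
    intro a ha
    change E.symm (Ideal.Quotient.mk P a) = 0
    rw [Ideal.Quotient.eq_zero_iff_mem.mpr (hJP ha), map_zero]
  -- an element of `J` with value different from zero at `1`
  obtain ⟨a, haJ, ha0⟩ := h0
  obtain ⟨g, hg⟩ : ∃ g, (a : Γ → F) g ≠ 0 := by
    by_contra h
    push Not at h
    exact ha0 (funext h)
  have hltA : lt g (a : Γ → F) ∈ A := (hA.comul a a.2).lt_mem g
  have hbJ := hJ a haJ g hltA
  obtain ⟨b, hb'⟩ : ∃ b : A, b = ⟨lt g (a : Γ → F), hltA⟩ := ⟨_, rfl⟩
  rw [← hb'] at hbJ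
  have hb1 : (b : Γ → F) 1 ≠ 0 := by
    rw [hb']
    simpa using hg
  obtain ⟨n, u, w, hu, hw, h⟩ := hA.comul b b.2
  have h1 : ∀ x : Γ, ∑ k, u k x * y ⟨w k, hw k⟩ = 0 := by
    intro x
    have h2 := hy _ (hJ b hbJ x ((hA.comul b b.2).lt_mem x))
    have h3 : (⟨lt x (b : Γ → F), (hA.comul b b.2).lt_mem x⟩ : A) = ∑ k, u k x • (⟨w k, hw k⟩ : A) := by
      apply Subtype.ext
      ext z
      simp [h]
    rw [h3, map_sum] at h2
    simpa only [map_smul, smul_eq_mul] using h2
  have h4 : (∑ k, (⟨w k, hw k⟩ : A) * ⟨iv (u k), hA.inv _ (hu k)⟩ : A) = algebraMap F A ((b : Γ → F) 1) := by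
    apply Subtype.ext
    ext z
    have h5 := h z⁻¹ z
    rw [inv_mul_cancel] at h5
    have h6 : ((algebraMap F A ((b : Γ → F) 1) : A) : Γ → F) z = (b : Γ → F) 1 := rfl
    rw [h6, h5]
    simp [mul_comm]
  have h7 : ∑ k, y ⟨w k, hw k⟩ • (⟨iv (u k), hA.inv _ (hu k)⟩ : A) = 0 := by
    apply Subtype.ext
    ext z
    have h8 := h1 z⁻¹
    simpa [mul_comm] using h8
  have h9 := congrArg y h4
  rw [map_sum, AlgHom.commutes] at h9
  have h10 := congrArg y h7
  rw [map_sum, map_zero] at h10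
  simp only [map_mul, map_smul, smul_eq_mul] at h9 h10
  rw [h10] at h9
  exact hb1 h9.symm

end Fun

end Pool.Agent.H40GO
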