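import Mathlib
import Pool.Agent.H40GO.Fun

/-!
# Unipotent points of finite order, and the main algebraic statement
-/

set_option autoImplicit false
set_option linter.unusedSectionVars false
set_option linter.style.haveILetI false

namespace Pool.Agent.H40GO

open Module Matrix

/-- a unipotent matrix with two equal powers is the identity, in characteristic zero -/
theorem unip_eq_one {F : Type*} [Field F] [CharZero F] {n : Type*} [Fintype n] [DecidableEq n]
    (h : Matrix n n F) (hn : IsNilpotent (h - 1)) {k l : ℕ} (hkl : k < l) (he : h ^ k = h ^ l) : h = 1 := by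
  have hu : IsUnit h := by
    have h1 := hn.isUnit_one_add
    rwa [add_sub_cancel] at h1
  obtain ⟨m, rfl⟩ := Nat.exists_eq_add_of_lt hkl
  have h2 : h ^ (m + 1) = 1 := by
    have h3 : h ^ k * h ^ (m + 1) = h ^ k * 1 := by
      rw [← pow_add, mul_one, he]
      congr 1
    exact (hu.pow k).mul_left_cancel h3
  -- `h ^ (m+1) - 1 = (h - 1) * q`
  obtain ⟨q, hq⟩ : ∃ q, q = ∑ i ∈ Finset.range (m + 1), h ^ i := ⟨_, rfl⟩
  have h4 : q * (h - 1) = 0 := by
    rw [hq, geom_sum_mul, h2, sub_self]
  have h5 : ∀ i : ℕ, ∃ z, h ^ i - 1 = (h - 1) * z ∧ Commute (h - 1) z := by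
    intro i
    refine ⟨∑ j ∈ Finset.range i, h ^ j, ?_, ?_⟩
    · rw [mul_geom_sum]
    · apply Commute.sum_right
      intro j _
      exact (Commute.sub_left (Commute.pow_right (Commute.refl h) j) (Commute.one_left _))
  choose z hz hzc using h5
  have h6 : q = ((m + 1 : ℕ) : F) • (1 : Matrix n n F) + (h - 1) * ∑ i ∈ Finset.range (m + 1), z i := by
    have h11 : ((m + 1 : ℕ) : F) • (1 : Matrix n n F) = ((m + 1 : ℕ) : Matrix n n F) := by
      rw [Nat.cast_smul_eq_nsmul, nsmul_one]
    rw [Finset.mul_sum, ← Finset.sum_congr rfl (fun i _ => hz i), Finset.sum_sub_distrib, ← hq, h11]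
    simp
  have h7 : IsNilpotent ((h - 1) * ∑ i ∈ Finset.range (m + 1), z i) :=
    (Commute.sum_right _ _ _ fun i _ => hzc i).isNilpotent_mul_right hn
  have h8 : IsUnit q := by
    have hm : ((m + 1 : ℕ) : F) ≠ 0 := Nat.cast_ne_zero.mpr (Nat.succ_ne_zero m)
    have h9 : IsUnit (((m + 1 : ℕ) : F) • (1 : Matrix n n F)) := by
      refine ⟨⟨((m + 1 : ℕ) : F) • 1, ((m + 1 : ℕ) : F)⁻¹ • 1, ?_, ?_⟩, rfl⟩
      · rw [smul_mul_smul_comm, mul_inv_cancel₀ hm, one_smul, one_mul]
      · rw [smul_mul_smul_comm, inv_mul_cancel₀ hm, one_smul, one_mul]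
    rw [h6]
    refine IsNilpotent.isUnit_add_left_of_commute h7 h9 ?_
    exact (Commute.one_right _).smul_right _
  have h10 : h - 1 = 0 := by
    apply h8.mul_left_cancel
    rw [h4, mul_zero]
  exact sub_eq_zero.mp h10

section Conv

variable {F : Type*} [Field F] {Γ : Type*} [Group Γ]

/-- evaluation at a group element -/
def ev (R : Subalgebra F (Γ → F)) (g : Γ) : R →ₐ[F] F where
  toFun r := (r : Γ → F) g
  map_one' := rfl
  map_mul' _ _ := rfl
  map_zero' := rfl
  map_add' _ _ := rfl
  commutes' _ := rfl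

@[simp] theorem ev_apply (R : Subalgebra F (Γ → F)) (g : Γ) (r : R) : ev R g r = (r : Γ → F) g := rfl

variable {R : Subalgebra F (Γ → F)} (hR : ∀ r ∈ R, Comul R r)

theorem conv_mem (y : R →ₐ[F] F) (r : R) :
    (fun x => y ⟨lt x (r : Γ → F), (hR r r.2).lt_mem x⟩) ∈ R := by
  obtain ⟨n, u, w, hu, hw, h⟩ := hR r r.2
  have h1 : (fun x => y ⟨lt x (r : Γ → F), (hR r r.2).lt_mem x⟩) = ∑ k, (y ⟨w k, hw k⟩) • u k := by
    funext x
    have h3 : (⟨lt x (r : Γ → F), (hR r r.2).lt_mem x⟩ : R) = ∑ k, u k x • (⟨w k, hw k⟩ : R) := by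
      apply Subtype.ext
      ext z
      simp [h]
    rw [h3, map_sum]
    simp only [map_smul, smul_eq_mul, Finset.sum_apply, Pi.smul_apply]
    exact Finset.sum_congr rfl fun k _ => mul_comm _ _
  rw [h1]
  exact R.sum_mem fun k _ => R.smul_mem (hu k) _

/-- the product of two points -/
def conv (y₁ y₂ : R →ₐ[F] F) : R →ₐ[F] F where
  toFun r := y₁ ⟨fun x => y₂ ⟨lt x (r : Γ → F), (hR r r.2).lt_mem x⟩, conv_mem hR y₂ r⟩
  map_one' := by
    convert map_one y₁ using 2
    apply Subtype.ext
    funext x
    exact map_one y₂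
  map_mul' r s := by
    rw [← map_mul]
    congr 1
    apply Subtype.ext
    funext x
    change _ = y₂ _ * y₂ _
    rw [← map_mul]
    rfl
  map_zero' := by
    convert map_zero y₁ using 2
    apply Subtype.ext
    funext x
    exact map_zero y₂
  map_add' r s := by
    rw [← map_add]
    congr 1
    apply Subtype.ext
    funext x
    change _ = y₂ _ + y₂ _
    rw [← map_add]
    rfl
  commutes' c := by
    convert y₁.commutes c using 2
    apply Subtype.ext
    funext x
    exact y₂.commutes c

theorem conv_apply (y₁ y₂ : R →ₐ[F] F) (r : R) : conv hR y₁ y₂ r =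
    y₁ ⟨fun x => y₂ ⟨lt x (r : Γ → F), (hR r r.2).lt_mem x⟩, conv_mem hR y₂ r⟩ := rfl

/-- **Main algebraic statement.** Let `A` be an algebra of representative functions on `Γ` and `ρ` a matrix
representation of `Γ`, with matrix coefficients integral over `A`.  If `y ρ` is unipotent for all points `y` of the
algebra generated by `A` and `ρ` over the unit element, then the matrix coefficients belong to `A`. -/
theorem coeff_mem [IsAlgClosed F] [CharZero F] {A : Subalgebra F (Γ → F)} (hA : Hopf A) {n : Type*} [Fintype n]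
    [DecidableEq n] (ρ : Γ →* Matrix n n F) (hint : ∀ i j, IsIntegral A (fun x => ρ x i j))
    (huni : ∀ (B : Subalgebra F (Γ → F)) (hAB : A ≤ B) (hρB : ∀ i j, (fun x => ρ x i j) ∈ B) (y : B →ₐ[F] F),
      (∀ a (ha : a ∈ A), y ⟨a, hAB ha⟩ = a 1) →
      IsNilpotent ((Matrix.of fun i j => y ⟨fun x => ρ x i j, hρB i j⟩) - 1)) :
    ∀ i j, (fun x => ρ x i j) ∈ A := by
  classical
  -- the algebra `R`
  obtain ⟨S, hS⟩ : ∃ S : Set (Γ → F), S = Set.range (fun p : n × n => fun x => ρ x p.1 p.2) := ⟨_, rfl⟩
  obtain ⟨R, hRdef⟩ : ∃ R : Subalgebra F (Γ → F), R = Algebra.adjoin F ((A : Set (Γ → F)) ∪ S) := ⟨_, rfl⟩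
  have hAR : A ≤ R := by
    rw [hRdef]
    intro a ha
    exact Algebra.subset_adjoin (Or.inl ha)
  have hρR : ∀ i j, (fun x => ρ x i j) ∈ R := by
    intro i j
    rw [hRdef]
    exact Algebra.subset_adjoin (Or.inr (by rw [hS]; exact ⟨(i, j), rfl⟩))
  have hR : ∀ r ∈ R, Comul R r := by
    have h1 : ∀ s ∈ (A : Set (Γ → F)) ∪ S, Comul R s := by
      rintro s (hs | hs)
      · exact (hA.comul s hs).mono hAR
      · rw [hS] at hs
        obtain ⟨⟨i, j⟩, rfl⟩ := hs
        refine Comul.of_finset (fun k x => ρ x i k) (fun k x => ρ x k j) (fun k => hρR i k) (fun k => hρR k j) ?_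
        intro x y
        simp only [map_mul, Matrix.mul_apply]
    have h2 := comul_adjoin h1
    rw [← hRdef] at h2
    exact h2
  letI : Algebra A R := (Subalgebra.inclusion hAR).toAlgebra
  have hmap : ∀ a : A, algebraMap A R a = ⟨a, hAR a.2⟩ := fun a => rfl
  haveI : IsScalarTower F A R := IsScalarTower.of_algebraMap_eq fun c => rfl
  have hfin : Module.Finite A R := by
    have h1 : (Algebra.adjoin A S).toSubmodule.FG := by
      refine fg_adjoin_of_finite (by rw [hS]; exact Set.finite_range _) ?_
      rintro s hs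
      rw [hS] at hs
      obtain ⟨⟨i, j⟩, rfl⟩ := hs
      exact hint i j
    have hle : ∀ r, r ∈ R ↔ r ∈ Algebra.adjoin A S := by
      intro r
      constructor
      · intro hr
        rw [hRdef] at hr
        induction hr using Algebra.adjoin_induction with
        | mem x hx =>
          rcases hx with hx | hx
          · exact (Algebra.adjoin A S).algebraMap_mem (⟨x, hx⟩ : A)
          · exact Algebra.subset_adjoin hx
        | algebraMap c =>
          exact (Algebra.adjoin A S).algebraMap_mem (algebraMap F A c)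
        | add x y _ _ hx hy => exact add_mem hx hy
        | mul x y _ _ hx hy => exact mul_mem hx hy
      · intro hr
        induction hr using Algebra.adjoin_induction with
        | mem x hx => rw [hRdef]; exact Algebra.subset_adjoin (Or.inr hx)
        | algebraMap c => exact hAR c.2
        | add x y _ _ hx hy => exact add_mem hx hy
        | mul x y _ _ hx hy => exact mul_mem hx hy
    obtain ⟨T, hT⟩ := h1
    have hTR : ∀ t ∈ T, t ∈ R := fun t ht => by
      rw [hle]
      have h2 : t ∈ Submodule.span A (T : Set (Γ → F)) := Submodule.subset_span ht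
      rw [hT] at h2
      exact h2
    obtain ⟨T', hT'⟩ : ∃ T' : Finset R, ∀ x (hx : x ∈ T), (⟨x, hTR x hx⟩ : R) ∈ T' :=
      ⟨T.attach.image fun t : {x // x ∈ T} => (⟨t.1, hTR t.1 t.2⟩ : R), fun x hx =>
        Finset.mem_image.mpr ⟨⟨x, hx⟩, Finset.mem_attach _ _, rfl⟩⟩
    refine ⟨⟨T', ?_⟩⟩
    rw [eq_top_iff]
    rintro ⟨r, hr⟩ -
    have h3 : r ∈ Submodule.span A (T : Set (Γ → F)) := by
      rw [hT]
      exact (hle r).1 hr
    have key : ∀ r ∈ Submodule.span A (T : Set (Γ → F)), ∀ hr : r ∈ R, (⟨r, hr⟩ : R) ∈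
        Submodule.span A (T' : Set R) := by
      intro r hr
      induction hr using Submodule.span_induction with
      | mem x hx =>
        intro h
        exact Submodule.subset_span (hT' x hx)
      | zero => intro h; exact Submodule.zero_mem _
      | add x y hx' hy' hx hy =>
        intro h
        have hxR : x ∈ R := by
          rw [hle]
          rw [hT] at hx'
          exact hx'
        have hyR : y ∈ R := by
          rw [hle]
          rw [hT] at hy'
          exact hy'
        exact Submodule.add_mem _ (hx hxR) (hy hyR)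
      | smul a x hx' hx =>
        intro h
        have hxR : x ∈ R := by
          rw [hle]
          rw [hT] at hx'
          exact hx'
        exact Submodule.smul_mem _ a (hx hxR)
    exact key r h3 hr
  -- the points over the unit element
  have hpt1 : ∀ y : R →ₐ[F] F, (∀ a (ha : a ∈ A), y ⟨a, hAR ha⟩ = a 1) → y = ev R 1 := by
    intro y hy
    -- the powers
    obtain ⟨h, hh⟩ : ∃ h : Matrix n n F, h = Matrix.of fun i j => y ⟨fun x => ρ x i j, hρR i j⟩ := ⟨_, rfl⟩
    have hpow : ∀ k : ℕ, ∃ z : R →ₐ[F] F, (∀ a (ha : a ∈ A), z ⟨a, hAR ha⟩ = a 1) ∧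
        (Matrix.of fun i j => z ⟨fun x => ρ x i j, hρR i j⟩) = h ^ k := by
      intro k
      induction k with
      | zero =>
        refine ⟨ev R 1, fun a ha => rfl, ?_⟩
        ext i j
        simp [Matrix.one_apply]
      | succ k ih =>
        obtain ⟨z, hz1, hz2⟩ := ih
        refine ⟨conv hR z y, ?_, ?_⟩
        · intro a ha
          rw [conv_apply]
          have h1 : (⟨fun x => y ⟨lt x a, (hR a (hAR ha)).lt_mem x⟩, conv_mem hR y ⟨a, hAR ha⟩⟩ : R) =
              ⟨a, hAR ha⟩ := by
            apply Subtype.ext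
            funext x
            have h2 := hy (lt x a) ((hA.comul a ha).lt_mem x)
            rw [lt_apply, mul_one] at h2
            exact h2
          rw [h1]
          exact hz1 a ha
        · rw [pow_succ, ← hz2, hh]
          ext i j
          rw [Matrix.of_apply, conv_apply, Matrix.mul_apply]
          have h1 : (⟨fun x => y ⟨lt x (fun x => ρ x i j), (hR _ (hρR i j)).lt_mem x⟩,
              conv_mem hR y ⟨fun x => ρ x i j, hρR i j⟩⟩ : R) =
              ∑ k, (y ⟨fun x => ρ x k j, hρR k j⟩) • (⟨fun x => ρ x i k, hρR i k⟩ : R) := by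
            apply Subtype.ext
            funext x
            have h2 : (⟨lt x (fun x => ρ x i j), (hR _ (hρR i j)).lt_mem x⟩ : R) =
                ∑ k, (ρ x i k) • (⟨fun x => ρ x k j, hρR k j⟩ : R) := by
              apply Subtype.ext
              funext z
              simp [Matrix.mul_apply]
            change y _ = _
            rw [h2, map_sum]
            simp only [map_smul, smul_eq_mul]
            have h5 : ((∑ k, (y ⟨fun x => ρ x k j, hρR k j⟩) • (⟨fun x => ρ x i k, hρR i k⟩ : R) : R) : Γ → F) x =
                ∑ k, (y ⟨fun x => ρ x k j, hρR k j⟩) * ρ x i k := by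
              simp
            rw [h5]
            exact Finset.sum_congr rfl fun k _ => mul_comm _ _
          rw [h1, map_sum]
          simp only [map_smul, smul_eq_mul]
          exact Finset.sum_congr rfl fun k _ => mul_comm _ _
    have hnil : IsNilpotent (h - 1) := by
      rw [hh]
      exact huni R hAR hρR y hy
    -- finitely many matrices
    have hfinite : (Set.range fun k : ℕ => h ^ k).Finite := by
      have hroots : ∀ i j, ∃ T : Finset F, ∀ z : R →ₐ[F] F, (∀ a (ha : a ∈ A), z ⟨a, hAR ha⟩ = a 1) →
          z ⟨fun x => ρ x i j, hρR i j⟩ ∈ T := by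
        intro i j
        obtain ⟨p, hp1, hp2⟩ := hint i j
        let ev1 : A →+* F := (ev A 1 : A →+* F)
        have hpm : (p.map ev1) ≠ 0 := (hp1.map ev1).ne_zero
        refine ⟨(p.map ev1).roots.toFinset, fun z hz => ?_⟩
        rw [Multiset.mem_toFinset, Polynomial.mem_roots hpm, Polynomial.IsRoot.def, Polynomial.eval_map]
        have h1 : Polynomial.eval₂ (algebraMap A R) (⟨fun x => ρ x i j, hρR i j⟩ : R) p = 0 := by
          apply Subtype.ext
          have h2 := Polynomial.hom_eval₂ p (algebraMap A R) (R.val : R →+* (Γ → F))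
            (⟨fun x => ρ x i j, hρR i j⟩ : R)
          have h3 : (R.val : R →+* (Γ → F)).comp (algebraMap A R) = algebraMap A (Γ → F) := rfl
          rw [h3] at h2
          exact h2.trans hp2
        have h4 := Polynomial.hom_eval₂ p (algebraMap A R) (z : R →+* F) (⟨fun x => ρ x i j, hρR i j⟩ : R)
        rw [h1, map_zero] at h4
        have h5 : (z : R →+* F).comp (algebraMap A R) = ev1 := by
          ext a
          exact hz a a.2
        rw [h5] at h4
        exact h4.symm
      choose T hT using hroots
      refine (Set.Finite.subset (s := {M : Matrix n n F | ∀ i j, M i j ∈ T i j}) ?_ ?_)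
      · exact Set.Finite.pi' (t := fun i => {g : n → F | ∀ j, g j ∈ T i j})
          fun i => Set.Finite.pi' (t := fun j => (T i j : Set F)) fun j => (T i j).finite_toSet
      · rintro _ ⟨k, rfl⟩
        intro i j
        obtain ⟨z, hz1, hz2⟩ := hpow k
        have h2 := hT i j z hz1
        have h3 := congrFun (congrFun hz2 i) j
        rw [Matrix.of_apply] at h3
        rw [h3] at h2
        exact h2
    have hone : h = 1 := by
      have h1 : ¬ Function.Injective (fun k : ℕ => h ^ k) := fun hi =>
        (Set.infinite_range_of_injective hi) hfinite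
      obtain ⟨k, l, hkl, hne⟩ : ∃ k l : ℕ, h ^ k = h ^ l ∧ k ≠ l := by
        by_contra hcon
        push Not at hcon
        exact h1 fun a b hab => hcon a b hab
      rcases lt_or_gt_of_ne hne with h2 | h2
      · exact unip_eq_one h hnil h2 hkl
      · exact unip_eq_one h hnil h2 hkl.symm
    -- equality on generators
    apply AlgHom.ext
    rintro ⟨r, hr⟩
    have key : ∀ r ∈ Algebra.adjoin F ((A : Set (Γ → F)) ∪ S), ∀ hr : r ∈ R, y ⟨r, hr⟩ = ev R 1 ⟨r, hr⟩ := by
      intro r hr
      induction hr using Algebra.adjoin_induction with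
      | mem x hx =>
        intro h'
        rcases hx with hx | hx
        · exact hy x hx
        · rw [hS] at hx
          obtain ⟨⟨i, j⟩, rfl⟩ := hx
          have h1 := congrFun (congrFun hh i) j
          rw [Matrix.of_apply, hone] at h1
          rw [← h1]
          simp
      | algebraMap c =>
        intro h'
        exact (y.commutes c).trans ((ev R 1).commutes c).symm
      | add x z hx' hz' hx hz =>
        intro h'
        rw [← hRdef] at hx' hz'
        have h1 : (⟨x + z, h'⟩ : R) = ⟨x, hx'⟩ + ⟨z, hz'⟩ := rfl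
        rw [h1, map_add, map_add, hx hx', hz hz']
      | mul x z hx' hz' hx hz =>
        intro h'
        rw [← hRdef] at hx' hz'
        have h1 : (⟨x * z, h'⟩ : R) = ⟨x, hx'⟩ * ⟨z, hz'⟩ := rfl
        rw [h1, map_mul, map_mul, hx hx', hz hz']
    have hr' := hr
    rw [hRdef] at hr'
    exact key r hr' hr
  -- the points over the other elements
  have hpt : ∀ (γ : Γ) (y : R →ₐ[F] F), (∀ a : A, y (algebraMap A R a) = ev R γ (algebraMap A R a)) →
      y = ev R γ := by
    intro γ y hy
    -- translate
    let L : R →ₐ[F] R :=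
      { toFun := fun r => ⟨lt γ⁻¹ (r : Γ → F), (hR r r.2).lt_mem γ⁻¹⟩
        map_one' := rfl
        map_mul' := fun _ _ => rfl
        map_zero' := rfl
        map_add' := fun _ _ => rfl
        commutes' := fun _ => rfl }
    have h1 := hpt1 (y.comp L) (by
      intro a ha
      have h2 := hy ⟨lt γ⁻¹ a, (hA.comul a ha).lt_mem γ⁻¹⟩
      rw [hmap, ev_apply] at h2
      simp only [lt_apply, inv_mul_cancel] at h2
      exact h2)
    apply AlgHom.ext
    intro r
    have h3 := congrArg (fun f : R →ₐ[F] F => f ⟨lt γ (r : Γ → F), (hR r r.2).lt_mem γ⟩) h1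
    simp only [AlgHom.comp_apply, ev_apply, lt_apply, mul_one] at h3
    have h4 : L ⟨lt γ (r : Γ → F), (hR r r.2).lt_mem γ⟩ = r := by
      apply Subtype.ext
      funext x
      change (r : Γ → F) (γ * (γ⁻¹ * x)) = _
      rw [mul_inv_cancel_left]
    rw [h4] at h3
    rw [h3, ev_apply]
  obtain ⟨γ₀, b, hb0, hb⟩ := generic_eq (A := A) (fun γ : Γ => ev R γ) (fun r hr => Subtype.ext (funext hr)) hpt
  -- the ideal
  let J : Ideal A :=
    { carrier := {a | ∀ r ∈ R, (a : Γ → F) * r ∈ A}
      add_mem' := by
        intro a a' ha ha' r hr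
        have : ((a + a' : A) : Γ → F) * r = (a : Γ → F) * r + (a' : Γ → F) * r := by
          rw [← add_mul]
          rfl
        rw [this]
        exact A.add_mem (ha r hr) (ha' r hr)
      zero_mem' := by
        intro r hr
        have : ((0 : A) : Γ → F) * r = 0 := zero_mul r
        rw [this]
        exact A.zero_mem
      smul_mem' := by
        intro c a ha r hr
        have : ((c • a : A) : Γ → F) * r = (c : Γ → F) * ((a : Γ → F) * r) := by
          rw [← mul_assoc]
          rfl
        rw [this]
        exact A.mul_mem c.2 (ha r hr) }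
  have hJtop : J = ⊤ := by
    refine hA.ideal_eq_top J ?_ ⟨b, ?_, ?_⟩
    · intro a ha g hg r hr
      have h1 := ha (lt g⁻¹ r) ((hR r hr).lt_mem g⁻¹)
      have h2 := (hA.comul _ h1).lt_mem g
      have h3 : lt g ((a : Γ → F) * lt g⁻¹ r) = lt g (a : Γ → F) * r := by
        funext x
        simp
      rw [h3] at h2
      exact h2
    · intro r hr
      obtain ⟨c, hc⟩ := hb ⟨r, hr⟩
      have h1 := congrArg (fun z : R => (z : Γ → F)) hc
      have h2 : (b : Γ → F) * r = (c : Γ → F) := h1
      rw [h2]
      exact c.2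
    · intro h
      apply hb0
      rw [hmap, ev_apply]
      exact congrFun h γ₀
  intro i j
  have h1 : (1 : A) ∈ J := by rw [hJtop]; trivial
  have h2 := h1 _ (hρR i j)
  have h3 : ((1 : A) : Γ → F) * (fun x => ρ x i j) = (fun x => ρ x i j) := one_mul _
  rw [h3] at h2
  exact h2

end Conv

end Pool.Agent.H40GO
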