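import Mathlib
import Pool.Agent.H40GO.Uni

/-!
# Burnside's theorem and integrality of matrix coefficients
-/

set_option autoImplicit false
set_option linter.unusedSectionVars false

namespace Pool.Agent.H40GO

open Module Matrix

/-- a matrix representation is irreducible: it has positive dimension and no stable subspace but the trivial ones -/
def Irr {F : Type*} [Field F] {Γ : Type*} [Group Γ] {n : Type*} [Fintype n] [DecidableEq n]
    (ρ : Γ →* Matrix n n F) : Prop :=
  Nonempty n ∧ ∀ U : Submodule F (n → F), (∀ g, ∀ u ∈ U, ρ g *ᵥ u ∈ U) → U = ⊥ ∨ U = ⊤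

section

variable {F : Type*} [Field F] {Γ : Type*} [Group Γ] {n : Type*} [Fintype n] [DecidableEq n]

/-- **Burnside's theorem** for subalgebras of the endomorphism algebra -/
theorem mem_of_simple {V : Type*} [AddCommGroup V] [Module F V] [FiniteDimensional F V] [IsAlgClosed F]
    (B : Subalgebra F (Module.End F V)) [IsSimpleModule B V] (f : Module.End F V) : f ∈ B := by
  classical
  have hsc := (IsSimpleModule.algebraMap_end_bijective_of_isAlgClosed (A := B) (V := V) F).2
  let f' : Module.End (Module.End B V) V :=
    { toFun := f
      map_add' := map_add f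
      map_smul' := by
        intro e v
        obtain ⟨c, rfl⟩ := hsc e
        simp }
  obtain ⟨r, hr⟩ := jacobson_density f' (Finset.univ.image (Module.finBasis F V))
  have hfr : f = r := by
    refine (Module.finBasis F V).ext fun i => ?_
    exact hr _ (Finset.mem_image.mpr ⟨i, Finset.mem_univ _, rfl⟩)
  rw [hfr]
  exact r.2

/-- **Burnside's theorem** -/
theorem burnside [IsAlgClosed F] (ρ : Γ →* Matrix n n F) (hirr : Irr ρ) (M : Matrix n n F) :
    M ∈ Submodule.span F (Set.range ρ) := by
  classical
  obtain ⟨hne, hirr⟩ := hirr
  obtain ⟨B, hB⟩ : ∃ B : Subalgebra F (Module.End F (n → F)),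
    B = Algebra.adjoin F (Set.range fun g => Matrix.toLin' (ρ g)) := ⟨_, rfl⟩
  have hmem : ∀ g, Matrix.toLin' (ρ g) ∈ B := fun g => by
    rw [hB]
    exact Algebra.subset_adjoin ⟨g, rfl⟩
  have hnt : Nontrivial (n → F) := inferInstance
  have hsimple : IsSimpleModule B (n → F) := by
    rw [isSimpleModule_iff]
    refine { toNontrivial := ?_, eq_bot_or_eq_top := ?_ }
    · exact ⟨⊥, ⊤, bot_ne_top⟩
    · intro U
      rcases hirr (U.restrictScalars F) (fun g u hu => by
        have h1 := U.smul_mem (⟨_, hmem g⟩ : B) hu
        exact h1) with h | h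
      · left
        rw [eq_bot_iff]
        intro u hu
        have : u ∈ U.restrictScalars F := hu
        rw [h] at this
        exact this
      · right
        rw [eq_top_iff]
        intro u _
        have : u ∈ U.restrictScalars F := by rw [h]; trivial
        exact this
  obtain ⟨f, hf⟩ : ∃ f : Module.End F (n → F), f = Matrix.toLin' M := ⟨_, rfl⟩
  have hfB : f ∈ Algebra.adjoin F (Set.range fun g => Matrix.toLin' (ρ g)) := by
    rw [← hB]
    exact mem_of_simple B f
  have hM : M = LinearMap.toMatrix' f := by rw [hf, LinearMap.toMatrix'_toLin']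
  rw [hM]
  have key : ∀ f ∈ Algebra.adjoin F (Set.range fun g => Matrix.toLin' (ρ g)),
      LinearMap.toMatrix' f ∈ Submodule.span F (Set.range ρ) := by
    intro f hf
    induction hf using Algebra.adjoin_induction with
    | mem x hx =>
      obtain ⟨g, rfl⟩ := hx
      apply Submodule.subset_span
      refine ⟨g, ?_⟩
      simp
    | algebraMap c =>
      have h1 : LinearMap.toMatrix' (algebraMap F (Module.End F (n → F)) c) = c • ρ 1 := by
        rw [map_one, Algebra.algebraMap_eq_smul_one, map_smul, LinearMap.toMatrix'_one]
      rw [h1]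
      exact Submodule.smul_mem _ _ (Submodule.subset_span ⟨1, rfl⟩)
    | add x y _ _ hx hy =>
      rw [map_add]
      exact Submodule.add_mem _ hx hy
    | mul x y _ _ hx hy =>
      rw [LinearMap.toMatrix'_mul]
      generalize LinearMap.toMatrix' x = X at hx
      generalize LinearMap.toMatrix' y = Y at hy
      induction hx using Submodule.span_induction with
      | mem a ha =>
        obtain ⟨g, rfl⟩ := ha
        induction hy using Submodule.span_induction with
        | mem b hb =>
          obtain ⟨h, rfl⟩ := hb
          exact Submodule.subset_span ⟨g * h, map_mul _ _ _⟩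
        | zero => rw [mul_zero]; exact Submodule.zero_mem _
        | add a b _ _ ha hb => rw [mul_add]; exact Submodule.add_mem _ ha hb
        | smul c a _ ha => rw [mul_smul_comm]; exact Submodule.smul_mem _ _ ha
      | zero => rw [zero_mul]; exact Submodule.zero_mem _
      | add a b _ _ ha hb => rw [add_mul]; exact Submodule.add_mem _ ha hb
      | smul c a _ ha => rw [smul_mul_assoc]; exact Submodule.smul_mem _ _ ha
  exact key f hfB

/-- the right translates of an integral function are integral -/
theorem isIntegral_rt {A : Subalgebra F (Γ → F)} (hA : ∀ a ∈ A, Comul A a) {f : Γ → F}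
    (hf : IsIntegral A f) (g : Γ) : IsIntegral A (rt g f) := by
  obtain ⟨p, hp1, hp2⟩ := hf
  let s : A →+* A :=
    { toFun := fun a => ⟨rt g (a : Γ → F), (hA a a.2).rt_mem g⟩
      map_one' := rfl
      map_mul' := fun _ _ => rfl
      map_zero' := rfl
      map_add' := fun _ _ => rfl }
  refine ⟨p.map s, hp1.map s, ?_⟩
  rw [Polynomial.eval₂_map]
  have h1 := Polynomial.hom_eval₂ p (algebraMap A (Γ → F)) ((rt g : (Γ → F) →ₐ[F] (Γ → F)) : (Γ → F) →+* (Γ → F)) f
  rw [hp2, map_zero] at h1
  exact h1.symm

/-- If the trace of an irreducible representation is integral over `A` then so are the matrix coefficients. -/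
theorem coeff_integral [IsAlgClosed F] {A : Subalgebra F (Γ → F)} (hA : ∀ a ∈ A, Comul A a) (ρ : Γ →* Matrix n n F)
    (hirr : Irr ρ) (htr : IsIntegral A (fun x => (ρ x).trace)) (i j : n) :
    IsIntegral A (fun x => ρ x i j) := by
  have key : ∀ M ∈ Submodule.span F (Set.range ρ), IsIntegral A (fun x => (ρ x * M).trace) := by
    intro M hM
    induction hM using Submodule.span_induction with
    | mem a ha =>
      obtain ⟨g, rfl⟩ := ha
      have h1 := isIntegral_rt hA htr g
      have h2 : rt g (fun x => (ρ x).trace) = fun x => (ρ x * ρ g).trace := by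
        funext x
        rw [rt_apply, map_mul]
      rwa [h2] at h1
    | zero =>
      have h2 : (fun x => (ρ x * 0).trace) = (0 : Γ → F) := by
        funext x
        simp
      rw [h2]
      exact isIntegral_zero
    | add a b _ _ ha hb =>
      have h2 : (fun x => (ρ x * (a + b)).trace) = (fun x => (ρ x * a).trace) + (fun x => (ρ x * b).trace) := by
        funext x
        simp [mul_add]
      rw [h2]
      exact ha.add hb
    | smul c a _ ha =>
      have h2 : (fun x => (ρ x * (c • a)).trace) = algebraMap F (Γ → F) c * (fun x => (ρ x * a).trace) := by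
        funext x
        simp
      rw [h2]
      refine IsIntegral.mul ?_ ha
      exact isIntegral_algebraMap (A := Γ → F) (x := (algebraMap F A c))
  have h1 := key (Matrix.single j i 1) (burnside ρ hirr _)
  have h2 : (fun x => (ρ x * Matrix.single j i 1).trace) = fun x => ρ x i j := by
    funext x
    simp [Matrix.trace_mul_single]
  rwa [h2] at h1

end

end Pool.Agent.H40GO
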