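import Mathlib
import Pool.Agent.H40GO.Int

/-!
# The algebra of matrix coefficients of a representation
-/

set_option autoImplicit false
set_option linter.unusedSectionVars false

namespace Pool.Agent.H40GO

open Module Matrix

section

variable {F : Type*} [Field F] {Γ : Type*} [Group Γ] {m : Type*} [Fintype m] [DecidableEq m]

/-- the set of matrix coefficients of `W`, of its contragredient, of a character and of its inverse -/
def coefSet (W : Γ →* Matrix m m F) (δ : Γ →* F) : Set (Γ → F) :=
  (Set.range fun p : m × m => fun x => W x p.1 p.2) ∪ (Set.range fun p : m × m => fun x => W x⁻¹ p.1 p.2) ∪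
    {fun x => δ x, fun x => δ x⁻¹}

/-- the algebra generated by the matrix coefficients of `W`, of its contragredient, by a character and by its inverse -/
def coefAlg (W : Γ →* Matrix m m F) (δ : Γ →* F) : Subalgebra F (Γ → F) :=
  Algebra.adjoin F (coefSet W δ)

theorem mem1 (W : Γ →* Matrix m m F) (δ : Γ →* F) (i j : m) : (fun x => W x i j) ∈ coefAlg W δ :=
  Algebra.subset_adjoin (Or.inl (Or.inl ⟨(i, j), rfl⟩))

theorem mem2 (W : Γ →* Matrix m m F) (δ : Γ →* F) (i j : m) : (fun x => W x⁻¹ i j) ∈ coefAlg W δ :=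
  Algebra.subset_adjoin (Or.inl (Or.inr ⟨(i, j), rfl⟩))

theorem mem3 (W : Γ →* Matrix m m F) (δ : Γ →* F) : (fun x => δ x) ∈ coefAlg W δ :=
  Algebra.subset_adjoin (Or.inr (Or.inl rfl))

theorem mem4 (W : Γ →* Matrix m m F) (δ : Γ →* F) : (fun x => δ x⁻¹) ∈ coefAlg W δ :=
  Algebra.subset_adjoin (Or.inr (Or.inr rfl))

theorem coefAlg_hopf (W : Γ →* Matrix m m F) (δ : Γ →* F) : Hopf (coefAlg W δ) where
  fg := by
    rw [Subalgebra.fg_def]
    refine ⟨coefSet W δ, ?_, rfl⟩
    refine ((Set.finite_range _).union (Set.finite_range _)).union ?_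
    exact Set.toFinite _
  comul := by
    apply comul_adjoin
    rintro s ((⟨⟨i, j⟩, rfl⟩ | ⟨⟨i, j⟩, rfl⟩) | (rfl | rfl))
    · refine Comul.of_finset (fun k x => W x i k) (fun k x => W x k j) (fun k => mem1 W δ i k)
        (fun k => mem1 W δ k j) ?_
      intro x y
      simp only [map_mul, Matrix.mul_apply]
    · refine Comul.of_finset (fun k x => W x⁻¹ k j) (fun k x => W x⁻¹ i k) (fun k => mem2 W δ k j)
        (fun k => mem2 W δ i k) ?_
      intro x y
      simp only [_root_.mul_inv_rev, map_mul, Matrix.mul_apply]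
      exact Finset.sum_congr rfl fun k _ => mul_comm _ _
    · refine Comul.of_finset (ι := Unit) (fun _ x => δ x) (fun _ x => δ x) (fun _ => mem3 W δ)
        (fun _ => mem3 W δ) ?_
      intro x y
      simp
    · refine Comul.of_finset (ι := Unit) (fun _ x => δ x⁻¹) (fun _ x => δ x⁻¹) (fun _ => mem4 W δ)
        (fun _ => mem4 W δ) ?_
      intro x y
      simp [mul_comm]
  inv := by
    intro a ha
    have h1 : (coefAlg W δ) ≤ (coefAlg W δ).comap iv := by
      refine Algebra.adjoin_le ?_
      rintro s ((⟨⟨i, j⟩, rfl⟩ | ⟨⟨i, j⟩, rfl⟩) | (rfl | rfl))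
      · exact mem2 W δ i j
      · have h2 : iv (fun x => W x⁻¹ i j) = fun x => W x i j := by
          funext x
          rw [iv_apply, inv_inv]
        change iv (fun x => W x⁻¹ i j) ∈ coefAlg W δ
        rw [h2]
        exact mem1 W δ i j
      · exact mem4 W δ
      · have h2 : iv (fun x => δ x⁻¹) = fun x => δ x := by
          funext x
          rw [iv_apply, inv_inv]
        change iv (fun x => δ x⁻¹) ∈ coefAlg W δ
        rw [h2]
        exact mem3 W δ
    exact h1 ha

/-- the matrix of functions with entries in `A` -/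
def matA (A : Subalgebra F (Γ → F)) (W : Γ → Matrix m m F) (h : ∀ i j, (fun x => W x i j) ∈ A) : Matrix m m A :=
  Matrix.of fun i j => ⟨fun x => W x i j, h i j⟩

theorem matA_ev (A : Subalgebra F (Γ → F)) (W : Γ → Matrix m m F) (h : ∀ i j, (fun x => W x i j) ∈ A) (x : Γ) :
    ((ev A x : A →ₐ[F] F) : A →+* F).mapMatrix (matA A W h) = W x := by
  ext i j
  rfl

theorem mapMatrix_aeval {R S : Type*} [CommRing R] [CommRing S] (f : R →+* S) (M : Matrix m m R)
    (p : Polynomial R) :
    f.mapMatrix (Polynomial.aeval M p) = Polynomial.aeval (f.mapMatrix M) (p.map f) := by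
  rw [Polynomial.aeval_def, Polynomial.aeval_def, Polynomial.hom_eval₂, Polynomial.eval₂_map]
  congr 1
  ext r i j
  by_cases hij : i = j <;> simp [Matrix.algebraMap_matrix_apply, hij]

/-- functions with values roots of a monic family are integral -/
theorem integral_of_root {A : Subalgebra F (Γ → F)} (P : Polynomial A) (hP : P.Monic) (f : Γ → F)
    (h : ∀ x, Polynomial.eval (f x) (P.map ((ev A x : A →ₐ[F] F) : A →+* F)) = 0) : IsIntegral A f := by
  refine ⟨P, hP, ?_⟩
  funext x
  have h1 := Polynomial.hom_eval₂ P (algebraMap A (Γ → F)) (Pi.evalRingHom (fun _ : Γ => F) x) f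
  have h2 := h x
  rw [Polynomial.eval_map] at h2
  exact h1.trans h2

/-- a function which is at each point a sum of `N` roots is integral -/
theorem integral_of_sum_roots {A : Subalgebra F (Γ → F)} (P : Polynomial A) (hP : P.Monic) (f : Γ → F) (N : ℕ)
    (h : ∀ x, ∃ μ : Fin N → F, (∀ k, Polynomial.eval (μ k) (P.map ((ev A x : A →ₐ[F] F) : A →+* F)) = 0) ∧
      f x = ∑ k, μ k) : IsIntegral A f := by
  choose μ hμ1 hμ2 using h
  have h1 : f = ∑ k, (fun x => μ x k) := by
    funext x
    rw [hμ2 x, Finset.sum_apply]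
  rw [h1]
  exact IsIntegral.sum _ fun k _ => integral_of_root P hP _ fun x => hμ1 x k

variable {n : Type*} [Fintype n] [DecidableEq n]

/-- a root of the characteristic polynomial of `M` is a root of every polynomial with a power which kills `M` -/
theorem root_of_aeval (M : Matrix n n F) (p : Polynomial F) (k : ℕ) (h : (Polynomial.aeval M p) ^ k = 0)
    (lam : F) (hl : M.charpoly.IsRoot lam) : p.eval lam = 0 := by
  have h2 : Module.End.HasEigenvalue (Matrix.toLin' M) lam := by
    rw [Module.End.hasEigenvalue_iff_isRoot_charpoly, Matrix.charpoly_toLin']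
    exact hl
  obtain ⟨v, hv⟩ := h2.exists_hasEigenvector
  have h3 := Module.End.aeval_apply_of_hasEigenvector (p := p ^ k) hv
  have h4 : Polynomial.aeval (Matrix.toLin' M) (p ^ k) = 0 := by
    rw [← map_pow] at h
    have h6 : Polynomial.aeval (Matrix.toLinAlgEquiv' M) (p ^ k) =
        Matrix.toLinAlgEquiv' (Polynomial.aeval M (p ^ k)) :=
      Polynomial.aeval_algHom_apply
        ((Matrix.toLinAlgEquiv' : Matrix n n F ≃ₐ[F] Module.End F (n → F)) : Matrix n n F →ₐ[F] Module.End F (n → F))
        M (p ^ k)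
    rw [h, map_zero] at h6
    exact h6
  rw [h4, LinearMap.zero_apply] at h3
  rcases smul_eq_zero.mp h3.symm with h5 | h5
  · rw [Polynomial.eval_pow] at h5
    exact eq_zero_of_pow_eq_zero h5
  · exact absurd h5 hv.2

/-- the trace as a sum of roots of the characteristic polynomial -/
theorem trace_sum_roots [IsAlgClosed F] (M : Matrix n n F) :
    ∃ μ : Fin (Fintype.card n) → F, (∀ k, M.charpoly.IsRoot (μ k)) ∧ M.trace = ∑ k, μ k := by
  obtain ⟨L, hL⟩ : ∃ L : List F, (L : Multiset F) = M.charpoly.roots :=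
    ⟨_, Multiset.coe_toList _⟩
  have hcard : L.length = Fintype.card n := by
    rw [← Multiset.coe_card, hL, IsAlgClosed.card_roots_eq_natDegree, Matrix.charpoly_natDegree_eq_dim]
  rw [← hcard]
  refine ⟨fun k => L.get k, fun i => ?_, ?_⟩
  · have h1 : L.get i ∈ M.charpoly.roots := by
      rw [← hL]
      exact Multiset.mem_coe.mpr (List.get_mem _ _)
    rwa [Polynomial.mem_roots (Matrix.charpoly_monic _).ne_zero] at h1
  · rw [Matrix.trace_eq_sum_roots_charpoly, ← hL, Multiset.sum_coe]
    simp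

/-- **Main algebraic theorem, first form.** -/
theorem coeff_mem_one [IsAlgClosed F] [CharZero F] (W : Γ →* Matrix m m F) (δ : Γ →* F) (ρ : Γ →* Matrix n n F)
    (hirr : Irr ρ) (k : ℕ) (h : ∀ x, (Polynomial.aeval (ρ x) (W x).charpoly) ^ k = 0) :
    ∀ i j, (fun x => ρ x i j) ∈ coefAlg W δ := by
  have hA := coefAlg_hopf W δ
  have hWA : ∀ x, (matA (coefAlg W δ) W (mem1 W δ)).charpoly.map
      ((ev (coefAlg W δ) x : coefAlg W δ →ₐ[F] F) : coefAlg W δ →+* F) = (W x).charpoly := by
    intro x
    rw [← Matrix.charpoly_map, ← matA_ev (coefAlg W δ) W (mem1 W δ) x]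
    rfl
  refine coeff_mem hA ρ (coeff_integral hA.comul ρ hirr ?_) ?_
  · -- integrality of the trace
    refine integral_of_sum_roots (matA (coefAlg W δ) W (mem1 W δ)).charpoly (Matrix.charpoly_monic _) _
      (Fintype.card n) fun x => ?_
    rw [hWA x]
    obtain ⟨μ, hμ1, hμ2⟩ := trace_sum_roots (ρ x)
    exact ⟨μ, fun i => root_of_aeval _ _ k (h x) _ (hμ1 i), hμ2⟩
  · intro B hAB hρB y hy
    obtain ⟨WB, hWB⟩ : ∃ WB, WB = matA B W (fun i j => hAB (mem1 W δ i j)) := ⟨_, rfl⟩
    obtain ⟨RB, hRB⟩ : ∃ RB, RB = matA B ρ hρB := ⟨_, rfl⟩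
    have h1 : (Polynomial.aeval RB WB.charpoly) ^ k = 0 := by
      have h2 : ∀ x, ((ev B x : B →ₐ[F] F) : B →+* F).mapMatrix ((Polynomial.aeval RB WB.charpoly) ^ k) = 0 := by
        intro x
        rw [map_pow, mapMatrix_aeval, hRB, matA_ev, ← Matrix.charpoly_map, hWB]
        exact (congrArg (fun M : Matrix m m F => (Polynomial.aeval (ρ x) M.charpoly) ^ k)
          (matA_ev B W _ x)).trans (h x)
      ext i j x
      exact congrFun (congrFun (h2 x) i) j
    have h3 : ((y : B →ₐ[F] F) : B →+* F).mapMatrix ((Polynomial.aeval RB WB.charpoly) ^ k) = 0 := by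
      rw [h1, map_zero]
    have h4 : WB.map ((y : B →ₐ[F] F) : B →+* F) = 1 := by
      ext i j
      rw [hWB]
      have h5 := hy _ (mem1 W δ i j)
      refine h5.trans ?_
      rw [map_one]
    rw [map_pow, mapMatrix_aeval, ← Matrix.charpoly_map, h4, Matrix.charpoly_one, map_pow, map_sub,
      Polynomial.aeval_X, map_one, hRB] at h3
    rw [← pow_mul] at h3
    exact ⟨_, h3⟩

/-- roots of the characteristic polynomial and eigenvectors -/
theorem isRoot_iff (M : Matrix n n F) (lam : F) :
    M.charpoly.IsRoot lam ↔ ∃ v : n → F, v ≠ 0 ∧ M *ᵥ v = lam • v := by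
  rw [← Matrix.charpoly_toLin', ← Module.End.hasEigenvalue_iff_isRoot_charpoly]
  constructor
  · intro h
    obtain ⟨v, hv⟩ := h.exists_hasEigenvector
    refine ⟨v, hv.2, ?_⟩
    have h1 := hv.apply_eq_smul
    rwa [Matrix.toLin'_apply] at h1
  · rintro ⟨v, hv, h⟩
    refine Module.End.hasEigenvalue_of_hasEigenvector (x := v) ⟨?_, hv⟩
    rw [Module.End.mem_eigenspace_iff, Matrix.toLin'_apply, h]

/-- two polynomials with `det q(M) = 0`, `M` with characteristic polynomial `p`, have a common root -/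
theorem common_root [IsAlgClosed F] (M : Matrix n n F) (q : Polynomial F) (h : (Polynomial.aeval M q).det = 0) :
    ∃ lam, M.charpoly.IsRoot lam ∧ q.IsRoot lam := by
  classical
  by_contra hcon
  push Not at hcon
  have h1 : IsCoprime M.charpoly q := by
    rw [← EuclideanDomain.gcd_isUnit_iff]
    by_contra hu
    have h2 : (EuclideanDomain.gcd M.charpoly q).degree ≠ 0 := by
      intro h3
      exact hu (Polynomial.isUnit_iff_degree_eq_zero.mpr h3)
    obtain ⟨z, hz⟩ := IsAlgClosed.exists_root _ h2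
    refine hcon z ?_ ?_
    · exact hz.dvd (EuclideanDomain.gcd_dvd_left _ _)
    · exact hz.dvd (EuclideanDomain.gcd_dvd_right _ _)
  obtain ⟨a, b, hab⟩ := h1
  have h2 := congrArg (Polynomial.aeval M) hab
  rw [map_add, map_mul, map_mul, Matrix.aeval_self_charpoly, mul_zero, zero_add, map_one] at h2
  have h3 := congrArg Matrix.det h2
  rw [Matrix.det_mul, h, mul_zero, Matrix.det_one] at h3
  exact one_ne_zero h3.symm

/-- **Main algebraic theorem, second form.** -/
theorem coeff_mem_two [IsAlgClosed F] [CharZero F] (W : Γ →* Matrix m m F) (δ : Γ →* F)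
    (ρ : Γ →* Matrix (Fin 2) (Fin 2) F) (hdet : ∀ x, (ρ x).det = δ x)
    (hirr : Irr ρ) (h : ∀ x, (Polynomial.aeval (ρ x) (W x).charpoly).det = 0) :
    ∀ i j, (fun x => ρ x i j) ∈ coefAlg W δ := by
  have hA := coefAlg_hopf W δ
  have hWA : ∀ x, (matA (coefAlg W δ) W (mem1 W δ)).charpoly.map
      ((ev (coefAlg W δ) x : coefAlg W δ →ₐ[F] F) : coefAlg W δ →+* F) = (W x).charpoly := by
    intro x
    rw [← Matrix.charpoly_map, ← matA_ev (coefAlg W δ) W (mem1 W δ) x]
    rfl
  have hWA' : ∀ x, (matA (coefAlg W δ) (fun x => W x⁻¹) (mem2 W δ)).charpoly.map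
      ((ev (coefAlg W δ) x : coefAlg W δ →ₐ[F] F) : coefAlg W δ →+* F) = (W x⁻¹).charpoly := by
    intro x
    have h1 := matA_ev (coefAlg W δ) (fun x => W x⁻¹) (mem2 W δ) x
    rw [← Matrix.charpoly_map]
    exact congrArg Matrix.charpoly h1
  have hδ0 : ∀ x, δ x ≠ 0 := fun x h0 => by
    have h1 : δ (x * x⁻¹) = 1 := by rw [mul_inv_cancel, map_one]
    rw [map_mul, h0, zero_mul] at h1
    exact zero_ne_one h1
  refine coeff_mem hA ρ (coeff_integral hA.comul ρ hirr ?_) ?_
  · -- integrality of the trace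
    have h1 : ∀ x, ∃ lam, (ρ x).charpoly.IsRoot lam ∧ (W x).charpoly.IsRoot lam :=
      fun x => common_root _ _ (h x)
    choose lam hl1 hl2 using h1
    have hl0 : ∀ x, lam x ≠ 0 := by
      intro x h0
      obtain ⟨v, hv0, hv⟩ := (isRoot_iff _ _).1 (hl2 x)
      rw [h0, zero_smul] at hv
      apply hv0
      have h2 : (W x⁻¹ * W x) *ᵥ v = 0 := by
        rw [← Matrix.mulVec_mulVec, hv, Matrix.mulVec_zero]
      rwa [← map_mul, inv_mul_cancel, map_one, Matrix.one_mulVec] at h2
    have hl3 : ∀ x, (W x⁻¹).charpoly.IsRoot (lam x)⁻¹ := by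
      intro x
      obtain ⟨v, hv0, hv⟩ := (isRoot_iff _ _).1 (hl2 x)
      refine (isRoot_iff _ _).2 ⟨v, hv0, ?_⟩
      have h2 : (W x⁻¹ * W x) *ᵥ v = v := by
        rw [← map_mul, inv_mul_cancel, map_one, Matrix.one_mulVec]
      rw [← Matrix.mulVec_mulVec, hv, Matrix.mulVec_smul] at h2
      rw [eq_inv_smul_iff₀ (hl0 x)]
      exact h2
    have i1 : IsIntegral (coefAlg W δ) lam := by
      refine integral_of_root (matA (coefAlg W δ) W (mem1 W δ)).charpoly (Matrix.charpoly_monic _) _ fun x => ?_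
      rw [hWA x]
      exact hl2 x
    have i2 : IsIntegral (coefAlg W δ) (fun x => (lam x)⁻¹) := by
      refine integral_of_root (matA (coefAlg W δ) (fun x => W x⁻¹) (mem2 W δ)).charpoly
        (Matrix.charpoly_monic _) _ fun x => ?_
      rw [hWA' x]
      exact hl3 x
    have i3 : IsIntegral (coefAlg W δ) (fun x => δ x) :=
      isIntegral_algebraMap (A := Γ → F) (x := (⟨_, mem3 W δ⟩ : coefAlg W δ))
    have h4 : (fun x => (ρ x).trace) = lam + (fun x => δ x) * (fun x => (lam x)⁻¹) := by
      funext x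
      have h5 := hl1 x
      rw [Matrix.charpoly_fin_two, Polynomial.IsRoot.def] at h5
      simp only [Polynomial.eval_add, Polynomial.eval_sub, Polynomial.eval_pow, Polynomial.eval_X,
        Polynomial.eval_mul, Polynomial.eval_C] at h5
      rw [hdet] at h5
      simp only [Pi.add_apply, Pi.mul_apply]
      have h6 := hl0 x
      field_simp
      linear_combination -h5
    rw [h4]
    exact i1.add (i3.mul i2)
  · intro B hAB hρB y hy
    obtain ⟨WB, hWB⟩ : ∃ WB, WB = matA B W (fun i j => hAB (mem1 W δ i j)) := ⟨_, rfl⟩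
    obtain ⟨RB, hRB⟩ : ∃ RB, RB = matA B ρ hρB := ⟨_, rfl⟩
    obtain ⟨H, hH⟩ : ∃ H, H = ((y : B →ₐ[F] F) : B →+* F).mapMatrix RB := ⟨_, rfl⟩
    have h1 : (Polynomial.aeval RB WB.charpoly).det = 0 := by
      have h2 : ∀ x, ((ev B x : B →ₐ[F] F) : B →+* F) (Polynomial.aeval RB WB.charpoly).det = 0 := by
        intro x
        rw [RingHom.map_det, mapMatrix_aeval, hRB, matA_ev, ← Matrix.charpoly_map, hWB]
        exact (congrArg (fun M : Matrix m m F => (Polynomial.aeval (ρ x) M.charpoly).det)
          (matA_ev B W _ x)).trans (h x)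
      ext x
      exact h2 x
    have h3 : ((y : B →ₐ[F] F) : B →+* F) (Polynomial.aeval RB WB.charpoly).det = 0 := by
      rw [h1, map_zero]
    have h4 : WB.map ((y : B →ₐ[F] F) : B →+* F) = 1 := by
      ext i j
      rw [hWB]
      have h5 := hy _ (mem1 W δ i j)
      refine h5.trans ?_
      rw [map_one]
    rw [RingHom.map_det, mapMatrix_aeval, ← Matrix.charpoly_map, h4, Matrix.charpoly_one, map_pow, map_sub,
      Polynomial.aeval_X, map_one, ← hH, Matrix.det_pow] at h3
    have h5 : (H - 1).det = 0 := eq_zero_of_pow_eq_zero h3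
    have h6 : RB.det = (⟨fun x => δ x, hAB (mem3 W δ)⟩ : B) := by
      ext x
      have h7 := RingHom.map_det ((ev B x : B →ₐ[F] F) : B →+* F) RB
      rw [hRB, matA_ev, hdet] at h7
      rw [hRB]
      exact h7
    have h7 : H.det = 1 := by
      rw [hH, ← RingHom.map_det, h6]
      refine (hy _ (mem3 W δ)).trans ?_
      exact map_one δ
    have h8 : (H - 1) ^ 2 = 0 := by
      rw [Matrix.det_fin_two] at h5 h7
      simp only [Matrix.sub_apply, Matrix.one_apply_eq] at h5
      rw [Matrix.one_apply_ne (by decide), Matrix.one_apply_ne (by decide)] at h5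
      have h9 : H 0 0 + H 1 1 = 2 := by linear_combination h7 - h5
      ext i j
      rw [pow_two, Matrix.mul_apply, Fin.sum_univ_two]
      fin_cases i <;> fin_cases j <;> simp
      · linear_combination H 0 0 * h9 - h7
      · linear_combination H 0 1 * h9
      · linear_combination H 1 0 * h9
      · linear_combination H 1 1 * h9 - h7
    have h9 : (Matrix.of fun i j => y ⟨fun x => ρ x i j, hρB i j⟩) = H := by
      rw [hH, hRB]
      rfl
    rw [h9]
    exact ⟨2, h8⟩

end

end Pool.Agent.H40GO
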