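import Mathlib
import Pool.Agent.H40GO.Coef

/-!
# Subquotients of tensor constructions
-/

set_option autoImplicit false
set_option linter.unusedSectionVars false

namespace Pool.Agent.H40GO

open Module Matrix

section

variable {F : Type*} [Field F] {Γ : Type*} [Group Γ]

/-- `ρ` is a subquotient of `T`: there are a stable subspace `U` of `T` and an equivariant surjection of `U` onto `ρ` -/
def SubQuot {I n : Type*} [Fintype I] [DecidableEq I] [Fintype n] [DecidableEq n]
    (T : Γ →* Matrix I I F) (ρ : Γ →* Matrix n n F) : Prop :=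
  ∃ (U : Submodule F (I → F)) (π : U →ₗ[F] (n → F)), Function.Surjective π ∧
    ∀ (g : Γ) (u : U), ∃ h : T g *ᵥ (u : I → F) ∈ U, π ⟨T g *ᵥ (u : I → F), h⟩ = ρ g *ᵥ π u

/-- the tensor construction `W ^ {⊗ a} ⊗ (W dual) ^ {⊗ b} ⊗ δ ^ c`, in coordinates -/
def tens {m : Type*} [Fintype m] [DecidableEq m] (W : Γ →* Matrix m m F) (δ : Γ →* F) (a b : ℕ) (c : ℤ) :
    Γ →* Matrix ((Fin a → m) × (Fin b → m)) ((Fin a → m) × (Fin b → m)) F where
  toFun g := Matrix.of fun p q => (∏ s, W g (p.1 s) (q.1 s)) * (∏ t, W g⁻¹ (q.2 t) (p.2 t)) * (δ g) ^ c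
  map_one' := by
    ext p q
    rw [Matrix.of_apply, map_one, map_one, _root_.one_zpow, mul_one, inv_one, map_one]
    by_cases h : p = q
    · subst h
      simp
    · rw [Matrix.one_apply_ne h]
      have h1 : p.1 ≠ q.1 ∨ p.2 ≠ q.2 := by
        by_contra hcon
        push Not at hcon
        exact h (Prod.ext hcon.1 hcon.2)
      rcases h1 with h1 | h1
      · obtain ⟨s, hs⟩ := Function.ne_iff.mp h1
        have h2 : (∏ s, (1 : Matrix m m F) (p.1 s) (q.1 s)) = 0 :=
          Finset.prod_eq_zero (Finset.mem_univ s) (Matrix.one_apply_ne hs)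
        exact mul_eq_zero_of_left h2 _
      · obtain ⟨s, hs⟩ := Function.ne_iff.mp h1
        have h2 : (∏ t, (1 : Matrix m m F) (q.2 t) (p.2 t)) = 0 :=
          Finset.prod_eq_zero (Finset.mem_univ s) (Matrix.one_apply_ne (Ne.symm hs))
        exact mul_eq_zero_of_right _ h2
  map_mul' g h := by
    ext p q
    rw [Matrix.of_apply, Matrix.mul_apply, Fintype.sum_prod_type]
    simp only [Matrix.of_apply]
    have h1 : (∏ s, W (g * h) (p.1 s) (q.1 s)) = ∑ k : Fin a → m, (∏ s, W g (p.1 s) (k s)) * ∏ s, W h (k s) (q.1 s) := by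
      simp only [map_mul, Matrix.mul_apply]
      rw [Finset.prod_univ_sum, Fintype.piFinset_univ]
      exact Finset.sum_congr rfl fun k _ => Finset.prod_mul_distrib
    have h2 : (∏ t, W (g * h)⁻¹ (q.2 t) (p.2 t)) =
        ∑ k : Fin b → m, (∏ t, W g⁻¹ (k t) (p.2 t)) * ∏ t, W h⁻¹ (q.2 t) (k t) := by
      simp only [_root_.mul_inv_rev, map_mul, Matrix.mul_apply]
      rw [Finset.prod_univ_sum, Fintype.piFinset_univ]
      refine Finset.sum_congr rfl fun k _ => ?_
      rw [Finset.prod_mul_distrib, mul_comm]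
    rw [h1, h2, map_mul, mul_zpow, Finset.sum_mul_sum, Finset.sum_mul]
    refine Finset.sum_congr rfl fun k _ => ?_
    rw [Finset.sum_mul]
    refine Finset.sum_congr rfl fun l _ => ?_
    ring

/-- construction of a subquotient -/
theorem subQuot_of_map {I n : Type*} [Fintype I] [DecidableEq I] [Fintype n] [DecidableEq n]
    (T : Γ →* Matrix I I F) (ρ : Γ →* Matrix n n F) {M : Type*} [AddCommGroup M] [Module F M]
    (r : Γ → M →ₗ[F] M) (X : Submodule F M) (hX : ∀ g, ∀ x ∈ X, r g x ∈ X)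
    (ψ : (n → F) →ₗ[F] M) (hψ : ∀ g v, r g (ψ v) = ψ (ρ g *ᵥ v))
    (φ : (I → F) →ₗ[F] M) (hφ : ∀ g v, r g (φ v) = φ (T g *ᵥ v))
    (h0 : ∀ v, ψ v ∈ X → v = 0) (h1 : ∀ v, ψ v ∈ LinearMap.range φ ⊔ X) : SubQuot T ρ := by
  have huniq : ∀ (u : I → F) (v v' : n → F), φ u - ψ v ∈ X → φ u - ψ v' ∈ X → v = v' := by
    intro u v v' h h'
    have h2 := X.sub_mem h' h
    have h3 : φ u - ψ v' - (φ u - ψ v) = ψ (v - v') := by
      rw [map_sub]
      abel
    rw [h3] at h2
    exact sub_eq_zero.mp (h0 _ h2)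
  let U : Submodule F (I → F) :=
    { carrier := {u | ∃ v, φ u - ψ v ∈ X}
      add_mem' := by
        rintro u u' ⟨v, hv⟩ ⟨v', hv'⟩
        refine ⟨v + v', ?_⟩
        have h2 := X.add_mem hv hv'
        have h3 : φ u - ψ v + (φ u' - ψ v') = φ (u + u') - ψ (v + v') := by
          rw [map_add, map_add]
          abel
        rwa [h3] at h2
      zero_mem' := ⟨0, by simp⟩
      smul_mem' := by
        rintro c u ⟨v, hv⟩
        refine ⟨c • v, ?_⟩
        have h2 := X.smul_mem c hv
        rwa [smul_sub, ← map_smul, ← map_smul] at h2 }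
  have hU : ∀ u : U, ∃ v, φ (u : I → F) - ψ v ∈ X := fun u => u.2
  choose f hf using hU
  let π : U →ₗ[F] (n → F) :=
    { toFun := f
      map_add' := by
        intro u u'
        refine huniq _ _ _ (hf (u + u')) ?_
        have h2 := X.add_mem (hf u) (hf u')
        have h3 : φ (u : I → F) - ψ (f u) + (φ (u' : I → F) - ψ (f u')) =
            φ ((u + u' : U) : I → F) - ψ (f u + f u') := by
          rw [Submodule.coe_add, map_add, map_add]
          abel
        rwa [h3] at h2
      map_smul' := by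
        intro c u
        refine huniq _ _ _ (hf (c • u)) ?_
        have h2 := X.smul_mem c (hf u)
        rw [smul_sub, ← map_smul, ← map_smul] at h2
        exact h2 }
  refine ⟨U, π, ?_, ?_⟩
  · intro v
    obtain ⟨y, ⟨u, rfl⟩, x, hx, hyx⟩ := Submodule.mem_sup.mp (h1 v)
    have h2 : φ u - ψ v ∈ X := by
      rw [← hyx]
      have h3 : φ u - (φ u + x) = -x := by abel
      rw [h3]
      exact X.neg_mem hx
    exact ⟨⟨u, v, h2⟩, huniq u _ _ (hf ⟨u, v, h2⟩) h2⟩
  · intro g u
    have h2 := hX g _ (hf u)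
    rw [map_sub, hψ, hφ] at h2
    exact ⟨⟨_, h2⟩, huniq _ _ _ (hf ⟨_, ⟨_, h2⟩⟩) h2⟩

/-- **Extraction of a subquotient.** An irreducible representation with matrix coefficients in the span of the matrix
coefficients of the representations `T s` is a subquotient of one of them. -/
theorem subQuot_of_mem {n : Type*} [Fintype n] [DecidableEq n] {ι : Type*} (I : ι → Type*)
    [∀ s, Fintype (I s)] [∀ s, DecidableEq (I s)] (T : ∀ s, Γ →* Matrix (I s) (I s) F)
    (ρ : Γ →* Matrix n n F) (hirr : Irr ρ)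
    (h : ∀ i j, (fun x => ρ x i j) ∈ Submodule.span F {f : Γ → F | ∃ s p q, f = fun x => T s x p q}) :
    ∃ s, SubQuot (T s) ρ := by
  classical
  obtain ⟨⟨i0⟩, hirr⟩ := hirr
  let r : Γ → (Γ → F) →ₗ[F] (Γ → F) := fun g => (rt g : (Γ → F) →ₐ[F] (Γ → F)).toLinearMap
  let ψ : (n → F) →ₗ[F] (Γ → F) :=
    { toFun := fun v x => (ρ x *ᵥ v) i0
      map_add' := fun v w => by
        funext x
        rw [Matrix.mulVec_add]
        rfl
      map_smul' := fun c v => by
        funext x
        rw [Matrix.mulVec_smul]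
        rfl }
  let φ : ∀ j : (Σ s, I s), (I j.1 → F) →ₗ[F] (Γ → F) := fun j =>
    { toFun := fun v x => (T j.1 x *ᵥ v) j.2
      map_add' := fun v w => by
        funext x
        rw [Matrix.mulVec_add]
        rfl
      map_smul' := fun c v => by
        funext x
        rw [Matrix.mulVec_smul]
        rfl }
  have hψ : ∀ g v, r g (ψ v) = ψ (ρ g *ᵥ v) := by
    intro g v
    funext x
    change (ρ (x * g) *ᵥ v) i0 = (ρ x *ᵥ (ρ g *ᵥ v)) i0
    rw [Matrix.mulVec_mulVec, map_mul]
  have hφ : ∀ j g v, r g (φ j v) = φ j (T j.1 g *ᵥ v) := by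
    intro j g v
    funext x
    change (T j.1 (x * g) *ᵥ v) j.2 = (T j.1 x *ᵥ (T j.1 g *ᵥ v)) j.2
    rw [Matrix.mulVec_mulVec, map_mul]
  -- the images
  let X : Finset (Σ s, I s) → Submodule F (Γ → F) := fun S => ⨆ j ∈ S, LinearMap.range (φ j)
  have hX : ∀ S g, ∀ x ∈ X S, r g x ∈ X S := by
    intro S g
    have h1 : X S ≤ (X S).comap (r g) := by
      refine iSup₂_le fun j hj => ?_
      rintro _ ⟨v, rfl⟩
      rw [Submodule.mem_comap, hφ]
      have h2 : LinearMap.range (φ j) ≤ X S := le_iSup₂ (f := fun j (_ : j ∈ S) => LinearMap.range (φ j)) j hj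
      exact h2 ⟨_, rfl⟩
    exact fun x hx => h1 hx
  -- the stable subspaces
  have hstab : ∀ S, (∀ v, ψ v ∈ X S → v = 0) ∨ ∀ v, ψ v ∈ X S := by
    intro S
    rcases hirr ((X S).comap ψ) (fun g u hu => by
      rw [Submodule.mem_comap, ← hψ]
      exact hX S g _ hu) with h1 | h1
    · left
      intro v hv
      have h2 : v ∈ (X S).comap ψ := hv
      rw [h1] at h2
      exact h2
    · right
      intro v
      have h2 : v ∈ (X S).comap ψ := by rw [h1]; trivial
      exact h2
  have key : ∀ S : Finset (Σ s, I s), (∀ v, ψ v ∈ X S) → ∃ s, SubQuot (T s) ρ := by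
    intro S
    induction S using Finset.induction_on with
    | empty =>
      intro h1
      exfalso
      have h2 := h1 (Pi.single i0 1)
      have h3 : X ∅ = ⊥ := by simp [X]
      rw [h3, Submodule.mem_bot] at h2
      have h4 := congrFun h2 1
      change (ρ 1 *ᵥ (Pi.single i0 1)) i0 = 0 at h4
      rw [map_one, Matrix.one_mulVec, Pi.single_eq_same] at h4
      exact one_ne_zero h4
    | insert j S hj ih =>
      intro h1
      rcases hstab S with h2 | h2
      · refine ⟨j.1, subQuot_of_map (T j.1) ρ r (X S) (hX S) ψ hψ (φ j) (hφ j) h2 ?_⟩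
        intro v
        have h3 := h1 v
        have h4 : X (insert j S) = LinearMap.range (φ j) ⊔ X S := by
          simp only [X]
          rw [Finset.iSup_insert]
        rwa [h4] at h3
      · exact ih h2
  -- a finite set
  have hfin : ∀ f ∈ Submodule.span F {f : Γ → F | ∃ s p q, f = fun x => T s x p q}, ∃ S, f ∈ X S := by
    have hmono : ∀ S S', S ⊆ S' → X S ≤ X S' := by
      intro S S' hSS
      exact iSup₂_le fun j hj => le_iSup₂ (f := fun j (_ : j ∈ S') => LinearMap.range (φ j)) j (hSS hj)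
    intro f hf
    induction hf using Submodule.span_induction with
    | mem f hf =>
      obtain ⟨s, p, q, rfl⟩ := hf
      refine ⟨{⟨s, p⟩}, ?_⟩
      have h2 : LinearMap.range (φ ⟨s, p⟩) ≤ X {⟨s, p⟩} :=
        le_iSup₂ (f := fun j (_ : j ∈ ({⟨s, p⟩} : Finset (Σ s, I s))) => LinearMap.range (φ j)) _
          (Finset.mem_singleton_self _)
      apply h2
      refine ⟨Pi.single q 1, ?_⟩
      funext x
      change (T s x *ᵥ (Pi.single q 1)) p = _
      rw [Matrix.mulVec_single_one]
      rfl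
    | zero => exact ⟨∅, Submodule.zero_mem _⟩
    | add f g _ _ hf hg =>
      obtain ⟨S, hS⟩ := hf
      obtain ⟨S', hS'⟩ := hg
      exact ⟨S ∪ S', Submodule.add_mem _ (hmono _ _ Finset.subset_union_left hS)
        (hmono _ _ Finset.subset_union_right hS')⟩
    | smul c f _ hf =>
      obtain ⟨S, hS⟩ := hf
      exact ⟨S, Submodule.smul_mem _ _ hS⟩
  have hfin' : ∃ S, ∀ j, ψ (Pi.single j 1) ∈ X S := by
    have hmono : ∀ S S', S ⊆ S' → X S ≤ X S' := by
      intro S S' hSS
      exact iSup₂_le fun j hj => le_iSup₂ (f := fun j (_ : j ∈ S') => LinearMap.range (φ j)) j (hSS hj)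
    have h1 : ∀ j, ∃ S, ψ (Pi.single j 1) ∈ X S := by
      intro j
      apply hfin
      have h2 : ψ (Pi.single j 1) = fun x => ρ x i0 j := by
        funext x
        change (ρ x *ᵥ (Pi.single j 1)) i0 = _
        rw [Matrix.mulVec_single_one]
        rfl
      rw [h2]
      exact h i0 j
    choose S hS using h1
    exact ⟨Finset.univ.biUnion S, fun j => hmono _ _ (Finset.subset_biUnion_of_mem S (Finset.mem_univ j)) (hS j)⟩
  obtain ⟨S, hS⟩ := hfin'
  refine key S fun v => ?_
  have h1 : v = ∑ j, v j • (Pi.single j 1 : n → F) := by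
    ext k
    simp [Finset.sum_apply, Pi.single_apply]
  rw [h1, map_sum]
  refine Submodule.sum_mem _ fun j _ => ?_
  rw [map_smul]
  exact Submodule.smul_mem _ _ (hS j)

/-- the span of the matrix coefficients of the tensor constructions -/
def tensSpan {m : Type*} [Fintype m] [DecidableEq m] (W : Γ →* Matrix m m F) (δ : Γ →* F) :
    Submodule F (Γ → F) :=
  Submodule.span F {f : Γ → F | ∃ (s : ℕ × ℕ × ℤ) (p q : (Fin s.1 → m) × (Fin s.2.1 → m)),
    f = fun x => tens W δ s.1 s.2.1 s.2.2 x p q}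

theorem char_ne_zero (δ : Γ →* F) (x : Γ) : δ x ≠ 0 := fun h0 => by
  have h1 : δ (x * x⁻¹) = 1 := by rw [mul_inv_cancel, map_one]
  rw [map_mul, h0, zero_mul] at h1
  exact zero_ne_one h1

theorem char_inv (δ : Γ →* F) (x : Γ) : δ x⁻¹ = (δ x)⁻¹ := by
  apply eq_inv_of_mul_eq_one_left
  rw [← map_mul, inv_mul_cancel, map_one]

theorem tensSpan_mul {m : Type*} [Fintype m] [DecidableEq m] (W : Γ →* Matrix m m F) (δ : Γ →* F)
    (f g : Γ → F) (hf : f ∈ tensSpan W δ) (hg : g ∈ tensSpan W δ) : f * g ∈ tensSpan W δ := by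
  induction hf using Submodule.span_induction with
  | mem f hf =>
    obtain ⟨⟨a, b, c⟩, ⟨p1, p2⟩, ⟨q1, q2⟩, rfl⟩ := hf
    induction hg using Submodule.span_induction with
    | mem g hg =>
      obtain ⟨⟨a', b', c'⟩, ⟨p1', p2'⟩, ⟨q1', q2'⟩, rfl⟩ := hg
      apply Submodule.subset_span
      refine ⟨(a + a', b + b', c + c'), (Fin.append p1 p1', Fin.append p2 p2'),
        (Fin.append q1 q1', Fin.append q2 q2'), ?_⟩
      funext x
      simp only [tens, MonoidHom.coe_mk, OneHom.coe_mk, Matrix.of_apply, Pi.mul_apply]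
      rw [Fin.prod_univ_add, Fin.prod_univ_add]
      simp only [Fin.append_left, Fin.append_right]
      rw [zpow_add₀ (char_ne_zero δ x)]
      ring
    | zero => rw [mul_zero]; exact Submodule.zero_mem _
    | add g g' _ _ hg hg' => rw [mul_add]; exact Submodule.add_mem _ hg hg'
    | smul c g _ hg => rw [mul_smul_comm]; exact Submodule.smul_mem _ _ hg
  | zero => rw [zero_mul]; exact Submodule.zero_mem _
  | add f f' _ _ hf hf' => rw [add_mul]; exact Submodule.add_mem _ hf hf'
  | smul c f _ hf => rw [smul_mul_assoc]; exact Submodule.smul_mem _ _ hf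

theorem coefAlg_le_tensSpan {m : Type*} [Fintype m] [DecidableEq m] (W : Γ →* Matrix m m F) (δ : Γ →* F)
    (f : Γ → F) (hf : f ∈ coefAlg W δ) : f ∈ tensSpan W δ := by
  have hone : (1 : Γ → F) ∈ tensSpan W δ := by
    apply Submodule.subset_span
    refine ⟨(0, 0, 0), (Fin.elim0, Fin.elim0), (Fin.elim0, Fin.elim0), ?_⟩
    funext x
    simp [tens]
  induction hf using Algebra.adjoin_induction with
  | mem f hf =>
    apply Submodule.subset_span
    rcases hf with (⟨⟨i, j⟩, rfl⟩ | ⟨⟨i, j⟩, rfl⟩) | (rfl | rfl)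
    · refine ⟨(1, 0, 0), (fun _ => i, Fin.elim0), (fun _ => j, Fin.elim0), ?_⟩
      funext x
      simp [tens]
    · refine ⟨(0, 1, 0), (Fin.elim0, fun _ => j), (Fin.elim0, fun _ => i), ?_⟩
      funext x
      simp [tens]
    · refine ⟨(0, 0, 1), (Fin.elim0, Fin.elim0), (Fin.elim0, Fin.elim0), ?_⟩
      funext x
      simp [tens]
    · refine ⟨(0, 0, -1), (Fin.elim0, Fin.elim0), (Fin.elim0, Fin.elim0), ?_⟩
      funext x
      simp [tens, char_inv]
  | algebraMap c =>
    have h1 : algebraMap F (Γ → F) c = c • (1 : Γ → F) := Algebra.algebraMap_eq_smul_one c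
    rw [h1]
    exact Submodule.smul_mem _ _ hone
  | add f g _ _ hf hg => exact Submodule.add_mem _ hf hg
  | mul f g _ _ hf hg => exact tensSpan_mul W δ f g hf hg

theorem tens_mem {m : Type*} [Fintype m] [DecidableEq m] (W : Γ →* Matrix m m F) (δ : Γ →* F) (a b : ℕ)
    (p q : (Fin a → m) × (Fin b → m)) : (fun x => tens W δ a b 0 x p q) ∈ coefAlg W 1 := by
  have h1 : (fun x => tens W δ a b 0 x p q) =
      (∏ s, (fun x => W x (p.1 s) (q.1 s))) * (∏ t, (fun x => W x⁻¹ (q.2 t) (p.2 t))) := by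
    funext x
    simp [tens, Finset.prod_apply]
  rw [h1]
  exact (coefAlg W 1).mul_mem ((coefAlg W 1).prod_mem fun s _ => mem1 W 1 _ _)
    ((coefAlg W 1).prod_mem fun t _ => mem2 W 1 _ _)

/-- An irreducible representation with coefficients in the algebra of `W` is a subquotient of a tensor construction. -/
theorem subQuot_of_coefAlg {n m : Type*} [Fintype n] [DecidableEq n] [Fintype m] [DecidableEq m]
    (W : Γ →* Matrix m m F) (δ : Γ →* F) (ρ : Γ →* Matrix n n F) (hirr : Irr ρ)
    (h : ∀ i j, (fun x => ρ x i j) ∈ coefAlg W δ) : ∃ a b c, SubQuot (tens W δ a b c) ρ := by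
  obtain ⟨s, hs⟩ := subQuot_of_mem (ι := ℕ × ℕ × ℤ) (fun s => (Fin s.1 → m) × (Fin s.2.1 → m))
    (fun s => tens W δ s.1 s.2.1 s.2.2) ρ hirr (fun i j => coefAlg_le_tensSpan W δ _ (h i j))
  exact ⟨_, _, _, hs⟩

/-- the coefficients of a subquotient are in the span of the coefficients -/
theorem SubQuot.coeff {I n : Type*} [Fintype I] [DecidableEq I] [Fintype n] [DecidableEq n]
    {T : Γ →* Matrix I I F} {ρ : Γ →* Matrix n n F} (h : SubQuot T ρ) (i j : n) :
    ∃ c : I → I → F, ∀ x, ρ x i j = ∑ p, ∑ q, c p q * T x p q := by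
  obtain ⟨U, π, hπ, h⟩ := h
  obtain ⟨u, hu⟩ := hπ (Pi.single j 1)
  obtain ⟨L, hL⟩ := LinearMap.exists_extend ((LinearMap.proj i : (n → F) →ₗ[F] F) ∘ₗ π)
  refine ⟨fun p q => L (Pi.single p 1) * (u : I → F) q, fun x => ?_⟩
  obtain ⟨h1, h2⟩ := h x u
  rw [hu, Matrix.mulVec_single_one] at h2
  have h3 : ρ x i j = L (T x *ᵥ (u : I → F)) := by
    have h4 := congrFun h2 i
    have h5 := congrArg (fun f : U →ₗ[F] F => f ⟨T x *ᵥ (u : I → F), h1⟩) hL
    exact h4.symm.trans h5.symm
  have h6 : T x *ᵥ (u : I → F) = ∑ p, (T x *ᵥ (u : I → F)) p • (Pi.single p 1 : I → F) := by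
    ext k
    simp [Finset.sum_apply, Pi.single_apply]
  rw [h3, h6, map_sum]
  refine Finset.sum_congr rfl fun p _ => ?_
  rw [map_smul, smul_eq_mul, Matrix.mulVec, dotProduct, Finset.sum_mul]
  exact Finset.sum_congr rfl fun q _ => by ring

end

end Pool.Agent.H40GO
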