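import Mathlib
import Pool.Agent.H40GO.Sub

/-!
# Two-dimensional representations sharing an eigenvalue
-/

set_option autoImplicit false
set_option linter.unusedSectionVars false

namespace Pool.Agent.H40GO

open Module Matrix

section

variable {F : Type*} [Field F] {Γ : Type*} [Group Γ] {m : Type*} [Fintype m] [DecidableEq m]

/-- the determinant character -/
def detChar {n : Type*} [Fintype n] [DecidableEq n] (ρ : Γ →* Matrix n n F) : Γ →* F :=
  Matrix.detMonoidHom.comp ρ

theorem detChar_apply {n : Type*} [Fintype n] [DecidableEq n] (ρ : Γ →* Matrix n n F) (x : Γ) :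
    detChar ρ x = (ρ x).det := rfl

/-- **Main algebraic theorem, final form.** A two-dimensional irreducible representation which shares at each element
an eigenvalue with `W` has matrix coefficients in the algebra of `W`. -/
theorem coeff_mem_three [IsAlgClosed F] [CharZero F] (W : Γ →* Matrix m m F)
    (ρ : Γ →* Matrix (Fin 2) (Fin 2) F)
    (hirr : Irr ρ) (h : ∀ x, (Polynomial.aeval (ρ x) (W x).charpoly).det = 0) :
    ∀ i j, (fun x => ρ x i j) ∈ coefAlg W 1 := by
  classical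
  have hA := coefAlg_hopf W 1
  obtain ⟨A, hAdef⟩ : ∃ A, A = coefAlg W 1 := ⟨_, rfl⟩
  have h1 := coeff_mem_two W (detChar ρ) ρ (fun x => rfl) hirr h
  obtain ⟨a, b, c, hsub⟩ := subQuot_of_coefAlg W (detChar ρ) ρ hirr h1
  obtain ⟨δ, hδ⟩ : ∃ δ, δ = detChar ρ := ⟨_, rfl⟩
  rw [← hδ] at hsub h1
  rw [← hAdef] at hA ⊢
  have hδ0 := char_ne_zero δ
  -- the twisted coefficients
  have h2 : ∀ i j, ∃ f ∈ A, ∀ x, ρ x i j = δ x ^ c * f x := by
    intro i j
    obtain ⟨k, hk⟩ := hsub.coeff i j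
    refine ⟨∑ p, ∑ q, k p q • (fun x => tens W δ a b 0 x p q), ?_, ?_⟩
    · refine A.sum_mem fun p _ => A.sum_mem fun q _ => A.smul_mem ?_ _
      rw [hAdef]
      exact tens_mem W δ a b p q
    · intro x
      rw [hk x, Finset.sum_apply, Finset.mul_sum]
      refine Finset.sum_congr rfl fun p _ => ?_
      rw [Finset.sum_apply, Finset.mul_sum]
      refine Finset.sum_congr rfl fun q _ => ?_
      simp only [tens, MonoidHom.coe_mk, OneHom.coe_mk, Matrix.of_apply, Pi.smul_apply, smul_eq_mul, zpow_zero,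
        mul_one]
      ring
  choose f hf hρ using h2
  -- the power of the determinant
  have h3 : (fun x => δ x ^ (1 - 2 * c)) ∈ A := by
    have h4 : (fun x => δ x ^ (1 - 2 * c)) = f 0 0 * f 1 1 - f 0 1 * f 1 0 := by
      funext x
      have h5 : δ x = ρ x 0 0 * ρ x 1 1 - ρ x 0 1 * ρ x 1 0 := by
        rw [hδ, detChar_apply, Matrix.det_fin_two]
      have h6 : δ x ^ (2 * c) * (f 0 0 x * f 1 1 x - f 0 1 x * f 1 0 x) = δ x := by
        conv_rhs => rw [h5, hρ 0 0, hρ 1 1, hρ 0 1, hρ 1 0]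
        rw [two_mul, zpow_add₀ (hδ0 x)]
        ring
      simp only [Pi.sub_apply, Pi.mul_apply]
      have h7 : δ x ^ (1 - 2 * c) = δ x / δ x ^ (2 * c) := by
        rw [zpow_sub₀ (hδ0 x), zpow_one]
      rw [h7, div_eq_iff (zpow_ne_zero _ (hδ0 x)), mul_comm]
      exact h6.symm
    rw [h4]
    exact A.sub_mem (A.mul_mem (hf _ _) (hf _ _)) (A.mul_mem (hf _ _) (hf _ _))
  have h3' : (fun x => δ x ^ (-(1 - 2 * c))) ∈ A := by
    have h4 := hA.inv _ h3
    have h5 : iv (fun x => δ x ^ (1 - 2 * c)) = fun x => δ x ^ (-(1 - 2 * c)) := by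
      funext x
      rw [iv_apply, char_inv, _root_.inv_zpow, _root_.zpow_neg]
    rwa [h5] at h4
  obtain ⟨N, hN0, hN1, hN2⟩ : ∃ N : ℕ, 0 < N ∧ (fun x => δ x ^ N) ∈ A ∧ (fun x => (δ x)⁻¹ ^ N) ∈ A := by
    rcases lt_or_ge (1 - 2 * c) 0 with h4 | h4
    · obtain ⟨N, hN⟩ := Int.eq_ofNat_of_zero_le (show 0 ≤ -(1 - 2 * c) by omega)
      have h5 : 1 - 2 * c = -(N : ℤ) := by omega
      refine ⟨N, by omega, ?_, ?_⟩
      · rw [hN] at h3'
        simpa using h3'
      · rw [h5] at h3
        simpa using h3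
    · obtain ⟨N, hN⟩ := Int.eq_ofNat_of_zero_le h4
      refine ⟨N, by omega, ?_, ?_⟩
      · rw [hN] at h3
        simpa using h3
      · rw [hN] at h3'
        simpa using h3'
  have hi1 : IsIntegral A (fun x => δ x) := by
    refine ⟨Polynomial.X ^ N - Polynomial.C ⟨_, hN1⟩, Polynomial.monic_X_pow_sub_C _ hN0.ne', ?_⟩
    rw [Polynomial.eval₂_sub, Polynomial.eval₂_X_pow, Polynomial.eval₂_C]
    funext x
    exact sub_self _
  have hi2 : IsIntegral A (fun x => (δ x)⁻¹) := by
    refine ⟨Polynomial.X ^ N - Polynomial.C ⟨_, hN2⟩, Polynomial.monic_X_pow_sub_C _ hN0.ne', ?_⟩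
    rw [Polynomial.eval₂_sub, Polynomial.eval₂_X_pow, Polynomial.eval₂_C]
    funext x
    exact sub_self _
  -- integral powers of the determinant
  have hzpow : ∀ B : Subalgebra F (Γ → F), (fun x => δ x) ∈ B → (fun x => (δ x)⁻¹) ∈ B →
      (fun x => δ x ^ c) ∈ B := by
    intro B hB1 hB2
    rcases Int.eq_nat_or_neg c with ⟨k, rfl | rfl⟩
    · have h4 : (fun x => δ x ^ ((k : ℕ) : ℤ)) = (fun x => δ x) ^ k := by
        funext x
        simp
      rw [h4]
      exact B.pow_mem hB1 k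
    · have h4 : (fun x => δ x ^ (-((k : ℕ) : ℤ))) = (fun x => (δ x)⁻¹) ^ k := by
        funext x
        simp
      rw [h4]
      exact B.pow_mem hB2 k
  have hi3 : IsIntegral A (fun x => δ x ^ c) := by
    rcases Int.eq_nat_or_neg c with ⟨k, rfl | rfl⟩
    · have h4 : (fun x => δ x ^ ((k : ℕ) : ℤ)) = (fun x => δ x) ^ k := by
        funext x
        simp
      rw [h4]
      exact hi1.pow k
    · have h4 : (fun x => δ x ^ (-((k : ℕ) : ℤ))) = (fun x => (δ x)⁻¹) ^ k := by
        funext x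
        simp
      rw [h4]
      exact hi2.pow k
  refine coeff_mem hA ρ (coeff_integral hA.comul ρ hirr ?_) ?_
  · have h4 : (fun x => (ρ x).trace) = (fun x => δ x ^ c) * (f 0 0 + f 1 1) := by
      funext x
      rw [Matrix.trace_fin_two, hρ, hρ]
      simp only [Pi.mul_apply, Pi.add_apply]
      ring
    rw [h4]
    refine hi3.mul ?_
    exact isIntegral_algebraMap (A := Γ → F) (x := (⟨_, A.add_mem (hf 0 0) (hf 1 1)⟩ : A))
  · intro B hAB hρB y hy
    have hW : ∀ i j, (fun x => W x i j) ∈ A := by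
      rw [hAdef]
      exact mem1 W 1
    obtain ⟨WB, hWB⟩ : ∃ WB, WB = matA B W (fun i j => hAB (hW i j)) := ⟨_, rfl⟩
    obtain ⟨RB, hRB⟩ : ∃ RB, RB = matA B ρ hρB := ⟨_, rfl⟩
    obtain ⟨H, hH⟩ : ∃ H, H = ((y : B →ₐ[F] F) : B →+* F).mapMatrix RB := ⟨_, rfl⟩
    have h1 : (Polynomial.aeval RB WB.charpoly).det = 0 := by
      have h2 : ∀ x, ((ev B x : B →ₐ[F] F) : B →+* F) (Polynomial.aeval RB WB.charpoly).det = 0 := by
        intro x
        rw [RingHom.map_det, mapMatrix_aeval, hRB, matA_ev, ← Matrix.charpoly_map, hWB]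
        exact (congrArg (fun M : Matrix m m F => (Polynomial.aeval (ρ x) M.charpoly).det)
          (matA_ev B W _ x)).trans (h x)
      ext x
      exact h2 x
    have h3 : ((y : B →ₐ[F] F) : B →+* F) (Polynomial.aeval RB WB.charpoly).det = 0 := by
      rw [h1, map_zero]
    have h4 : WB.map ((y : B →ₐ[F] F) : B →+* F) = 1 := by
      ext i j
      rw [hWB]
      have h5 := hy _ (hW i j)
      refine h5.trans ?_
      rw [map_one]
    rw [RingHom.map_det, mapMatrix_aeval, ← Matrix.charpoly_map, h4, Matrix.charpoly_one, map_pow, map_sub,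
      Polynomial.aeval_X, map_one, ← hH, Matrix.det_pow] at h3
    have h5 : (H - 1).det = 0 := eq_zero_of_pow_eq_zero h3
    -- `H` is a scalar matrix
    have hδB : (fun x => δ x) ∈ B := by
      have h6 : (fun x => δ x) = (fun x => ρ x 0 0) * (fun x => ρ x 1 1) - (fun x => ρ x 0 1) * (fun x => ρ x 1 0) := by
        funext x
        rw [hδ, detChar_apply, Matrix.det_fin_two]
        rfl
      rw [h6]
      exact B.sub_mem (B.mul_mem (hρB _ _) (hρB _ _)) (B.mul_mem (hρB _ _) (hρB _ _))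
    have hδB' : (fun x => (δ x)⁻¹) ∈ B := by
      have h6 : (fun x => (δ x)⁻¹) = (fun x => δ x) ^ (N - 1) * (fun x => (δ x)⁻¹ ^ N) := by
        funext x
        simp only [Pi.mul_apply, Pi.pow_apply]
        obtain ⟨M, rfl⟩ := Nat.exists_eq_succ_of_ne_zero hN0.ne'
        rw [Nat.succ_sub_one, pow_succ, ← mul_assoc, ← mul_pow, mul_inv_cancel₀ (hδ0 x), one_pow, one_mul]
      rw [h6]
      exact B.mul_mem (B.pow_mem hδB _) (hAB hN2)
    have hδc := hzpow B hδB hδB'
    obtain ⟨s, hs⟩ : ∃ s, s = y ⟨_, hδc⟩ := ⟨_, rfl⟩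
    have h6 : H = s • 1 := by
      ext i j
      have h7 : H i j = y ⟨fun x => ρ x i j, hρB i j⟩ := by
        rw [hH, hRB]
        rfl
      have h8 : (⟨fun x => ρ x i j, hρB i j⟩ : B) = ⟨_, hδc⟩ * ⟨f i j, hAB (hf i j)⟩ := by
        apply Subtype.ext
        funext x
        exact hρ i j x
      rw [h7, h8, map_mul, ← hs, hy _ (hf i j), Matrix.smul_apply, smul_eq_mul]
      congr 1
      have h9 := hρ i j 1
      rw [map_one, map_one, _root_.one_zpow, one_mul] at h9
      exact h9.symm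
    have h7 : s = 1 := by
      rw [h6, Matrix.det_fin_two] at h5
      simp at h5
      exact sub_eq_zero.mp h5
    have h9 : (Matrix.of fun i j => y ⟨fun x => ρ x i j, hρB i j⟩) = H := by
      rw [hH, hRB]
      rfl
    rw [h9, h6, h7, one_smul, sub_self]
    exact IsNilpotent.zero

/-- A two-dimensional irreducible representation which shares at each element an eigenvalue with `W` is a subquotient of
a tensor construction. -/
theorem subQuot_three [IsAlgClosed F] [CharZero F] (W : Γ →* Matrix m m F)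
    (ρ : Γ →* Matrix (Fin 2) (Fin 2) F)
    (hirr : Irr ρ) (h : ∀ x, (Polynomial.aeval (ρ x) (W x).charpoly).det = 0) :
    ∃ a b, SubQuot (tens W 1 a b 0) ρ := by
  obtain ⟨a, b, c, h1⟩ := subQuot_of_coefAlg W 1 ρ hirr (coeff_mem_three W ρ hirr h)
  refine ⟨a, b, ?_⟩
  have h2 : tens W (1 : Γ →* F) a b c = tens W (1 : Γ →* F) a b 0 := by
    ext x p q
    simp [tens, _root_.one_zpow]
  rwa [h2] at h1

/-- The general case, with all eigenvalues. -/
theorem subQuot_general {n : Type*} [Fintype n] [DecidableEq n] [IsAlgClosed F] [CharZero F] (W : Γ →* Matrix m m F)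
    (ρ : Γ →* Matrix n n F)
    (hirr : Irr ρ) (k : ℕ) (h : ∀ x, (Polynomial.aeval (ρ x) (W x).charpoly) ^ k = 0) :
    ∃ a b, SubQuot (tens W 1 a b 0) ρ := by
  obtain ⟨a, b, c, h1⟩ := subQuot_of_coefAlg W 1 ρ hirr (coeff_mem_one W 1 ρ hirr k h)
  refine ⟨a, b, ?_⟩
  have h2 : tens W (1 : Γ →* F) a b c = tens W (1 : Γ →* F) a b 0 := by
    ext x p q
    simp [tens, _root_.one_zpow]
  rwa [h2] at h1

end

end Pool.Agent.H40GO
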