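import Mathlib
import Pool.Agent.H40GO.Two
import Pool.Agent.Y773.AB.Cheb
import Pool.Agent.W401.Cheb.Frob

/-!
# Chebotarev's theorem and closed sets of the absolute Galois group
-/

set_option autoImplicit false
set_option linter.unusedSectionVars false

namespace Pool.Agent.H40GO

open NumberField IsDedekindDomain Filter Topology Pool.Agent.W401.Cheb

section

variable {K : Type} [Field K] [NumberField K]

/-- `S` has upper natural density one -/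
def UpperOne (S : Set (HeightOneSpectrum (𝓞 K))) : Prop :=
  ∀ ε : ℝ, 0 < ε → ∃ᶠ N : ℕ in atTop,
    (1 - ε) * (Nat.card {v : HeightOneSpectrum (𝓞 K) // Ideal.absNorm v.asIdeal ≤ N} : ℝ) ≤
      (Nat.card {v : HeightOneSpectrum (𝓞 K) // Ideal.absNorm v.asIdeal ≤ N ∧ v ∈ S} : ℝ)

theorem card_eq (P : HeightOneSpectrum (𝓞 K) → Prop) (N : ℕ) :
    Nat.card {v : HeightOneSpectrum (𝓞 K) // Ideal.absNorm v.asIdeal ≤ N ∧ P v} =
      {v : HeightOneSpectrum (𝓞 K) | Ideal.absNorm v.asIdeal ≤ N ∧ P v}.ncard := rfl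

theorem fin_le (P : HeightOneSpectrum (𝓞 K) → Prop) (N : ℕ) :
    {v : HeightOneSpectrum (𝓞 K) | Ideal.absNorm v.asIdeal ≤ N ∧ P v}.Finite :=
  (Pool.Agent.W352.ChAbs.finite_le N).subset fun _ hv => hv.1

/-- the number of primes of `K` of norm at most `N` is asymptotic to the number of rational primes up to `N` -/
theorem all_dens : Tendsto (fun N : ℕ =>
    (Nat.card {v : HeightOneSpectrum (𝓞 K) // Ideal.absNorm v.asIdeal ≤ N} : ℝ) /
      (Nat.primeCounting N : ℝ)) atTop (𝓝 1) := by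
  have h1 := Pool.Agent.Y773.AB.chebK K (⊤ : Subgroup (GK K)) isOpen_univ Set.univ (fun _ _ _ => trivial)
    (fun _ _ _ _ => trivial)
  have h2 : ((((QuotientGroup.mk : GK K → GK K ⧸ (⊤ : Subgroup (GK K))) '' Set.univ).ncard : ℝ) /
      (Nat.card (GK K ⧸ (⊤ : Subgroup (GK K))) : ℝ)) = 1 := by
    rw [Set.image_univ, Set.range_eq_univ.mpr (QuotientGroup.mk_surjective), Set.ncard_univ]
    refine div_self ?_
    rw [Nat.cast_ne_zero]
    exact Nat.card_pos.ne'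
  rw [h2] at h1
  refine h1.congr fun N => ?_
  unfold dens
  congr 2
  refine Nat.card_congr (Equiv.subtypeEquivRight fun v => ?_)
  constructor
  · exact fun h => h.1
  · intro h
    obtain ⟨τ, hτ⟩ := Pool.Agent.W401.Frob.exists_frob v
    exact ⟨h, τ, trivial, hτ⟩

/-- **Chebotarev's theorem** for closed sets -/
theorem all_of_density (Z : Set (GK K)) (hZ : IsClosed Z) (hconj : ∀ σ ∈ Z, ∀ τ : GK K, τ * σ * τ⁻¹ ∈ Z)
    (S T : Set (HeightOneSpectrum (𝓞 K))) (hS : UpperOne S) (hT : T.Finite)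
    (h : ∀ v ∈ S, v ∉ T → ∀ σ, IsFrob v σ → σ ∈ Z) (σ : GK K) : σ ∈ Z := by
  classical
  by_contra hσ
  -- an open normal subgroup
  have hnhds : {u : GK K | σ * u ∈ Zᶜ} ∈ 𝓝 (1 : GK K) := by
    have h1 : IsOpen {u : GK K | σ * u ∈ Zᶜ} := hZ.isOpen_compl.preimage (continuous_const_mul σ)
    refine h1.mem_nhds ?_
    change σ * 1 ∈ Zᶜ
    rw [mul_one]
    exact hσ
  rw [krullTopology_mem_nhds_one_iff_of_normal] at hnhds
  obtain ⟨L, hL1, hL2, hL⟩ := hnhds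
  obtain ⟨U, hUdef⟩ : ∃ U : Subgroup (GK K), U = L.fixingSubgroup := ⟨_, rfl⟩
  have hUo : IsOpen (U : Set (GK K)) := by
    rw [hUdef]
    exact IntermediateField.fixingSubgroup_isOpen L
  have hgal : IsGalois K L := ⟨⟩
  have hUn : U.Normal := by
    rw [hUdef]
    exact IsGalois.fixingSubgroup_normal_of_isGalois L
  rw [← hUdef] at hL
  -- the set
  let C : Set (GK K) := {x | ∃ τ : GK K, ∃ u ∈ U, x = τ * σ * τ⁻¹ * u}
  have hC1 : ∀ x ∈ C, ∀ τ : GK K, τ * x * τ⁻¹ ∈ C := by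
    rintro x ⟨ν, u, hu, rfl⟩ τ
    refine ⟨τ * ν, τ * u * τ⁻¹, hUn.conj_mem u hu τ, ?_⟩
    group
  have hC2 : ∀ x ∈ C, ∀ u ∈ U, x * u ∈ C := by
    rintro x ⟨ν, u, hu, rfl⟩ u' hu'
    exact ⟨ν, u * u', U.mul_mem hu hu', by group⟩
  have hCZ : ∀ x ∈ C, x ∉ Z := by
    rintro x ⟨τ, u, hu, rfl⟩ hx
    have h1 := hconj _ hx τ⁻¹
    have h2 : τ⁻¹ * (τ * σ * τ⁻¹ * u) * τ⁻¹⁻¹ = σ * (τ⁻¹ * u * τ⁻¹⁻¹) := by group
    rw [h2] at h1
    exact hL (hUn.conj_mem u hu τ⁻¹) h1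
  have hfin : Finite (GK K ⧸ U) := Subgroup.quotient_finite_of_isOpen U hUo
  obtain ⟨c, hc, hc0⟩ : ∃ c : ℝ, c = ((((QuotientGroup.mk : GK K → GK K ⧸ U) '' C).ncard : ℝ) /
      (Nat.card (GK K ⧸ U) : ℝ)) ∧ 0 < c := by
    refine ⟨_, rfl, ?_⟩
    apply div_pos
    · rw [Nat.cast_pos, Set.ncard_pos (Set.toFinite _)]
      exact ⟨_, σ, ⟨1, 1, U.one_mem, by group⟩, rfl⟩
    · rw [Nat.cast_pos]
      exact Nat.card_pos
  have hch := Pool.Agent.Y773.AB.chebK K U hUo C hC1 hC2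
  rw [← hc] at hch
  -- all primes
  have hall := all_dens (K := K)
  have hconst := Pool.Agent.W352.ChAbs.const_div_pi (T.ncard : ℝ)
  -- the contradiction
  have hev : ∀ᶠ N : ℕ in atTop, c / 2 < dens (fun v : HeightOneSpectrum (𝓞 K) => ∃ x ∈ C, IsFrob v x) N :=
    hch.eventually (lt_mem_nhds (by linarith))
  have hev2 : ∀ᶠ N : ℕ in atTop, (Nat.card {v : HeightOneSpectrum (𝓞 K) // Ideal.absNorm v.asIdeal ≤ N} : ℝ) /
      (Nat.primeCounting N : ℝ) < 2 := hall.eventually (gt_mem_nhds (by norm_num))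
  have hev3 : ∀ᶠ N : ℕ in atTop, (T.ncard : ℝ) / (Nat.primeCounting N : ℝ) < c / 8 :=
    hconst.eventually (gt_mem_nhds (by positivity))
  have hev4 : ∀ᶠ N : ℕ in atTop, (0 : ℝ) < Nat.primeCounting N := by
    have h1 : Tendsto (fun N : ℕ => (Nat.primeCounting N : ℝ)) atTop atTop :=
      tendsto_natCast_atTop_atTop.comp Nat.tendsto_primeCounting
    exact h1.eventually (eventually_gt_atTop 0)
  obtain ⟨N, hN1, hN2, hN3, hN4, hN5⟩ := ((hS (c / 8) (by positivity)).and_eventually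
    (hev.and (hev2.and (hev3.and hev4)))).exists
  -- counting
  have hcount : {v : HeightOneSpectrum (𝓞 K) | Ideal.absNorm v.asIdeal ≤ N ∧ ∃ x ∈ C, IsFrob v x}.ncard +
      {v : HeightOneSpectrum (𝓞 K) | Ideal.absNorm v.asIdeal ≤ N ∧ v ∈ S}.ncard ≤
      {v : HeightOneSpectrum (𝓞 K) | Ideal.absNorm v.asIdeal ≤ N}.ncard + T.ncard := by
    have h1 : {v : HeightOneSpectrum (𝓞 K) | Ideal.absNorm v.asIdeal ≤ N ∧ ∃ x ∈ C, IsFrob v x} ∩
        {v : HeightOneSpectrum (𝓞 K) | Ideal.absNorm v.asIdeal ≤ N ∧ v ∈ S} ⊆ T := by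
      rintro v ⟨⟨_, x, hx, hvx⟩, _, hvS⟩
      by_contra hvT
      exact hCZ x hx (h v hvS hvT x hvx)
    have h2 : {v : HeightOneSpectrum (𝓞 K) | Ideal.absNorm v.asIdeal ≤ N ∧ ∃ x ∈ C, IsFrob v x} ∪
        {v : HeightOneSpectrum (𝓞 K) | Ideal.absNorm v.asIdeal ≤ N ∧ v ∈ S} ⊆
        {v : HeightOneSpectrum (𝓞 K) | Ideal.absNorm v.asIdeal ≤ N} := by
      rintro v (hv | hv)
      · exact hv.1
      · exact hv.1
    have h3 := Set.ncard_union_add_ncard_inter _ _ (fin_le (fun v => ∃ x ∈ C, IsFrob v x) N)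
      (fin_le (fun v => v ∈ S) N)
    rw [← h3]
    exact Nat.add_le_add (Set.ncard_le_ncard h2 (Pool.Agent.W352.ChAbs.finite_le N))
      (Set.ncard_le_ncard h1 hT)
  have hcount' : (Nat.card {v : HeightOneSpectrum (𝓞 K) // Ideal.absNorm v.asIdeal ≤ N ∧ ∃ x ∈ C, IsFrob v x} : ℝ) +
      (Nat.card {v : HeightOneSpectrum (𝓞 K) // Ideal.absNorm v.asIdeal ≤ N ∧ v ∈ S} : ℝ) ≤
      (Nat.card {v : HeightOneSpectrum (𝓞 K) // Ideal.absNorm v.asIdeal ≤ N} : ℝ) + (T.ncard : ℝ) := by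
    exact_mod_cast hcount
  unfold dens at hN2
  rw [lt_div_iff₀ hN5] at hN2
  rw [div_lt_iff₀ hN5] at hN3 hN4
  nlinarith

end

end Pool.Agent.H40GO
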