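import Mathlib
import Pool.Agent.H40GO.Gal

/-!
# Two-dimensional Galois representations sharing Frobenius eigenvalues with a given representation
-/

set_option autoImplicit false
set_option linter.unusedSectionVars false

namespace Pool.Agent.H40GO

open NumberField IsDedekindDomain Filter Topology Pool.Agent.W401.Cheb Matrix

section

variable {F : Type*} [Field F]

/-- `det q(M) = 0` means that `q` has a common factor with the characteristic polynomial of `M` -/
theorem det_aeval_iff [IsAlgClosed F] {n : Type*} [Fintype n] [DecidableEq n] (M : Matrix n n F) (q : Polynomial F) :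
    (Polynomial.aeval M q).det = 0 ↔ ¬ IsCoprime M.charpoly q := by
  constructor
  · intro h hc
    obtain ⟨a, b, hab⟩ := hc
    have h2 := congrArg (Polynomial.aeval M) hab
    rw [map_add, map_mul, map_mul, Matrix.aeval_self_charpoly, mul_zero, zero_add, map_one] at h2
    have h3 := congrArg Matrix.det h2
    rw [Matrix.det_mul, h, mul_zero, Matrix.det_one] at h3
    exact one_ne_zero h3.symm
  · intro h
    by_contra h0
    apply h
    classical
    rw [← EuclideanDomain.gcd_isUnit_iff]
    by_contra hu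
    have h2 : (EuclideanDomain.gcd M.charpoly q).degree ≠ 0 := by
      intro h3
      exact hu (Polynomial.isUnit_iff_degree_eq_zero.mpr h3)
    obtain ⟨z, hz⟩ := IsAlgClosed.exists_root _ h2
    have hz1 : M.charpoly.IsRoot z := hz.dvd (EuclideanDomain.gcd_dvd_left _ _)
    have hz2 : q.IsRoot z := hz.dvd (EuclideanDomain.gcd_dvd_right _ _)
    have h4 : Module.End.HasEigenvalue (Matrix.toLin' M) z := by
      rw [Module.End.hasEigenvalue_iff_isRoot_charpoly, Matrix.charpoly_toLin']
      exact hz1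
    obtain ⟨v, hv⟩ := h4.exists_hasEigenvector
    have h5 := Module.End.aeval_apply_of_hasEigenvector (p := q) hv
    have h6 : Polynomial.aeval (Matrix.toLinAlgEquiv' M) q =
        Matrix.toLinAlgEquiv' (Polynomial.aeval M q) :=
      Polynomial.aeval_algHom_apply
        ((Matrix.toLinAlgEquiv' : Matrix n n F ≃ₐ[F] Module.End F (n → F)) : Matrix n n F →ₐ[F] Module.End F (n → F))
        M q
    have h7 : Polynomial.aeval (Matrix.toLin' M) q = Matrix.toLin' (Polynomial.aeval M q) := h6
    rw [h7, hz2.eq_zero, zero_smul, Matrix.toLin'_apply] at h5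
    exact h0 (Matrix.exists_mulVec_eq_zero_iff.mp ⟨v, hv.2, h5⟩)

/-- the characteristic polynomial is constant on conjugacy classes -/
theorem charpoly_conj {Γ : Type*} [Group Γ] {n : Type*} [Fintype n] [DecidableEq n] (V : Γ →* Matrix n n F)
    (σ τ : Γ) : (V (τ * σ * τ⁻¹)).charpoly = (V σ).charpoly := by
  have h1 := Matrix.charpoly_units_conj ((Units.map (V : Γ →* Matrix n n F)) (toUnits τ)) (V σ)
  have h2 : V (τ * σ * τ⁻¹) = (((Units.map (V : Γ →* Matrix n n F)) (toUnits τ) : (Matrix n n F)ˣ) : Matrix n n F) *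
      V σ * ((((Units.map (V : Γ →* Matrix n n F)) (toUnits τ))⁻¹ : (Matrix n n F)ˣ) : Matrix n n F) := by
    rw [map_mul, map_mul]
    rfl
  rw [h2, Matrix.coe_units_inv]
  exact h1

/-- polynomials and subquotients -/
theorem SubQuot.aeval {Γ : Type*} [Group Γ] {I n : Type*} [Fintype I] [DecidableEq I] [Fintype n] [DecidableEq n]
    {T : Γ →* Matrix I I F} {ρ : Γ →* Matrix n n F} (h : SubQuot T ρ) (σ : Γ) :
    Polynomial.aeval (ρ σ) (T σ).charpoly = 0 := by
  obtain ⟨U, π, hπ, h⟩ := h
  have key : ∀ p : Polynomial F, ∀ u : U, ∃ h : (Polynomial.aeval (T σ) p) *ᵥ (u : I → F) ∈ U,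
      π ⟨(Polynomial.aeval (T σ) p) *ᵥ (u : I → F), h⟩ = (Polynomial.aeval (ρ σ) p) *ᵥ π u := by
    intro p
    induction p using Polynomial.induction_on' with
    | add p q hp hq =>
      intro u
      obtain ⟨hp1, hp2⟩ := hp u
      obtain ⟨hq1, hq2⟩ := hq u
      have h1 : (Polynomial.aeval (T σ) (p + q)) *ᵥ (u : I → F) =
          (Polynomial.aeval (T σ) p) *ᵥ (u : I → F) + (Polynomial.aeval (T σ) q) *ᵥ (u : I → F) := by
        rw [map_add, Matrix.add_mulVec]
      have h2 : (Polynomial.aeval (T σ) (p + q)) *ᵥ (u : I → F) ∈ U := by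
        rw [h1]
        exact U.add_mem hp1 hq1
      refine ⟨h2, ?_⟩
      have h3 : (⟨_, h2⟩ : U) = ⟨_, hp1⟩ + ⟨_, hq1⟩ := Subtype.ext h1
      rw [h3, map_add, hp2, hq2, map_add, Matrix.add_mulVec]
    | monomial k a =>
      intro u
      obtain ⟨h1, h2⟩ := h (σ ^ k) u
      have h3 : (Polynomial.aeval (T σ) (Polynomial.monomial k a)) *ᵥ (u : I → F) =
          a • (T (σ ^ k) *ᵥ (u : I → F)) := by
        rw [Polynomial.aeval_monomial, map_pow, Algebra.algebraMap_eq_smul_one, smul_mul_assoc, one_mul,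
          Matrix.smul_mulVec]
      have h4 : (Polynomial.aeval (T σ) (Polynomial.monomial k a)) *ᵥ (u : I → F) ∈ U := by
        rw [h3]
        exact U.smul_mem _ h1
      refine ⟨h4, ?_⟩
      have h5 : (⟨_, h4⟩ : U) = a • ⟨_, h1⟩ := Subtype.ext h3
      rw [h5, map_smul, h2, Polynomial.aeval_monomial, map_pow, Algebra.algebraMap_eq_smul_one, smul_mul_assoc,
        one_mul, Matrix.smul_mulVec]
  have h1 : ∀ w : n → F, (Polynomial.aeval (ρ σ) (T σ).charpoly) *ᵥ w = 0 := by
    intro w
    obtain ⟨u, rfl⟩ := hπ w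
    obtain ⟨h2, h3⟩ := key (T σ).charpoly u
    rw [← h3]
    have h4 : (⟨_, h2⟩ : U) = 0 := by
      apply Subtype.ext
      change (Polynomial.aeval (T σ) (T σ).charpoly) *ᵥ (u : I → F) = 0
      rw [Matrix.aeval_self_charpoly, Matrix.zero_mulVec]
    rw [h4, map_zero]
  ext i j
  have h2 := congrFun (h1 (Pi.single j 1)) i
  rw [Matrix.mulVec_single_one] at h2
  exact h2

/-- continuity of the determinant of `q(M)` for `q` the characteristic polynomial of another matrix -/
theorem continuous_det_aeval [TopologicalSpace F] [IsTopologicalRing F] {X : Type*} [TopologicalSpace X]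
    {n m : Type*} [Fintype n] [DecidableEq n] [Fintype m] [DecidableEq m] (R : X → Matrix n n F)
    (W : X → Matrix m m F) (hR : Continuous R) (hW : Continuous W) :
    Continuous fun x => (Polynomial.aeval (R x) (W x).charpoly).det := by
  have hcoeff : ∀ i, Continuous fun x => (W x).charpoly.coeff i := by
    intro i
    have h1 : (fun x => (W x).charpoly.coeff i) = fun x => MvPolynomial.eval (fun p : m × m => W x p.1 p.2)
        ((Matrix.charpoly.univ F m).coeff i) := by
      funext x
      have h2 := Matrix.charpoly.univ_coeff_eval₂Hom m (RingHom.id F) (fun p : m × m => W x p.1 p.2) i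
      exact h2.symm
    rw [h1]
    refine (MvPolynomial.continuous_eval _).comp ?_
    exact continuous_pi fun p => hW.matrix_elem p.1 p.2
  have h2 : (fun x => (Polynomial.aeval (R x) (W x).charpoly).det) = fun x =>
      (∑ i ∈ Finset.range (Fintype.card m + 1), (W x).charpoly.coeff i • (R x) ^ i).det := by
    funext x
    rw [Polynomial.aeval_eq_sum_range' (n := Fintype.card m + 1)]
    rw [Matrix.charpoly_natDegree_eq_dim]
    exact Nat.lt_succ_self _
  rw [h2]
  refine Continuous.matrix_det ?_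
  exact continuous_finsetSum _ fun i _ => (hcoeff i).smul (hR.pow i)

end

section

variable {K : Type} [Field K] [NumberField K] {E : Type*} [Field E] {F : Type*} [Field F] [TopologicalSpace F]
  [IsTopologicalRing F] [T1Space F]

/-- for all but finitely many primes `v` the Frobenius elements at `v` have characteristic polynomial `ι (P v)` -/
def FrobPoly (P : HeightOneSpectrum (𝓞 K) → Polynomial E) (ι : E →+* F) {n : ℕ}
    (V : GK K →* Matrix (Fin n) (Fin n) F) : Prop :=
  {v | ¬ ∀ σ : GK K, IsFrob v σ → (V σ).charpoly = (P v).map ι}.Finite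

theorem main_density [IsAlgClosed F] [CharZero F] (P Q : HeightOneSpectrum (𝓞 K) → Polynomial E)
    (h : UpperOne {v | ¬ IsCoprime (P v) (Q v)}) (ι : E →+* F) (N : ℕ)
    (V : GK K →* Matrix (Fin N) (Fin N) F) (ρ : GK K →* Matrix (Fin 2) (Fin 2) F)
    (hV : Continuous V) (hρ : Continuous ρ) (hP : FrobPoly P ι V) (hQ : FrobPoly Q ι ρ) (hirr : Irr ρ) :
    ∃ a b, SubQuot (tens V 1 a b 0) ρ := by
  refine subQuot_three V ρ hirr ?_
  refine all_of_density {σ | (Polynomial.aeval (ρ σ) (V σ).charpoly).det = 0} ?_ ?_ _ _ h (hP.union hQ) ?_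
  · exact isClosed_singleton.preimage (continuous_det_aeval ρ V hρ hV)
  · intro σ hσ τ
    rw [Set.mem_ofPred_eq, det_aeval_iff] at hσ ⊢
    rwa [charpoly_conj, charpoly_conj]
  · intro v hv hT σ hσ
    rw [Set.mem_ofPred_eq, det_aeval_iff]
    have h1 : (V σ).charpoly = (P v).map ι := by
      by_contra hcon
      exact hT (Or.inl fun h1 => hcon (h1 σ hσ))
    have h2 : (ρ σ).charpoly = (Q v).map ι := by
      by_contra hcon
      exact hT (Or.inr fun h1 => hcon (h1 σ hσ))
    rw [h1, h2, Polynomial.isCoprime_map]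
    exact fun h3 => hv h3.symm

/-- a subquotient at one prime gives common roots at almost all primes -/
theorem common_of_subQuot [IsAlgClosed F] (P Q : HeightOneSpectrum (𝓞 K) → Polynomial E) (ι : E →+* F) (N : ℕ)
    (V : GK K →* Matrix (Fin N) (Fin N) F) (ρ : GK K →* Matrix (Fin 2) (Fin 2) F)
    (hP : FrobPoly P ι V) (hQ : FrobPoly Q ι ρ) (hsub : SubQuot V ρ) :
    {v | ¬ ¬ IsCoprime (P v) (Q v)}.Finite := by
  refine (hP.union hQ).subset ?_
  intro v hv
  by_contra hT
  obtain ⟨σ, hσ⟩ := Pool.Agent.W401.Frob.exists_frob v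
  have h1 : (V σ).charpoly = (P v).map ι := by
    by_contra hcon
    exact hT (Or.inl fun h1 => hcon (h1 σ hσ))
  have h2 : (ρ σ).charpoly = (Q v).map ι := by
    by_contra hcon
    exact hT (Or.inr fun h1 => hcon (h1 σ hσ))
  apply hv
  intro hc
  have h3 := hsub.aeval σ
  have h4 : (Polynomial.aeval (ρ σ) (V σ).charpoly).det = 0 := by
    rw [h3, Matrix.det_zero]
  rw [det_aeval_iff, h1, h2, Polynomial.isCoprime_map] at h4
  exact h4 hc.symm

/-- a set with finite complement has upper density one -/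
theorem upperOne_of_finite (S : Set (HeightOneSpectrum (𝓞 K))) (hS : {v | ¬ v ∈ S}.Finite) : UpperOne S := by
  intro ε hε
  apply Eventually.frequently
  have h1 : Tendsto (fun N : ℕ => (Nat.card {v : HeightOneSpectrum (𝓞 K) // Ideal.absNorm v.asIdeal ≤ N} : ℝ))
      atTop atTop := by
    have h3 : Tendsto (fun N : ℕ => (Nat.primeCounting N : ℝ)) atTop atTop :=
      tendsto_natCast_atTop_atTop.comp Nat.tendsto_primeCounting
    have h4 := (all_dens (K := K)).pos_mul_atTop one_pos h3
    refine h4.congr' ?_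
    filter_upwards [h3.eventually (eventually_gt_atTop 0)] with N hN
    exact div_mul_cancel₀ _ hN.ne'
  filter_upwards [h1.eventually (eventually_ge_atTop (({v | ¬ v ∈ S}.ncard : ℝ) / ε))] with N hN
  rw [div_le_iff₀ hε] at hN
  have h2 : {v : HeightOneSpectrum (𝓞 K) | Ideal.absNorm v.asIdeal ≤ N}.ncard ≤
      {v : HeightOneSpectrum (𝓞 K) | Ideal.absNorm v.asIdeal ≤ N ∧ v ∈ S}.ncard + {v | ¬ v ∈ S}.ncard := by
    have h3 : {v : HeightOneSpectrum (𝓞 K) | Ideal.absNorm v.asIdeal ≤ N} ⊆
        {v : HeightOneSpectrum (𝓞 K) | Ideal.absNorm v.asIdeal ≤ N ∧ v ∈ S} ∪ {v | ¬ v ∈ S} := by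
      intro v hv
      by_cases hvS : v ∈ S
      · exact Or.inl ⟨hv, hvS⟩
      · exact Or.inr hvS
    exact (Set.ncard_le_ncard h3 ((fin_le (fun v => v ∈ S) N).union hS)).trans (Set.ncard_union_le _ _)
  have h2' : (Nat.card {v : HeightOneSpectrum (𝓞 K) // Ideal.absNorm v.asIdeal ≤ N} : ℝ) ≤
      (Nat.card {v : HeightOneSpectrum (𝓞 K) // Ideal.absNorm v.asIdeal ≤ N ∧ v ∈ S} : ℝ) +
        ({v | ¬ v ∈ S}.ncard : ℝ) := by
    exact_mod_cast h2
  linarith

end

end Pool.Agent.H40GO
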