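import Mathlib
import Pool.Agent.H40GO.Main

/-!
# Eigenvalues of tensor constructions
-/

set_option autoImplicit false
set_option linter.unusedSectionVars false

namespace Pool.Agent.H40GO

open Module Matrix

section

variable {F : Type*} [Field F]

/-- eigenvalues of a matrix -/
def Eig {n : Type*} [Fintype n] (M : Matrix n n F) (lam : F) : Prop := ∃ v : n → F, v ≠ 0 ∧ M *ᵥ v = lam • v

theorem eig_iff {n : Type*} [Fintype n] [DecidableEq n] (M : Matrix n n F) (lam : F) :
    M.charpoly.IsRoot lam ↔ Eig M lam := isRoot_iff M lam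

theorem eig_transpose {n : Type*} [Fintype n] [DecidableEq n] (M : Matrix n n F) (lam : F) :
    Eig Mᵀ lam ↔ Eig M lam := by
  rw [← eig_iff, ← eig_iff, Matrix.charpoly_transpose]

theorem eig_submatrix {m n : Type*} [Fintype m] [Fintype n] [DecidableEq m] [DecidableEq n] (e : m ≃ n)
    (M : Matrix n n F) (lam : F) : Eig (M.submatrix e e) lam ↔ Eig M lam := by
  have h : (M.submatrix e e) = Matrix.reindex e.symm e.symm M := rfl
  rw [← eig_iff, ← eig_iff, h, Matrix.charpoly_reindex]

theorem kron_mulVec {m n : Type*} [Fintype m] [Fintype n] (A : Matrix m m F) (B : Matrix n n F)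
    (w : m × n → F) (i : m) (j : n) :
    (Matrix.kroneckerMap (· * ·) A B *ᵥ w) (i, j) = ∑ k, A i k * ∑ l, B j l * w (k, l) := by
  rw [Matrix.mulVec, dotProduct, Fintype.sum_prod_type]
  refine Finset.sum_congr rfl fun k _ => ?_
  rw [Finset.mul_sum]
  refine Finset.sum_congr rfl fun l _ => ?_
  rw [Matrix.kroneckerMap_apply]
  ring

/-- the eigenvalues of a Kronecker product -/
theorem eig_kron [IsAlgClosed F] {m n : Type*} [Fintype m] [Fintype n] [DecidableEq m] [DecidableEq n]
    (A A' : Matrix m m F) (hA : A' * A = 1) (B : Matrix n n F) (mu : F) :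
    Eig (Matrix.kroneckerMap (· * ·) A B) mu ↔ ∃ al be, Eig A al ∧ Eig B be ∧ mu = al * be := by
  classical
  constructor
  · rintro ⟨w, hw0, hw⟩
    -- the eigenspace
    obtain ⟨S, hS⟩ : ∃ S : Submodule F (m × n → F), ∀ w, w ∈ S ↔ Matrix.kroneckerMap (· * ·) A B *ᵥ w = mu • w := by
      refine ⟨Module.End.eigenspace (Matrix.toLin' (Matrix.kroneckerMap (· * ·) A B)) mu, fun w => ?_⟩
      rw [Module.End.mem_eigenspace_iff, Matrix.toLin'_apply]
    -- the operator
    let f : (m × n → F) →ₗ[F] (m × n → F) :=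
      { toFun := fun w p => ∑ k, A p.1 k * w (k, p.2)
        map_add' := fun u v => by
          funext p
          simp [mul_add, Finset.sum_add_distrib]
        map_smul' := fun c u => by
          funext p
          simp only [Pi.smul_apply, smul_eq_mul, RingHom.id_apply, Finset.mul_sum]
          exact Finset.sum_congr rfl fun k _ => by ring }
    have hf : ∀ w p, f w p = ∑ k, A p.1 k * w (k, p.2) := fun _ _ => rfl
    have hfS : ∀ w ∈ S, f w ∈ S := by
      intro w hw
      rw [hS] at hw ⊢
      funext ⟨i, j⟩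
      rw [kron_mulVec]
      simp only [hf, Pi.smul_apply, smul_eq_mul]
      have h1 : ∀ k, (∑ x, A k x * ∑ l, B j l * w (x, l)) = mu * w (k, j) := by
        intro k
        have h2 := congrFun hw (k, j)
        rw [kron_mulVec] at h2
        exact h2
      have h3 : ∀ k, (∑ l, B j l * ∑ x, A k x * w (x, l)) = mu * w (k, j) := by
        intro k
        rw [← h1 k]
        simp only [Finset.mul_sum]
        rw [Finset.sum_comm]
        exact Finset.sum_congr rfl fun x _ => Finset.sum_congr rfl fun l _ => by ring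
      rw [Finset.mul_sum]
      refine Finset.sum_congr rfl fun k _ => ?_
      rw [h3 k]
      ring
    have hnt : Nontrivial S := ⟨⟨w, (hS w).2 hw⟩, 0, fun h => hw0 (congrArg Subtype.val h)⟩
    obtain ⟨al, hal⟩ := Module.End.exists_eigenvalue (f.restrict hfS)
    obtain ⟨⟨u, huS⟩, hu⟩ := hal.exists_hasEigenvector
    have hu0 : u ≠ 0 := fun h => hu.2 (Subtype.ext h)
    have hu1 : f u = al • u := congrArg Subtype.val hu.apply_eq_smul
    have hu2 := (hS u).1 huS
    obtain ⟨⟨i0, j0⟩, hij⟩ : ∃ p, u p ≠ 0 := by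
      by_contra hcon
      push Not at hcon
      exact hu0 (funext hcon)
    have hal0 : al ≠ 0 := by
      intro h0
      rw [h0, zero_smul] at hu1
      apply hij
      have h1 : (A' * A) *ᵥ (fun k => u (k, j0)) = 0 := by
        rw [← Matrix.mulVec_mulVec]
        have h2 : A *ᵥ (fun k => u (k, j0)) = 0 := by
          funext i
          exact congrFun hu1 (i, j0)
        rw [h2, Matrix.mulVec_zero]
      rw [hA, Matrix.one_mulVec] at h1
      exact congrFun h1 i0
    have hu3 : ∀ i j, (∑ l, B j l * u (i, l)) = mu / al * u (i, j) := by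
      intro i j
      have h1 := congrFun hu2 (i, j)
      rw [kron_mulVec] at h1
      simp only [Pi.smul_apply, smul_eq_mul] at h1
      have h2 : (∑ k, A i k * ∑ l, B j l * u (k, l)) = ∑ l, B j l * ∑ k, A i k * u (k, l) := by
        simp only [Finset.mul_sum]
        rw [Finset.sum_comm]
        exact Finset.sum_congr rfl fun x _ => Finset.sum_congr rfl fun l _ => by ring
      have h3 : ∀ l, (∑ k, A i k * u (k, l)) = al * u (i, l) := fun l => congrFun hu1 (i, l)
      rw [h2] at h1
      simp only [h3] at h1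
      have h4 : (∑ l, B j l * (al * u (i, l))) = al * ∑ l, B j l * u (i, l) := by
        rw [Finset.mul_sum]
        exact Finset.sum_congr rfl fun l _ => by ring
      rw [h4] at h1
      rw [div_mul_eq_mul_div, eq_div_iff hal0, mul_comm]
      exact h1
    refine ⟨al, mu / al, ⟨fun k => u (k, j0), ?_, ?_⟩, ⟨fun l => u (i0, l), ?_, ?_⟩, (mul_div_cancel₀ _ hal0).symm⟩
    · intro h
      exact hij (congrFun h i0)
    · funext i
      exact congrFun hu1 (i, j0)
    · intro h
      exact hij (congrFun h j0)
    · funext j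
      exact hu3 i0 j
  · rintro ⟨al, be, ⟨v, hv0, hv⟩, ⟨u, hu0, hu⟩, rfl⟩
    obtain ⟨i0, hi⟩ : ∃ p, v p ≠ 0 := by
      by_contra hcon
      push Not at hcon
      exact hv0 (funext hcon)
    obtain ⟨j0, hj⟩ : ∃ p, u p ≠ 0 := by
      by_contra hcon
      push Not at hcon
      exact hu0 (funext hcon)
    refine ⟨fun p => v p.1 * u p.2, fun h => mul_ne_zero hi hj (congrFun h (i0, j0)), ?_⟩
    funext ⟨i, j⟩
    rw [kron_mulVec]
    have h1 : ∀ k, (∑ l, B j l * (v k * u l)) = v k * (be * u j) := by
      intro k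
      have h2 : (∑ l, B j l * u l) = be * u j := congrFun hu j
      rw [← h2, Finset.mul_sum]
      exact Finset.sum_congr rfl fun l _ => by ring
    simp only [h1, Pi.smul_apply, smul_eq_mul]
    have h2 : (∑ k, A i k * v k) = al * v i := congrFun hv i
    have h3 : (∑ k, A i k * (v k * (be * u j))) = (∑ k, A i k * v k) * (be * u j) := by
      rw [Finset.sum_mul]
      exact Finset.sum_congr rfl fun k _ => by ring
    rw [h3, h2]
    ring

variable {Γ : Type*} [Group Γ] {m : Type*} [Fintype m] [DecidableEq m]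

theorem eig_inv (V : Γ →* Matrix m m F) (g : Γ) (lam : F) : Eig (V g⁻¹) lam ↔ ∃ mu, Eig (V g) mu ∧ lam * mu = 1 := by
  have key : ∀ (g : Γ) (lam : F), Eig (V g⁻¹) lam → ∃ mu, Eig (V g) mu ∧ lam * mu = 1 := by
    rintro g lam ⟨v, hv0, hv⟩
    have h1 : (V g * V g⁻¹) *ᵥ v = v := by
      rw [← map_mul, mul_inv_cancel, map_one, Matrix.one_mulVec]
    rw [← Matrix.mulVec_mulVec, hv, Matrix.mulVec_smul] at h1
    have h0 : lam ≠ 0 := by
      intro h0
      rw [h0, zero_smul] at h1
      exact hv0 h1.symm
    refine ⟨lam⁻¹, ⟨v, hv0, ?_⟩, mul_inv_cancel₀ h0⟩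
    rw [eq_inv_smul_iff₀ h0]
    exact h1
  constructor
  · exact key g lam
  · rintro ⟨mu, h, hmu⟩
    have h1 := key g⁻¹ mu (by rwa [inv_inv])
    obtain ⟨nu, h2, h3⟩ := h1
    have h4 : nu = lam := by
      have h5 : mu ≠ 0 := right_ne_zero_of_mul_eq_one hmu
      apply mul_left_cancel₀ h5
      rw [h3, mul_comm, hmu]
    rwa [h4] at h2

/-- **The eigenvalues of a tensor construction.** -/
theorem eig_tens [IsAlgClosed F] (V : Γ →* Matrix m m F) (g : Γ) (a b : ℕ) (mu : F) :
    Eig (tens V 1 a b 0 g) mu ↔ ∃ (al : Fin a → F) (be : Fin b → F), (∀ s, Eig (V g) (al s)) ∧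
      (∀ t, Eig (V g) (be t)) ∧ mu * ∏ t, be t = ∏ s, al s := by
  induction a generalizing mu with
  | zero =>
    induction b generalizing mu with
    | zero =>
      constructor
      · rintro ⟨v, hv0, hv⟩
        refine ⟨Fin.elim0, Fin.elim0, fun s => s.elim0, fun t => t.elim0, ?_⟩
        rw [Finset.univ_eq_empty, Finset.prod_empty, mul_one]
        have h1 : tens V (1 : Γ →* F) 0 0 0 g = 1 := by
          ext p q
          rw [Subsingleton.elim p q, Matrix.one_apply_eq]
          simp [tens]
        rw [h1, Matrix.one_mulVec] at hv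
        obtain ⟨p, hp⟩ : ∃ p, v p ≠ 0 := by
          by_contra hcon
          push Not at hcon
          exact hv0 (funext hcon)
        have h2 := congrFun hv p
        rw [Pi.smul_apply, smul_eq_mul] at h2
        have h3 : (mu - 1) * v p = 0 := by
          rw [sub_mul, one_mul, ← h2, sub_self]
        rcases mul_eq_zero.mp h3 with h4 | h4
        · exact sub_eq_zero.mp h4
        · exact absurd h4 hp
      · rintro ⟨al, be, -, -, h⟩
        have h : mu = 1 := by simpa using h
        have h1 : tens V (1 : Γ →* F) 0 0 0 g = 1 := by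
          ext p q
          rw [Subsingleton.elim p q, Matrix.one_apply_eq]
          simp [tens]
        rw [h1, h]
        refine ⟨fun _ => 1, ?_, by rw [Matrix.one_mulVec, one_smul]⟩
        intro h2
        exact one_ne_zero (congrFun h2 (Fin.elim0, Fin.elim0))
    | succ b ih =>
      -- split off one dual factor
      let e : ((Fin 0 → m) × (Fin (b + 1) → m)) ≃ m × ((Fin 0 → m) × (Fin b → m)) :=
        { toFun := fun p => (p.2 0, (p.1, Fin.tail p.2))
          invFun := fun p => (p.2.1, Fin.cons p.1 p.2.2)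
          left_inv := fun p => by simp
          right_inv := fun p => by simp }
      have h1 : tens V (1 : Γ →* F) 0 (b + 1) 0 g =
          (Matrix.kroneckerMap (· * ·) (V g⁻¹)ᵀ (tens V 1 0 b 0 g)).submatrix e e := by
        ext p q
        simp [tens, e, Fin.prod_univ_succ, Fin.tail]
      have hA : (V g)ᵀ * (V g⁻¹)ᵀ = 1 := by
        rw [← Matrix.transpose_mul, ← map_mul, inv_mul_cancel, map_one, Matrix.transpose_one]
      rw [h1, eig_submatrix, eig_kron _ _ hA]
      constructor
      · rintro ⟨al, be, hal, hbe, rfl⟩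
        rw [eig_transpose, eig_inv] at hal
        obtain ⟨nu, hnu, hnu'⟩ := hal
        obtain ⟨al', be', h2, h3, h4⟩ := (ih be).1 hbe
        refine ⟨al', Fin.cons nu be', h2, ?_, ?_⟩
        · intro t
          refine Fin.cases ?_ (fun t => ?_) t
          · rw [Fin.cons_zero]; exact hnu
          · rw [Fin.cons_succ]; exact h3 t
        · rw [Fin.prod_cons, ← h4]
          linear_combination (be * ∏ t, be' t) * hnu'
      · rintro ⟨al, be, h2, h3, h4⟩
        have h5 := (eig_inv V g⁻¹ (be 0)).1 (by rw [inv_inv]; exact h3 0)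
        obtain ⟨nu, hnu, hnu'⟩ := h5
        refine ⟨nu, mu * be 0, ?_, ?_, ?_⟩
        · rw [eig_transpose]
          exact hnu
        · rw [ih]
          refine ⟨al, fun t => be t.succ, h2, fun t => h3 _, ?_⟩
          rw [← h4, Fin.prod_univ_succ]
          ring
        · linear_combination (-mu) * hnu'
  | succ a ih =>
    let e : ((Fin (a + 1) → m) × (Fin b → m)) ≃ m × ((Fin a → m) × (Fin b → m)) :=
      { toFun := fun p => (p.1 0, (Fin.tail p.1, p.2))
        invFun := fun p => (Fin.cons p.1 p.2.1, p.2.2)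
        left_inv := fun p => by simp
        right_inv := fun p => by simp }
    have h1 : tens V (1 : Γ →* F) (a + 1) b 0 g =
        (Matrix.kroneckerMap (· * ·) (V g) (tens V 1 a b 0 g)).submatrix e e := by
      ext p q
      simp [tens, e, Fin.prod_univ_succ, Fin.tail, mul_assoc]
    have hA : V g⁻¹ * V g = 1 := by
      rw [← map_mul, inv_mul_cancel, map_one]
    rw [h1, eig_submatrix, eig_kron _ _ hA]
    constructor
    · rintro ⟨al, be, hal, hbe, rfl⟩
      obtain ⟨al', be', h2, h3, h4⟩ := (ih be).1 hbe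
      refine ⟨Fin.cons al al', be', ?_, h3, ?_⟩
      · intro t
        refine Fin.cases ?_ (fun t => ?_) t
        · rw [Fin.cons_zero]; exact hal
        · rw [Fin.cons_succ]; exact h2 t
      · rw [Fin.prod_cons, ← h4]
        ring
    · rintro ⟨al, be, h2, h3, h4⟩
      have h5 := (eig_inv V g⁻¹ (al 0)).1 (by rw [inv_inv]; exact h2 0)
      obtain ⟨nu, hnu, hnu'⟩ := h5
      refine ⟨al 0, mu * nu, h2 0, ?_, ?_⟩
      · rw [ih]
        refine ⟨fun t => al t.succ, be, fun t => h2 _, h3, ?_⟩
        rw [Fin.prod_univ_succ] at h4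
        linear_combination nu * h4 + (∏ t : Fin a, al t.succ) * hnu'
      · linear_combination (-mu) * hnu'

end

end Pool.Agent.H40GO
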