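import Mathlib
import Pool.Agent.H40GO.Kron

/-!
# Independence of the prime
-/

set_option autoImplicit false
set_option linter.unusedSectionVars false

namespace Pool.Agent.H40GO

open NumberField IsDedekindDomain Filter Topology Pool.Agent.W401.Cheb Matrix

section

variable {F : Type*} [Field F]

theorem pow_aeval_eq_zero [IsAlgClosed F] {n : Type*} [Fintype n] [DecidableEq n] (M : Matrix n n F)
    (p : Polynomial F) (h : ∀ x, M.charpoly.IsRoot x → p.IsRoot x) :
    (Polynomial.aeval M p) ^ Fintype.card n = 0 := by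
  have h1 : M.charpoly ∣ p ^ Fintype.card n := by
    have h2 : M.charpoly = (M.charpoly.roots.map fun x => Polynomial.X - Polynomial.C x).prod :=
      (IsAlgClosed.splits M.charpoly).eq_prod_roots_of_monic (Matrix.charpoly_monic M)
    have h3 : Multiset.card M.charpoly.roots = Fintype.card n := by
      rw [IsAlgClosed.card_roots_eq_natDegree, Matrix.charpoly_natDegree_eq_dim]
    have h4 : (M.charpoly.roots.map fun _ => p).prod = p ^ Fintype.card n := by
      rw [Multiset.map_const', Multiset.prod_replicate, h3]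
    rw [h2, ← h4]
    apply Multiset.prod_dvd_prod_of_dvd
    intro x hx
    rw [Polynomial.mem_roots (Matrix.charpoly_monic M).ne_zero] at hx
    exact Polynomial.dvd_iff_isRoot.mpr (h x hx)
  obtain ⟨q, hq⟩ := h1
  rw [← map_pow, hq, map_mul, Matrix.aeval_self_charpoly, zero_mul]

variable {Γ : Type*} [Group Γ] {m : Type*} [Fintype m] [DecidableEq m]

theorem coefAlg_tens_le (V : Γ →* Matrix m m F) (a b : ℕ) : coefAlg (tens V 1 a b 0) 1 ≤ coefAlg V 1 := by
  refine Algebra.adjoin_le ?_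
  rintro s ((⟨⟨i, j⟩, rfl⟩ | ⟨⟨i, j⟩, rfl⟩) | (rfl | rfl))
  · exact tens_mem V 1 a b i j
  · exact (coefAlg_hopf V 1).inv _ (tens_mem V 1 a b i j)
  · exact mem3 V 1
  · exact mem4 V 1

/-- The general case, with all eigenvalues products of eigenvalues. -/
theorem subQuot_tens {n : Type*} [Fintype n] [DecidableEq n] [IsAlgClosed F] [CharZero F] (V : Γ →* Matrix m m F)
    (ρ : Γ →* Matrix n n F) (hirr : Irr ρ) (a b k : ℕ)
    (h : ∀ x, (Polynomial.aeval (ρ x) (tens V 1 a b 0 x).charpoly) ^ k = 0) :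
    ∃ a' b', SubQuot (tens V 1 a' b' 0) ρ := by
  have h0 := coeff_mem_one (tens V 1 a b 0) 1 ρ hirr k h
  obtain ⟨a', b', c, h1⟩ := subQuot_of_coefAlg V 1 ρ hirr (fun i j => coefAlg_tens_le V a b (h0 i j))
  refine ⟨a', b', ?_⟩
  have h2 : tens V (1 : Γ →* F) a' b' c = tens V (1 : Γ →* F) a' b' 0 := by
    ext x p q
    simp [tens, _root_.one_zpow]
  rwa [h2] at h1

/-- transfer of multiplicative relations between roots -/
theorem transfer {E F₀ F : Type*} [Field E] [Field F₀] [Field F] [IsAlgClosed F₀] [IsAlgClosed F]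
    (ι₀ : E →+* F₀) (ι : E →+* F) (P Q : Polynomial E) (hP : P.Monic) (hQ : Q.Monic) (a b : ℕ)
    (h : ∀ x, (Q.map ι₀).IsRoot x → ∃ (al : Fin a → F₀) (be : Fin b → F₀), (∀ s, (P.map ι₀).IsRoot (al s)) ∧
      (∀ t, (P.map ι₀).IsRoot (be t)) ∧ x * ∏ t, be t = ∏ s, al s) :
    ∀ x, (Q.map ι).IsRoot x → ∃ (al : Fin a → F) (be : Fin b → F), (∀ s, (P.map ι).IsRoot (al s)) ∧
      (∀ t, (P.map ι).IsRoot (be t)) ∧ x * ∏ t, be t = ∏ s, al s := by
  obtain ⟨j, hj⟩ : ∃ j : AlgebraicClosure E →+* F, j.comp (algebraMap E (AlgebraicClosure E)) = ι := by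
    let _ := ι.toAlgebra
    exact ⟨(IsAlgClosed.lift : AlgebraicClosure E →ₐ[E] F), (IsAlgClosed.lift : AlgebraicClosure E →ₐ[E] F).comp_algebraMap⟩
  obtain ⟨j₀, hj₀⟩ : ∃ j₀ : AlgebraicClosure E →+* F₀, j₀.comp (algebraMap E (AlgebraicClosure E)) = ι₀ := by
    let _ := ι₀.toAlgebra
    exact ⟨(IsAlgClosed.lift : AlgebraicClosure E →ₐ[E] F₀), (IsAlgClosed.lift : AlgebraicClosure E →ₐ[E] F₀).comp_algebraMap⟩
  obtain ⟨P', hP'⟩ : ∃ P', P' = P.map (algebraMap E (AlgebraicClosure E)) := ⟨_, rfl⟩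
  obtain ⟨Q', hQ'⟩ : ∃ Q', Q' = Q.map (algebraMap E (AlgebraicClosure E)) := ⟨_, rfl⟩
  have e1 : P.map ι = P'.map j := by rw [hP', Polynomial.map_map, hj]
  have e2 : Q.map ι = Q'.map j := by rw [hQ', Polynomial.map_map, hj]
  have e3 : P.map ι₀ = P'.map j₀ := by rw [hP', Polynomial.map_map, hj₀]
  have e4 : Q.map ι₀ = Q'.map j₀ := by rw [hQ', Polynomial.map_map, hj₀]
  have hP'm : P'.Monic := by rw [hP']; exact hP.map _
  have hQ'm : Q'.Monic := by rw [hQ']; exact hQ.map _
  rw [e3, e4] at h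
  rw [e1, e2]
  -- roots are images
  have hroot : ∀ (p : Polynomial (AlgebraicClosure E)),
      p.Monic → ∀ x, (p.map j).IsRoot x → ∃ y, p.IsRoot y ∧ j y = x := by
    intro p hp x hx
    have h1 : x ∈ (p.map j).roots := (Polynomial.mem_roots (hp.map j).ne_zero).mpr hx
    rw [(IsAlgClosed.splits p).roots_map j, Multiset.mem_map] at h1
    obtain ⟨y, hy, rfl⟩ := h1
    exact ⟨y, (Polynomial.mem_roots hp.ne_zero).mp hy, rfl⟩
  have hroot₀ : ∀ (p : Polynomial (AlgebraicClosure E)),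
      p.Monic → ∀ x, (p.map j₀).IsRoot x → ∃ y, p.IsRoot y ∧ j₀ y = x := by
    intro p hp x hx
    have h1 : x ∈ (p.map j₀).roots := (Polynomial.mem_roots (hp.map j₀).ne_zero).mpr hx
    rw [(IsAlgClosed.splits p).roots_map j₀, Multiset.mem_map] at h1
    obtain ⟨y, hy, rfl⟩ := h1
    exact ⟨y, (Polynomial.mem_roots hp.ne_zero).mp hy, rfl⟩
  intro x hx
  obtain ⟨y, hy, rfl⟩ := hroot Q' hQ'm x hx
  obtain ⟨al, be, h1, h2, h3⟩ := h (j₀ y) (hy.map)
  choose al' hal1 hal2 using fun s => hroot₀ P' hP'm (al s) (h1 s)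
  choose be' hbe1 hbe2 using fun s => hroot₀ P' hP'm (be s) (h2 s)
  refine ⟨fun s => j (al' s), fun t => j (be' t), fun s => (hal1 s).map, fun t => (hbe1 t).map, ?_⟩
  have h4 : y * ∏ t, be' t = ∏ s, al' s := by
    apply j₀.injective
    rw [map_mul, map_prod, map_prod]
    simp only [hal2, hbe2]
    exact h3
  rw [← map_prod, ← map_prod, ← map_mul, h4]

end

section

variable {K : Type} [Field K] [NumberField K] {E : Type*} [Field E] {F F₀ : Type*} [Field F] [TopologicalSpace F]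
  [IsTopologicalRing F] [T2Space F] [Field F₀]

theorem continuous_aeval_pow {X : Type*} [TopologicalSpace X]
    {n m : Type*} [Fintype n] [DecidableEq n] [Fintype m] [DecidableEq m] (R : X → Matrix n n F)
    (W : X → Matrix m m F) (hR : Continuous R) (hW : Continuous W) (k : ℕ) :
    Continuous fun x => (Polynomial.aeval (R x) (W x).charpoly) ^ k := by
  have hcoeff : ∀ i, Continuous fun x => (W x).charpoly.coeff i := by
    intro i
    have h1 : (fun x => (W x).charpoly.coeff i) = fun x => MvPolynomial.eval (fun p : m × m => W x p.1 p.2)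
        ((Matrix.charpoly.univ F m).coeff i) := by
      funext x
      have h2 := Matrix.charpoly.univ_coeff_eval₂Hom m (RingHom.id F) (fun p : m × m => W x p.1 p.2) i
      exact h2.symm
    rw [h1]
    refine (MvPolynomial.continuous_eval _).comp ?_
    exact continuous_pi fun p => hW.matrix_elem p.1 p.2
  have h2 : (fun x => (Polynomial.aeval (R x) (W x).charpoly) ^ k) = fun x =>
      (∑ i ∈ Finset.range (Fintype.card m + 1), (W x).charpoly.coeff i • (R x) ^ i) ^ k := by
    funext x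
    rw [Polynomial.aeval_eq_sum_range' (n := Fintype.card m + 1)]
    rw [Matrix.charpoly_natDegree_eq_dim]
    exact Nat.lt_succ_self _
  rw [h2]
  refine Continuous.pow ?_ k
  exact continuous_finsetSum _ fun i _ => (hcoeff i).smul (hR.pow i)

theorem continuous_tens {Γ : Type*} [Group Γ] [TopologicalSpace Γ] [ContinuousInv Γ] {m : Type*} [Fintype m]
    [DecidableEq m] (V : Γ →* Matrix m m F) (hV : Continuous V) (a b : ℕ) : Continuous (tens V 1 a b 0) := by
  refine continuous_matrix fun p q => ?_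
  have h1 : (fun g => tens V (1 : Γ →* F) a b 0 g p q) =
      fun g => (∏ s, V g (p.1 s) (q.1 s)) * ∏ t, V g⁻¹ (q.2 t) (p.2 t) := by
    funext g
    simp [tens]
  rw [h1]
  refine Continuous.mul ?_ ?_
  · exact continuous_finsetProd _ fun s _ => hV.matrix_elem _ _
  · exact continuous_finsetProd _ fun t _ => (hV.comp continuous_inv).matrix_elem _ _

/-- **Independence of the prime.** -/
theorem main_indep [IsAlgClosed F] [CharZero F] [IsAlgClosed F₀] (P Q : HeightOneSpectrum (𝓞 K) → Polynomial E)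
    (ι₀ : E →+* F₀) (N₀ n₀ : ℕ) (V₀ : GK K →* Matrix (Fin N₀) (Fin N₀) F₀) (ρ₀ : GK K →* Matrix (Fin n₀) (Fin n₀) F₀)
    (hP₀ : {v | ¬ ∀ σ : GK K, IsFrob v σ → (V₀ σ).charpoly = (P v).map ι₀}.Finite)
    (hQ₀ : {v | ¬ ∀ σ : GK K, IsFrob v σ → (ρ₀ σ).charpoly = (Q v).map ι₀}.Finite)
    (a b : ℕ) (h₀ : SubQuot (tens V₀ 1 a b 0) ρ₀)
    (ι : E →+* F) (N n : ℕ) (V : GK K →* Matrix (Fin N) (Fin N) F) (ρ : GK K →* Matrix (Fin n) (Fin n) F)
    (hV : Continuous V) (hρ : Continuous ρ) (hP : FrobPoly P ι V) (hQ : FrobPoly Q ι ρ) (hirr : Irr ρ) :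
    ∃ a b, SubQuot (tens V 1 a b 0) ρ := by
  refine subQuot_tens V ρ hirr a b n ?_
  have hW := continuous_tens V hV a b
  have hiff : ∀ σ, (Polynomial.aeval (ρ σ) (tens V 1 a b 0 σ).charpoly) ^ n = 0 ↔
      ∀ x, (ρ σ).charpoly.IsRoot x → (tens V 1 a b 0 σ).charpoly.IsRoot x := by
    intro σ
    constructor
    · intro h x hx
      exact root_of_aeval _ _ n h x hx
    · intro h
      have h1 := pow_aeval_eq_zero (ρ σ) _ h
      rwa [Fintype.card_fin] at h1
  refine all_of_density {σ | (Polynomial.aeval (ρ σ) (tens V 1 a b 0 σ).charpoly) ^ n = 0} ?_ ?_ Set.univ _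
    (upperOne_of_finite _ (by simp)) ((hP₀.union hQ₀).union (hP.union hQ)) ?_
  · exact isClosed_singleton.preimage (continuous_aeval_pow ρ _ hρ hW n)
  · intro σ hσ τ
    rw [Set.mem_ofPred_eq, hiff] at hσ ⊢
    rwa [charpoly_conj, charpoly_conj]
  · intro v _ hT σ hσ
    rw [Set.mem_ofPred_eq, hiff]
    have h1 : (V σ).charpoly = (P v).map ι := by
      by_contra hcon
      exact hT (Or.inr (Or.inl fun h1 => hcon (h1 σ hσ)))
    have h2 : (ρ σ).charpoly = (Q v).map ι := by
      by_contra hcon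
      exact hT (Or.inr (Or.inr fun h1 => hcon (h1 σ hσ)))
    have h3 : (V₀ σ).charpoly = (P v).map ι₀ := by
      by_contra hcon
      exact hT (Or.inl (Or.inl fun h1 => hcon (h1 σ hσ)))
    have h4 : (ρ₀ σ).charpoly = (Q v).map ι₀ := by
      by_contra hcon
      exact hT (Or.inl (Or.inr fun h1 => hcon (h1 σ hσ)))
    have hPm : (P v).Monic := Polynomial.monic_map_iff.mp (h3 ▸ Matrix.charpoly_monic _)
    have hQm : (Q v).Monic := Polynomial.monic_map_iff.mp (h4 ▸ Matrix.charpoly_monic _)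
    intro x hx
    rw [h2] at hx
    obtain ⟨al, be, h5, h6, h7⟩ := transfer ι₀ ι (P v) (Q v) hPm hQm a b (fun x hx => by
      rw [← h4] at hx
      have h8 := root_of_aeval (ρ₀ σ) _ 1 (by rw [pow_one]; exact h₀.aeval σ) x hx
      rw [← Polynomial.IsRoot.def, eig_iff, eig_tens] at h8
      obtain ⟨al, be, h5, h6, h7⟩ := h8
      refine ⟨al, be, fun s => ?_, fun t => ?_, h7⟩
      · rw [← h3, eig_iff]
        exact h5 s
      · rw [← h3, eig_iff]
        exact h6 t) x hx
    rw [eig_iff, eig_tens]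
    refine ⟨al, be, fun s => ?_, fun t => ?_, h7⟩
    · rw [← eig_iff, h1]
      exact h5 s
    · rw [← eig_iff, h1]
      exact h6 t

end

end Pool.Agent.H40GO
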