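import Mathlib
import Pool.Agent.H40GO.Indep

/-!
# Irreducible representations over fields which are not algebraically closed
-/

set_option autoImplicit false
set_option linter.unusedSectionVars false

namespace Pool.Agent.H40GO

open Module Matrix

section

variable {F : Type*} [Field F] [CharZero F] {n : Type*} [Fintype n] [DecidableEq n]

/-- a matrix with a fixed vector has a power with nonzero trace -/
theorem no_fixed (M : Matrix n n F) (h : ∀ k : ℕ, (M ^ (k + 1)).trace = 0) (v : n → F) (hv : M *ᵥ v = v) : v = 0 := by
  classical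
  by_contra hv0
  -- split off the eigenvalue one
  obtain ⟨m, r, hr1, hr2⟩ : ∃ (m : ℕ) (r : Polynomial F), M.charpoly = (Polynomial.X - Polynomial.C 1) ^ m * r ∧
      ¬ (Polynomial.X - Polynomial.C 1) ∣ r := by
    obtain ⟨r, h1, h2⟩ := Polynomial.exists_eq_pow_rootMultiplicity_mul_and_not_dvd M.charpoly
      (Matrix.charpoly_monic M).ne_zero 1
    exact ⟨_, r, h1, h2⟩
  -- a polynomial which is one modulo the first factor and zero modulo the second, without constant term
  have hc1 : IsCoprime ((Polynomial.X - Polynomial.C (1 : F)) ^ m) (Polynomial.X * r) := by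
    refine IsCoprime.pow_left ?_
    refine IsCoprime.mul_right ?_ ?_
    · exact ⟨-1, 1, by simp⟩
    · exact (Polynomial.irreducible_X_sub_C (1 : F)).coprime_iff_not_dvd.mpr hr2
  obtain ⟨s, t, hst⟩ := hc1
  obtain ⟨e, he⟩ : ∃ e, e = t * (Polynomial.X * r) := ⟨_, rfl⟩
  obtain ⟨E, hE⟩ : ∃ E, E = Polynomial.aeval M e := ⟨_, rfl⟩
  have hidem : E * E = E := by
    have h1 : e * e - e = -(s * t * Polynomial.X) * M.charpoly := by
      rw [hr1, he]
      linear_combination (t * (Polynomial.X * r)) * hst
    have h2 := congrArg (Polynomial.aeval M) h1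
    rw [map_sub, map_mul, map_mul, Matrix.aeval_self_charpoly, mul_zero, ← hE] at h2
    exact sub_eq_zero.mp h2
  have htr : E.trace = 0 := by
    obtain ⟨u, hu⟩ : ∃ u, u = t * r := ⟨_, rfl⟩
    have h1 : e = Polynomial.X * u := by
      rw [he, hu]
      ring
    have key : ∀ u : Polynomial F, (Polynomial.aeval M (Polynomial.X * u)).trace = 0 := by
      intro u
      induction u using Polynomial.induction_on' with
      | add p q hp hq => rw [mul_add, map_add, Matrix.trace_add, hp, hq, add_zero]
      | monomial k a =>
        rw [map_mul, Polynomial.aeval_X, Polynomial.aeval_monomial, Algebra.algebraMap_eq_smul_one,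
          smul_mul_assoc, one_mul, mul_smul_comm, Matrix.trace_smul, ← pow_succ', h, smul_zero]
    rw [hE, h1]
    exact key u
  have hE0 : E = 0 := by
    have h1 : IsIdempotentElem (Matrix.toLin' E) := by
      change Matrix.toLin' E ∘ₗ Matrix.toLin' E = Matrix.toLin' E
      rw [← Matrix.toLin'_mul, hidem]
    have h2 := LinearMap.IsIdempotentElem.eq_zero_of_trace_eq_zero h1 (by
      rw [Matrix.trace_toLin'_eq, htr])
    exact (Matrix.toLin' : Matrix n n F ≃ₗ[F] _).map_eq_zero_iff.mp h2
  -- the action on `v`
  have hEv : E *ᵥ v = e.eval 1 • v := by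
    have key : ∀ u : Polynomial F, (Polynomial.aeval M u) *ᵥ v = u.eval 1 • v := by
      intro u
      induction u using Polynomial.induction_on' with
      | add p q hp hq => rw [map_add, Matrix.add_mulVec, hp, hq, Polynomial.eval_add, add_smul]
      | monomial k a =>
        have h1 : (M ^ k) *ᵥ v = v := by
          induction k with
          | zero => rw [pow_zero, Matrix.one_mulVec]
          | succ k ih => rw [pow_succ, ← Matrix.mulVec_mulVec, hv, ih]
        rw [Polynomial.aeval_monomial, Algebra.algebraMap_eq_smul_one, smul_mul_assoc, one_mul,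
          Matrix.smul_mulVec, h1, Polynomial.eval_monomial, one_pow, mul_one]
    rw [hE]
    exact key e
  -- `v` is fixed, hence `m` is positive
  have hm : m ≠ 0 := by
    rintro rfl
    rw [pow_zero, one_mul] at hr1
    apply hr2
    rw [Polynomial.dvd_iff_isRoot, ← hr1, isRoot_iff]
    exact ⟨v, hv0, by rw [hv, one_smul]⟩
  have he1 : e.eval 1 = 1 := by
    have h1 := congrArg (Polynomial.eval 1) hst
    rw [← he, Polynomial.eval_add, Polynomial.eval_mul, Polynomial.eval_pow] at h1
    simpa [hm] using h1
  rw [hE0, Matrix.zero_mulVec, he1, one_smul] at hEv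
  exact hv0 hEv.symm

variable {Γ : Type*} [Group Γ]

/-- the matrix coefficients of an irreducible representation are given by the trace -/
theorem coeff_by_trace (ρ : Γ →* Matrix n n F) (hirr : Irr ρ) (i j : n) :
    ∃ c ∈ Submodule.span F (Set.range ρ), ∀ x, ρ x i j = (ρ x * c).trace := by
  obtain ⟨B, hB⟩ : ∃ B : Submodule F (Matrix n n F), B = Submodule.span F (Set.range ρ) := ⟨_, rfl⟩
  have hmem : ∀ g, ρ g ∈ B := fun g => by rw [hB]; exact Submodule.subset_span ⟨g, rfl⟩
  have hmul : ∀ x ∈ B, ∀ y ∈ B, x * y ∈ B := by
    intro x hx y hy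
    rw [hB] at hx hy ⊢
    induction hx using Submodule.span_induction with
    | mem a ha =>
      obtain ⟨g, rfl⟩ := ha
      induction hy using Submodule.span_induction with
      | mem b hb =>
        obtain ⟨h, rfl⟩ := hb
        exact Submodule.subset_span ⟨g * h, map_mul _ _ _⟩
      | zero => rw [mul_zero]; exact Submodule.zero_mem _
      | add a b _ _ ha hb => rw [mul_add]; exact Submodule.add_mem _ ha hb
      | smul c a _ ha => rw [mul_smul_comm]; exact Submodule.smul_mem _ _ ha
    | zero => rw [zero_mul]; exact Submodule.zero_mem _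
    | add a b _ _ ha hb => rw [add_mul]; exact Submodule.add_mem _ ha hb
    | smul c a _ ha => rw [smul_mul_assoc]; exact Submodule.smul_mem _ _ ha
  -- the trace form
  let φ : B →ₗ[F] Module.Dual F B :=
    { toFun := fun c =>
        { toFun := fun b => ((b : Matrix n n F) * (c : Matrix n n F)).trace
          map_add' := fun b b' => by
            rw [Submodule.coe_add, add_mul, Matrix.trace_add]
          map_smul' := fun a b => by
            rw [Submodule.coe_smul, smul_mul_assoc, Matrix.trace_smul]
            rfl }
      map_add' := fun c c' => by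
        ext b
        change ((b : Matrix n n F) * ((c : Matrix n n F) + (c' : Matrix n n F))).trace = _
        rw [mul_add, Matrix.trace_add]
        rfl
      map_smul' := fun a c => by
        ext b
        change ((b : Matrix n n F) * (a • (c : Matrix n n F))).trace = _
        rw [mul_smul_comm, Matrix.trace_smul]
        rfl }
  have hφ : ∀ c b : B, φ c b = ((b : Matrix n n F) * (c : Matrix n n F)).trace := fun _ _ => rfl
  have hinj : Function.Injective φ := by
    rw [injective_iff_map_eq_zero]
    intro c hc
    by_contra hc0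
    have hc0' : (c : Matrix n n F) ≠ 0 := fun h => hc0 (Subtype.ext h)
    have htr : ∀ b ∈ B, (b * (c : Matrix n n F)).trace = 0 := by
      intro b hb
      rw [← hφ c ⟨b, hb⟩, hc]
      rfl
    -- a vector with nonzero image
    obtain ⟨v, hv⟩ : ∃ v, (c : Matrix n n F) *ᵥ v ≠ 0 := by
      by_contra hcon
      push Not at hcon
      apply hc0'
      ext i j
      have h1 := congrFun (hcon (Pi.single j 1)) i
      rw [Matrix.mulVec_single_one] at h1
      exact h1
    -- the subspace generated by the translates of the image
    let U : Submodule F (n → F) :=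
      { carrier := {u | ∃ b ∈ B, u = b *ᵥ ((c : Matrix n n F) *ᵥ v)}
        add_mem' := by
          rintro _ _ ⟨b, hb, rfl⟩ ⟨b', hb', rfl⟩
          exact ⟨b + b', B.add_mem hb hb', by rw [Matrix.add_mulVec]⟩
        zero_mem' := ⟨0, B.zero_mem, by rw [Matrix.zero_mulVec]⟩
        smul_mem' := by
          rintro a _ ⟨b, hb, rfl⟩
          exact ⟨a • b, B.smul_mem a hb, by rw [Matrix.smul_mulVec]⟩ }
    have hU : U = ⊤ := by
      rcases hirr.2 U (by
        rintro g _ ⟨b, hb, rfl⟩
        exact ⟨ρ g * b, hmul _ (hmem g) _ hb, by rw [← Matrix.mulVec_mulVec]⟩) with h | h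
      · exfalso
        have h1 : (c : Matrix n n F) *ᵥ v ∈ U := ⟨1, by rw [← map_one ρ]; exact hmem 1, by rw [Matrix.one_mulVec]⟩
        rw [h] at h1
        exact hv h1
      · exact h
    obtain ⟨b, hb, hbv⟩ : v ∈ U := by rw [hU]; trivial
    rw [Matrix.mulVec_mulVec] at hbv
    have h1 : ∀ k : ℕ, ((b * (c : Matrix n n F)) ^ (k + 1)).trace = 0 := by
      intro k
      rw [pow_succ, ← mul_assoc]
      refine htr _ (hmul _ ?_ _ hb)
      have h2 : b * (c : Matrix n n F) ∈ B := hmul _ hb _ c.2
      induction k with
      | zero =>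
        rw [pow_zero, ← map_one ρ]
        exact hmem 1
      | succ k ih =>
        rw [pow_succ]
        exact hmul _ ih _ h2
    have h2 := no_fixed _ h1 v hbv.symm
    rw [h2, Matrix.mulVec_zero] at hv
    exact hv rfl
  have hsurj : Function.Surjective φ :=
    (LinearMap.injective_iff_surjective_of_finrank_eq_finrank (Subspace.dual_finrank_eq).symm).mp hinj
  let ℓ : Module.Dual F B :=
    { toFun := fun b => (b : Matrix n n F) i j
      map_add' := fun _ _ => rfl
      map_smul' := fun _ _ => rfl }
  obtain ⟨c, hc⟩ := hsurj ℓ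
  refine ⟨c, hB ▸ c.2, fun x => ?_⟩
  have h1 := congrArg (fun f : Module.Dual F B => f ⟨ρ x, hmem x⟩) hc
  exact h1.symm

end

end Pool.Agent.H40GO
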