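import Mathlib
import Pool.Agent.H40GO.Fld

/-!
# Representations with Frobenius eigenvalues which are monomials in those of a given representation
-/

set_option autoImplicit false
set_option linter.unusedSectionVars false

namespace Pool.Agent.H40GO

open Module Matrix

section

variable {F : Type*} [Field F] {G : Type*} [Field G] [Algebra F G] {Γ : Type*} [Group Γ]
  {n m : Type*} [Fintype n] [DecidableEq n] [Fintype m] [DecidableEq m]

/-- extension of scalars -/
def bc (G : Type*) [Field G] [Algebra F G] (ρ : Γ →* Matrix n n F) : Γ →* Matrix n n G :=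
  ((algebraMap F G).mapMatrix : Matrix n n F →+* Matrix n n G).toMonoidHom.comp ρ

theorem bc_apply (ρ : Γ →* Matrix n n F) (x : Γ) (i j : n) : bc G ρ x i j = algebraMap F G (ρ x i j) := rfl

theorem bc_charpoly (ρ : Γ →* Matrix n n F) (x : Γ) :
    (bc G ρ x).charpoly = (ρ x).charpoly.map (algebraMap F G) :=
  Matrix.charpoly_map (ρ x) (algebraMap F G)

theorem tens_bc (V : Γ →* Matrix m m F) (a b : ℕ) (c : ℤ) (x : Γ) (p q : (Fin a → m) × (Fin b → m)) :
    tens (bc G V) 1 a b c x p q = algebraMap F G (tens V 1 a b c x p q) := by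
  simp [tens, bc_apply, map_prod]

/-- integrality of the coefficients from integrality of the trace -/
theorem coeff_integral_bc [CharZero F] {A : Subalgebra G (Γ → G)} (hA : ∀ a ∈ A, Comul A a) (ρ : Γ →* Matrix n n F)
    (hirr : Irr ρ) (htr : IsIntegral A (fun x => algebraMap F G (ρ x).trace)) (i j : n) :
    IsIntegral A (fun x => algebraMap F G (ρ x i j)) := by
  obtain ⟨c, hc, h⟩ := coeff_by_trace ρ hirr i j
  have key : ∀ M ∈ Submodule.span F (Set.range ρ), IsIntegral A (fun x => algebraMap F G (ρ x * M).trace) := by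
    intro M hM
    induction hM using Submodule.span_induction with
    | mem a ha =>
      obtain ⟨g, rfl⟩ := ha
      have h1 := isIntegral_rt hA htr g
      have h2 : rt g (fun x => algebraMap F G (ρ x).trace) = fun x => algebraMap F G (ρ x * ρ g).trace := by
        funext x
        rw [rt_apply, map_mul]
      rwa [h2] at h1
    | zero =>
      have h2 : (fun x => algebraMap F G (ρ x * 0).trace) = (0 : Γ → G) := by
        funext x
        simp
      rw [h2]
      exact isIntegral_zero
    | add a b _ _ ha hb =>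
      have h2 : (fun x => algebraMap F G (ρ x * (a + b)).trace) =
          (fun x => algebraMap F G (ρ x * a).trace) + (fun x => algebraMap F G (ρ x * b).trace) := by
        funext x
        simp [mul_add]
      rw [h2]
      exact ha.add hb
    | smul c a _ ha =>
      have h2 : (fun x => algebraMap F G (ρ x * (c • a)).trace) =
          algebraMap G (Γ → G) (algebraMap F G c) * (fun x => algebraMap F G (ρ x * a).trace) := by
        funext x
        simp
      rw [h2]
      refine IsIntegral.mul ?_ ha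
      exact isIntegral_algebraMap (A := Γ → G) (x := (algebraMap G A (algebraMap F G c)))
  have h1 := key c hc
  have h2 : (fun x => algebraMap F G (ρ x * c).trace) = fun x => algebraMap F G (ρ x i j) := by
    funext x
    rw [h x]
  rwa [h2] at h1

/-- descent of the field of coefficients -/
theorem descent (S : Set (Γ → F)) (f : Γ → F)
    (hf : (fun x => algebraMap F G (f x)) ∈ Submodule.span G ((fun (s : Γ → F) (x : Γ) => algebraMap F G (s x)) '' S)) :
    f ∈ Submodule.span F S := by
  obtain ⟨r, hr⟩ := LinearMap.exists_leftInverse_of_injective (Algebra.linearMap F G)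
    (LinearMap.ker_eq_bot.mpr (algebraMap F G).injective)
  have hr' : ∀ a : F, r (algebraMap F G a) = a := fun a => congrArg (fun g : F →ₗ[F] F => g a) hr
  have key : ∀ u ∈ Submodule.span G ((fun (s : Γ → F) (x : Γ) => algebraMap F G (s x)) '' S), ∀ c : G,
      (fun x => r (c * u x)) ∈ Submodule.span F S := by
    intro u hu
    induction hu using Submodule.span_induction with
    | mem u hu =>
      obtain ⟨s, hs, rfl⟩ := hu
      intro c
      have h1 : (fun x => r (c * algebraMap F G (s x))) = r c • s := by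
        funext x
        rw [mul_comm, ← Algebra.smul_def, map_smul, Pi.smul_apply, smul_eq_mul, smul_eq_mul, mul_comm]
      rw [h1]
      exact Submodule.smul_mem _ _ (Submodule.subset_span hs)
    | zero =>
      intro c
      have h1 : (fun x : Γ => r (c * (0 : Γ → G) x)) = 0 := by
        funext x
        simp
      rw [h1]
      exact Submodule.zero_mem _
    | add u v _ _ hu hv =>
      intro c
      have h1 : (fun x : Γ => r (c * (u + v) x)) = (fun x => r (c * u x)) + (fun x => r (c * v x)) := by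
        funext x
        simp [mul_add]
      rw [h1]
      exact Submodule.add_mem _ (hu c) (hv c)
    | smul d u _ hu =>
      intro c
      have h1 : (fun x : Γ => r (c * (d • u) x)) = (fun x => r (c * d * u x)) := by
        funext x
        simp [mul_assoc]
      rw [h1]
      exact hu (c * d)
  have h1 := key _ hf 1
  have h2 : (fun x => r (1 * algebraMap F G (f x))) = f := by
    funext x
    rw [one_mul, hr']
  rwa [h2] at h1

/-- the algebraic theorem with a polynomial with coefficients in the algebra -/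
theorem coeff_mem_poly [IsAlgClosed G] [CharZero G] {A : Subalgebra G (Γ → G)} (hA : Hopf A) (ρ : Γ →* Matrix n n G)
    (hint : ∀ i j, IsIntegral A (fun x => ρ x i j)) (P : Polynomial A) (M : ℕ)
    (hP : P.map ((ev A 1 : A →ₐ[G] G) : A →+* G) = (Polynomial.X - 1) ^ M) (k : ℕ)
    (h : ∀ x, (Polynomial.aeval (ρ x) (P.map ((ev A x : A →ₐ[G] G) : A →+* G))) ^ k = 0) :
    ∀ i j, (fun x => ρ x i j) ∈ A := by
  refine coeff_mem hA ρ hint ?_
  intro B hAB hρB y hy
  let incl : A →+* B := (Subalgebra.inclusion hAB : A →ₐ[G] B)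
  obtain ⟨RB, hRB⟩ : ∃ RB, RB = matA B ρ hρB := ⟨_, rfl⟩
  have h1 : (Polynomial.aeval RB (P.map incl)) ^ k = 0 := by
    have h2 : ∀ x, ((ev B x : B →ₐ[G] G) : B →+* G).mapMatrix ((Polynomial.aeval RB (P.map incl)) ^ k) = 0 := by
      intro x
      rw [map_pow, mapMatrix_aeval, hRB, matA_ev, Polynomial.map_map]
      exact h x
    ext i j x
    exact congrFun (congrFun (h2 x) i) j
  have h3 : ((y : B →ₐ[G] G) : B →+* G).mapMatrix ((Polynomial.aeval RB (P.map incl)) ^ k) = 0 := by
    rw [h1, map_zero]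
  have h4 : ((y : B →ₐ[G] G) : B →+* G).comp incl = ((ev A 1 : A →ₐ[G] G) : A →+* G) := by
    ext a
    exact hy a a.2
  rw [map_pow, mapMatrix_aeval, Polynomial.map_map, h4, hP, map_pow, map_sub, Polynomial.aeval_X, map_one, hRB,
    ← pow_mul] at h3
  exact ⟨_, h3⟩

/-- the product of the characteristic polynomials of the tensor constructions of bounded type -/
noncomputable def bigPoly (V : Γ →* Matrix m m G) (B : ℕ) (x : Γ) : Polynomial G :=
  ∏ ab ∈ Finset.range (B + 1) ×ˢ Finset.range (B + 1), (tens V 1 ab.1 ab.2 0 x).charpoly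

/-- the roots of `bigPoly` -/
theorem bigPoly_root [IsAlgClosed G] (V : Γ →* Matrix m m G) (B : ℕ) (x : Γ) (z : G) :
    (bigPoly V B x).IsRoot z ↔ ∃ a ≤ B, ∃ b ≤ B, ∃ (al : Fin a → G) (be : Fin b → G),
      (∀ s, (V x).charpoly.IsRoot (al s)) ∧ (∀ t, (V x).charpoly.IsRoot (be t)) ∧ z * ∏ t, be t = ∏ s, al s := by
  unfold bigPoly
  rw [Polynomial.IsRoot.def, Polynomial.eval_prod, Finset.prod_eq_zero_iff]
  constructor
  · rintro ⟨⟨a, b⟩, hab, h⟩
    rw [Finset.mem_product, Finset.mem_range, Finset.mem_range] at hab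
    rw [← Polynomial.IsRoot.def, eig_iff, eig_tens] at h
    obtain ⟨al, be, h1, h2, h3⟩ := h
    exact ⟨a, Nat.lt_succ_iff.mp hab.1, b, Nat.lt_succ_iff.mp hab.2, al, be, fun s => (eig_iff _ _).2 (h1 s),
      fun t => (eig_iff _ _).2 (h2 t), h3⟩
  · rintro ⟨a, ha, b, hb, al, be, h1, h2, h3⟩
    refine ⟨(a, b), ?_, ?_⟩
    · rw [Finset.mem_product, Finset.mem_range, Finset.mem_range]
      exact ⟨Nat.lt_succ_iff.mpr ha, Nat.lt_succ_iff.mpr hb⟩
    · rw [← Polynomial.IsRoot.def, eig_iff, eig_tens]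
      exact ⟨al, be, fun s => (eig_iff _ _).1 (h1 s), fun t => (eig_iff _ _).1 (h2 t), h3⟩

/-- **Algebraic theorem over a field.** -/
theorem subQuot_field [CharZero F] [IsAlgClosed G] (V : Γ →* Matrix m m F) (ρ : Γ →* Matrix n n F)
    (hirr : Irr ρ) (B : ℕ)
    (h : ∀ x, ∀ z : G, (bc G ρ x).charpoly.IsRoot z → (bigPoly (bc G V) B x).IsRoot z) :
    ∃ a b, SubQuot (tens V 1 a b 0) ρ := by
  classical
  have hchar : CharZero G := charZero_of_injective_algebraMap (algebraMap F G).injective
  have hA := coefAlg_hopf (bc G V) 1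
  obtain ⟨A, hAdef⟩ : ∃ A, A = coefAlg (bc G V) 1 := ⟨_, rfl⟩
  rw [← hAdef] at hA
  have htm : ∀ a b (p q : (Fin a → m) × (Fin b → m)), (fun x => tens (bc G V) 1 a b 0 x p q) ∈ A := by
    intro a b p q
    rw [hAdef]
    exact tens_mem (bc G V) 1 a b p q
  obtain ⟨P, hP⟩ : ∃ P : Polynomial A, P = ∏ ab ∈ Finset.range (B + 1) ×ˢ Finset.range (B + 1),
      (matA A (tens (bc G V) 1 ab.1 ab.2 0) (htm ab.1 ab.2)).charpoly := ⟨_, rfl⟩
  have hPm : P.Monic := by
    rw [hP]
    exact Polynomial.monic_prod_of_monic _ _ fun _ _ => Matrix.charpoly_monic _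
  have hPx : ∀ x, P.map ((ev A x : A →ₐ[G] G) : A →+* G) = bigPoly (bc G V) B x := by
    intro x
    rw [hP, Polynomial.map_prod]
    refine Finset.prod_congr rfl fun ab _ => ?_
    rw [← Matrix.charpoly_map]
    exact congrArg Matrix.charpoly (matA_ev A (tens (bc G V) 1 ab.1 ab.2 0) (htm ab.1 ab.2) x)
  have hP1 : ∃ M, P.map ((ev A 1 : A →ₐ[G] G) : A →+* G) = (Polynomial.X - 1) ^ M := by
    rw [hPx]
    unfold bigPoly
    refine ⟨∑ ab ∈ Finset.range (B + 1) ×ˢ Finset.range (B + 1),
      Fintype.card ((Fin ab.1 → m) × (Fin ab.2 → m)), ?_⟩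
    rw [← Finset.prod_pow_eq_pow_sum]
    refine Finset.prod_congr rfl fun ab _ => ?_
    rw [map_one, Matrix.charpoly_one]
  obtain ⟨M, hM⟩ := hP1
  have htr : IsIntegral A (fun x => algebraMap F G (ρ x).trace) := by
    refine integral_of_sum_roots P hPm _ (Fintype.card n) fun x => ?_
    rw [hPx x]
    obtain ⟨μ, hμ1, hμ2⟩ := trace_sum_roots (bc G ρ x)
    refine ⟨μ, fun i => h x _ (hμ1 i), ?_⟩
    rw [← hμ2]
    simp [Matrix.trace, bc_apply]
  have hmem : ∀ i j, (fun x => bc G ρ x i j) ∈ A := by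
    refine coeff_mem_poly hA (bc G ρ) (fun i j => coeff_integral_bc hA.comul ρ hirr htr i j) P M hM
      (Fintype.card n) fun x => ?_
    rw [hPx x]
    exact pow_aeval_eq_zero _ _ (h x)
  have hspan : ∀ i j, (fun x => ρ x i j) ∈ Submodule.span F {f : Γ → F | ∃ (s : ℕ × ℕ × ℤ)
      (p q : (Fin s.1 → m) × (Fin s.2.1 → m)), f = fun x => tens V 1 s.1 s.2.1 s.2.2 x p q} := by
    intro i j
    apply descent (G := G)
    have h1 := coefAlg_le_tensSpan (bc G V) 1 _ (hAdef ▸ hmem i j)
    unfold tensSpan at h1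
    have h2 : {f : Γ → G | ∃ (s : ℕ × ℕ × ℤ) (p q : (Fin s.1 → m) × (Fin s.2.1 → m)),
        f = fun x => tens (bc G V) 1 s.1 s.2.1 s.2.2 x p q} = (fun (s : Γ → F) (x : Γ) => algebraMap F G (s x)) ''
        {f : Γ → F | ∃ (s : ℕ × ℕ × ℤ) (p q : (Fin s.1 → m) × (Fin s.2.1 → m)),
          f = fun x => tens V 1 s.1 s.2.1 s.2.2 x p q} := by
      ext f
      constructor
      · rintro ⟨s, p, q, rfl⟩
        refine ⟨_, ⟨s, p, q, rfl⟩, ?_⟩
        funext x
        exact (tens_bc V _ _ _ x p q).symm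
      · rintro ⟨_, ⟨s, p, q, rfl⟩, rfl⟩
        refine ⟨s, p, q, ?_⟩
        funext x
        exact (tens_bc V _ _ _ x p q).symm
    rw [h2] at h1
    exact h1
  obtain ⟨s, hs⟩ := subQuot_of_mem (ι := ℕ × ℕ × ℤ) (fun s => (Fin s.1 → m) × (Fin s.2.1 → m))
    (fun s => tens V 1 s.1 s.2.1 s.2.2) ρ hirr hspan
  refine ⟨s.1, s.2.1, ?_⟩
  have h2 : tens V (1 : Γ →* F) s.1 s.2.1 s.2.2 = tens V (1 : Γ →* F) s.1 s.2.1 0 := by
    ext x p q
    simp [tens, _root_.one_zpow]
  rwa [h2] at hs

end

end Pool.Agent.H40GO
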