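import Mathlib
import Pool.Agent.H40GO.Geo

/-!
# Galois representations with Frobenius eigenvalues which are monomials in those of a given representation
-/

set_option autoImplicit false
set_option linter.unusedSectionVars false

namespace Pool.Agent.H40GO

open NumberField IsDedekindDomain Filter Topology Pool.Agent.W401.Cheb Matrix

section

variable {G : Type*} [Field G] [TopologicalSpace G] [IsTopologicalRing G] {X : Type*} [TopologicalSpace X]

/-- a family of polynomials of bounded degree with continuous coefficients -/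
def ContPoly (P : X → Polynomial G) : Prop :=
  (∀ k, Continuous fun x => (P x).coeff k) ∧ ∃ D, ∀ x, (P x).natDegree < D

theorem ContPoly.mul {P Q : X → Polynomial G} (hP : ContPoly P) (hQ : ContPoly Q) :
    ContPoly fun x => P x * Q x := by
  obtain ⟨hP1, D, hP2⟩ := hP
  obtain ⟨hQ1, D', hQ2⟩ := hQ
  refine ⟨fun k => ?_, D + D', fun x => ?_⟩
  · simp only [Polynomial.coeff_mul]
    exact continuous_finsetSum _ fun p _ => (hP1 _).mul (hQ1 _)
  · have h1 := Polynomial.natDegree_mul_le (p := P x) (q := Q x)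
    have h2 := hP2 x
    have h3 := hQ2 x
    change (P x * Q x).natDegree < D + D'
    omega

theorem ContPoly.prod {ι : Type*} (S : Finset ι) (P : ι → X → Polynomial G) (h : ∀ i, ContPoly (P i)) :
    ContPoly fun x => ∏ i ∈ S, P i x := by
  classical
  induction S using Finset.induction_on with
  | empty =>
    refine ⟨fun k => ?_, 1, fun x => ?_⟩
    · simp only [Finset.prod_empty]
      exact continuous_const
    · simp
  | insert i S hi ih =>
    simp only [Finset.prod_insert hi]
    exact (h i).mul ih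

theorem contPoly_charpoly {m : Type*} [Fintype m] [DecidableEq m] (W : X → Matrix m m G) (hW : Continuous W) :
    ContPoly fun x => (W x).charpoly := by
  refine ⟨fun i => ?_, Fintype.card m + 1, fun x => ?_⟩
  · have h1 : (fun x => (W x).charpoly.coeff i) = fun x => MvPolynomial.eval (fun p : m × m => W x p.1 p.2)
        ((Matrix.charpoly.univ G m).coeff i) := by
      funext x
      have h2 := Matrix.charpoly.univ_coeff_eval₂Hom m (RingHom.id G) (fun p : m × m => W x p.1 p.2) i
      exact h2.symm
    rw [h1]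
    refine (MvPolynomial.continuous_eval _).comp ?_
    exact continuous_pi fun p => hW.matrix_elem p.1 p.2
  · rw [Matrix.charpoly_natDegree_eq_dim]
    exact Nat.lt_succ_self _

theorem ContPoly.aeval {n : Type*} [Fintype n] [DecidableEq n] (R : X → Matrix n n G) (hR : Continuous R)
    {P : X → Polynomial G} (hP : ContPoly P) : Continuous fun x => Polynomial.aeval (R x) (P x) := by
  obtain ⟨hP1, D, hP2⟩ := hP
  have h2 : (fun x => Polynomial.aeval (R x) (P x)) = fun x => ∑ i ∈ Finset.range D, (P x).coeff i • (R x) ^ i := by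
    funext x
    exact Polynomial.aeval_eq_sum_range' (hP2 x) _
  rw [h2]
  exact continuous_finsetSum _ fun i _ => (hP1 i).smul (hR.pow i)

end

section

variable {K : Type} [Field K] [NumberField K] {F : Type*} [Field F] [CharZero F] [TopologicalSpace F]
  {G : Type*} [Field G] [Algebra F G] [TopologicalSpace G] [IsTopologicalRing G] [T2Space G] [IsAlgClosed G]

theorem bc_continuous (hFG : Continuous (algebraMap F G)) {n : ℕ} (ρ : GK K →* Matrix (Fin n) (Fin n) F)
    (hρ : Continuous ρ) : Continuous (bc G ρ) := by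
  refine continuous_matrix fun i j => ?_
  exact hFG.comp (hρ.matrix_elem i j)

theorem bigPoly_conj {m : Type*} [Fintype m] [DecidableEq m] (V : GK K →* Matrix m m G) (B : ℕ) (σ τ : GK K) :
    bigPoly V B (τ * σ * τ⁻¹) = bigPoly V B σ := by
  unfold bigPoly
  exact Finset.prod_congr rfl fun ab _ => charpoly_conj _ σ τ

/-- **Main theorem.** -/
theorem main_geo (hFG : Continuous (algebraMap F G)) (N n : ℕ) (V : GK K →* Matrix (Fin N) (Fin N) F)
    (ρ : GK K →* Matrix (Fin n) (Fin n) F) (hV : Continuous V) (hρ : Continuous ρ) (hirr : Irr ρ)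
    (S : Set (HeightOneSpectrum (𝓞 K))) (hS : UpperOne S) (B : ℕ)
    (h : ∀ v ∈ S, ∀ σ, IsFrob v σ → ∀ z : G, (bc G ρ σ).charpoly.IsRoot z → (bigPoly (bc G V) B σ).IsRoot z) :
    ∃ a b, SubQuot (tens V 1 a b 0) ρ := by
  have hchar : CharZero G := charZero_of_injective_algebraMap (algebraMap F G).injective
  refine subQuot_field (G := G) V ρ hirr B ?_
  have hiff : ∀ σ, (Polynomial.aeval (bc G ρ σ) (bigPoly (bc G V) B σ)) ^ n = 0 ↔
      ∀ x, (bc G ρ σ).charpoly.IsRoot x → (bigPoly (bc G V) B σ).IsRoot x := by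
    intro σ
    constructor
    · intro h x hx
      exact root_of_aeval _ _ n h x hx
    · intro h
      have h1 := pow_aeval_eq_zero (bc G ρ σ) _ h
      rwa [Fintype.card_fin] at h1
  intro σ
  rw [← hiff]
  have hVc := bc_continuous (G := G) hFG V hV
  have hρc := bc_continuous (G := G) hFG ρ hρ
  refine all_of_density {σ | (Polynomial.aeval (bc G ρ σ) (bigPoly (bc G V) B σ)) ^ n = 0} ?_ ?_ S ∅ hS
    Set.finite_empty ?_ σ
  · have hc : ContPoly fun σ => bigPoly (bc G V) B σ :=
      ContPoly.prod _ _ fun ab => contPoly_charpoly _ (continuous_tens (bc G V) hVc ab.1 ab.2)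
    exact isClosed_singleton.preimage ((hc.aeval _ hρc).pow n)
  · intro σ hσ τ
    rw [Set.mem_ofPred_eq, hiff] at hσ ⊢
    rwa [charpoly_conj, bigPoly_conj]
  · intro v hv _ σ hσ
    rw [Set.mem_ofPred_eq, hiff]
    exact h v hv σ hσ

/-- the converse -/
theorem main_geo_conv (N n : ℕ) (V : GK K →* Matrix (Fin N) (Fin N) F)
    (ρ : GK K →* Matrix (Fin n) (Fin n) F) (a b : ℕ) (h : SubQuot (tens V 1 a b 0) ρ) (σ : GK K) (z : G)
    (hz : (bc G ρ σ).charpoly.IsRoot z) : ∃ (al : Fin a → G) (be : Fin b → G),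
      (∀ s, (bc G V σ).charpoly.IsRoot (al s)) ∧ (∀ t, (bc G V σ).charpoly.IsRoot (be t)) ∧
      z * ∏ t, be t = ∏ s, al s := by
  have h1 := h.aeval σ
  have h2 : Polynomial.aeval (bc G ρ σ) (tens (bc G V) 1 a b 0 σ).charpoly = 0 := by
    have h3 := congrArg ((algebraMap F G).mapMatrix : Matrix (Fin n) (Fin n) F →+* Matrix (Fin n) (Fin n) G) h1
    rw [map_zero, mapMatrix_aeval, ← Matrix.charpoly_map] at h3
    have h4 : tens (bc G V) 1 a b 0 σ = (tens V 1 a b 0 σ).map (algebraMap F G) := by
      ext p q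
      exact tens_bc V a b 0 σ p q
    rw [h4]
    exact h3
  have h3 := root_of_aeval _ _ 1 (by rw [pow_one]; exact h2) z hz
  rw [← Polynomial.IsRoot.def, eig_iff, eig_tens] at h3
  obtain ⟨al, be, h4, h5, h6⟩ := h3
  exact ⟨al, be, fun s => (eig_iff _ _).2 (h4 s), fun t => (eig_iff _ _).2 (h5 t), h6⟩

end

end Pool.Agent.H40GO
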