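import Mathlib
import Pool.Agent.H40GO.GeoGal

/-!
# Two-dimensional representations with one eigenvalue which is a monomial in the eigenvalues of a given representation
-/

set_option autoImplicit false
set_option linter.unusedSectionVars false

namespace Pool.Agent.H40GO

open Module Matrix

section

variable {F : Type*} [Field F] {G : Type*} [Field G] [Algebra F G] {Γ : Type*} [Group Γ]
  {n m : Type*} [Fintype n] [DecidableEq n] [Fintype m] [DecidableEq m]

/-- the direct sum of the tensor constructions of bounded type -/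
def bigRep (V : Γ →* Matrix m m G) (B : ℕ) :
    Γ →* Matrix (Σ ab : Fin (B + 1) × Fin (B + 1), (Fin ab.1 → m) × (Fin ab.2 → m))
      (Σ ab : Fin (B + 1) × Fin (B + 1), (Fin ab.1 → m) × (Fin ab.2 → m)) G where
  toFun g := Matrix.blockDiagonal' fun ab => tens V 1 ab.1 ab.2 0 g
  map_one' := by
    have h1 : (fun ab : Fin (B + 1) × Fin (B + 1) => tens V (1 : Γ →* G) ab.1 ab.2 0 1) = fun ab => 1 := by
      funext ab
      exact map_one _
    rw [h1]
    exact Matrix.blockDiagonal'_one
  map_mul' g h := by
    rw [← Matrix.blockDiagonal'_mul]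
    congr 1
    funext ab
    exact map_mul _ _ _

theorem eig_bigRep (V : Γ →* Matrix m m G) (B : ℕ) (x : Γ) (ab : Fin (B + 1) × Fin (B + 1)) (z : G)
    (h : Eig (tens V 1 ab.1 ab.2 0 x) z) : Eig (bigRep V B x) z := by
  classical
  obtain ⟨v, hv0, hv⟩ := h
  refine ⟨fun p => if hp : p.1 = ab then v (hp ▸ p.2) else 0, ?_, ?_⟩
  · intro h0
    apply hv0
    funext q
    have h1 := congrFun h0 ⟨ab, q⟩
    simpa using h1
  · funext ⟨cd, q⟩
    rw [Matrix.mulVec, dotProduct, Fintype.sum_sigma]
    have h1 : ∀ ef : Fin (B + 1) × Fin (B + 1), ef ≠ cd →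
        (∑ r, bigRep V B x ⟨cd, q⟩ ⟨ef, r⟩ * (if hp : ef = ab then v (hp ▸ r) else 0)) = 0 := by
      intro ef hef
      refine Finset.sum_eq_zero fun r _ => ?_
      have h2 : bigRep V B x ⟨cd, q⟩ ⟨ef, r⟩ = 0 := by
        change Matrix.blockDiagonal' (fun ab => tens V (1 : Γ →* G) ab.1 ab.2 0 x) ⟨cd, q⟩ ⟨ef, r⟩ = 0
        rw [Matrix.blockDiagonal'_apply_ne _ _ _ hef.symm]
      rw [h2, zero_mul]
    rw [Finset.sum_eq_single cd (fun ef _ hef => h1 ef hef) (fun h => absurd (Finset.mem_univ _) h)]
    by_cases hcd : cd = ab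
    · subst hcd
      have h3 := congrFun hv q
      rw [Matrix.mulVec, dotProduct] at h3
      simp only [Pi.smul_apply, dite_true]
      refine Eq.trans ?_ h3
      refine Finset.sum_congr rfl fun r _ => ?_
      congr 1
      change Matrix.blockDiagonal' (fun ab => tens V (1 : Γ →* G) ab.1 ab.2 0 x) ⟨cd, q⟩ ⟨cd, r⟩ = _
      rw [Matrix.blockDiagonal'_apply_eq]
    · simp [hcd]

theorem coefAlg_bigRep_le (V : Γ →* Matrix m m G) (B : ℕ) : coefAlg (bigRep V B) 1 ≤ coefAlg V 1 := by
  have h1 : ∀ i j, (fun x => bigRep V B x i j) ∈ coefAlg V 1 := by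
    rintro ⟨ab, q⟩ ⟨cd, r⟩
    by_cases hab : ab = cd
    · subst hab
      have h2 : (fun x => bigRep V B x ⟨ab, q⟩ ⟨ab, r⟩) = fun x => tens V 1 ab.1 ab.2 0 x q r := by
        funext x
        change Matrix.blockDiagonal' (fun ab => tens V (1 : Γ →* G) ab.1 ab.2 0 x) ⟨ab, q⟩ ⟨ab, r⟩ = _
        rw [Matrix.blockDiagonal'_apply_eq]
      rw [h2]
      exact tens_mem V 1 _ _ _ _
    · have h2 : (fun x => bigRep V B x ⟨ab, q⟩ ⟨cd, r⟩) = 0 := by
        funext x
        change Matrix.blockDiagonal' (fun ab => tens V (1 : Γ →* G) ab.1 ab.2 0 x) ⟨ab, q⟩ ⟨cd, r⟩ = _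
        rw [Matrix.blockDiagonal'_apply_ne _ _ _ hab]
        rfl
      rw [h2]
      exact Subalgebra.zero_mem _
  refine Algebra.adjoin_le ?_
  rintro s ((⟨⟨i, j⟩, rfl⟩ | ⟨⟨i, j⟩, rfl⟩) | (rfl | rfl))
  · exact h1 i j
  · exact (coefAlg_hopf V 1).inv _ (h1 i j)
  · exact mem3 V 1
  · exact mem4 V 1

/-- from coefficients in the algebra over the closure to a subquotient over the field -/
theorem subQuot_of_bc [CharZero F] (V : Γ →* Matrix m m F) (ρ : Γ →* Matrix n n F)
    (hirr : Irr ρ) (hmem : ∀ i j, (fun x => bc G ρ x i j) ∈ coefAlg (bc G V) 1) :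
    ∃ a b, SubQuot (tens V 1 a b 0) ρ := by
  have hspan : ∀ i j, (fun x => ρ x i j) ∈ Submodule.span F {f : Γ → F | ∃ (s : ℕ × ℕ × ℤ)
      (p q : (Fin s.1 → m) × (Fin s.2.1 → m)), f = fun x => tens V 1 s.1 s.2.1 s.2.2 x p q} := by
    intro i j
    apply descent (G := G)
    have h1 := coefAlg_le_tensSpan (bc G V) 1 _ (hmem i j)
    unfold tensSpan at h1
    have h2 : {f : Γ → G | ∃ (s : ℕ × ℕ × ℤ) (p q : (Fin s.1 → m) × (Fin s.2.1 → m)),
        f = fun x => tens (bc G V) 1 s.1 s.2.1 s.2.2 x p q} = (fun (s : Γ → F) (x : Γ) => algebraMap F G (s x)) ''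
        {f : Γ → F | ∃ (s : ℕ × ℕ × ℤ) (p q : (Fin s.1 → m) × (Fin s.2.1 → m)),
          f = fun x => tens V 1 s.1 s.2.1 s.2.2 x p q} := by
      ext f
      constructor
      · rintro ⟨s, p, q, rfl⟩
        refine ⟨_, ⟨s, p, q, rfl⟩, ?_⟩
        funext x
        exact (tens_bc V _ _ _ x p q).symm
      · rintro ⟨_, ⟨s, p, q, rfl⟩, rfl⟩
        refine ⟨s, p, q, ?_⟩
        funext x
        exact (tens_bc V _ _ _ x p q).symm
    rw [h2] at h1
    exact h1
  obtain ⟨s, hs⟩ := subQuot_of_mem (ι := ℕ × ℕ × ℤ) (fun s => (Fin s.1 → m) × (Fin s.2.1 → m))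
    (fun s => tens V 1 s.1 s.2.1 s.2.2) ρ hirr hspan
  refine ⟨s.1, s.2.1, ?_⟩
  have h2 : tens V (1 : Γ →* F) s.1 s.2.1 s.2.2 = tens V (1 : Γ →* F) s.1 s.2.1 0 := by
    ext x p q
    simp [tens, _root_.one_zpow]
  rwa [h2] at hs

/-- if `ρ` is irreducible but not absolutely irreducible, of dimension two, then no element has two different
eigenvalues in the field -/
theorem no_split (ρ : Γ →* Matrix (Fin 2) (Fin 2) F) (hirr : Irr ρ) (hG : ¬ Irr (bc G ρ)) (x : Γ)
    (a b : F) (hab : a ≠ b) (ha : (ρ x).charpoly.IsRoot a) (hb : (ρ x).charpoly.IsRoot b) : False := by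
  -- a stable line
  obtain ⟨U, hU, hU0, hU1⟩ : ∃ U : Submodule G (Fin 2 → G), (∀ g, ∀ u ∈ U, bc G ρ g *ᵥ u ∈ U) ∧ U ≠ ⊥ ∧ U ≠ ⊤ := by
    by_contra hcon
    push Not at hcon
    apply hG
    refine ⟨⟨0⟩, fun U hU => ?_⟩
    by_cases h : U = ⊥
    · exact Or.inl h
    · exact Or.inr (hcon U hU h)
  obtain ⟨v, hv0, hv⟩ := (isRoot_iff _ _).1 ha
  obtain ⟨w, hw0, hw⟩ := (isRoot_iff _ _).1 hb
  -- the rational vectors
  let e : (Fin 2 → F) → (Fin 2 → G) := fun u i => algebraMap F G (u i)
  have he_add : ∀ u u', e (u + u') = e u + e u' := fun u u' => by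
    funext i
    exact map_add _ _ _
  have he_smul : ∀ (c : F) u, e (c • u) = algebraMap F G c • e u := fun c u => by
    funext i
    exact map_mul _ _ _
  have he_mul : ∀ g u, e (ρ g *ᵥ u) = bc G ρ g *ᵥ e u := fun g u => by
    funext i
    change algebraMap F G (∑ j, ρ g i j * u j) = ∑ j, algebraMap F G (ρ g i j) * algebraMap F G (u j)
    rw [map_sum]
    exact Finset.sum_congr rfl fun j _ => map_mul _ _ _
  let UF : Submodule F (Fin 2 → F) :=
    { carrier := {u | e u ∈ U}
      add_mem' := fun {u u'} hu hu' => by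
        change e (u + u') ∈ U
        rw [he_add]
        exact U.add_mem hu hu'
      zero_mem' := by
        change e 0 ∈ U
        have : e 0 = 0 := by
          funext i
          exact map_zero _
        rw [this]
        exact U.zero_mem
      smul_mem' := fun c u hu => by
        change e (c • u) ∈ U
        rw [he_smul]
        exact U.smul_mem _ hu }
  have hUF : UF = ⊥ := by
    rcases hirr.2 UF (fun g u hu => by
      change e (ρ g *ᵥ u) ∈ U
      rw [he_mul]
      exact hU g _ hu) with h | h
    · exact h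
    · exfalso
      apply hU1
      rw [eq_top_iff]
      intro u _
      have h1 : u = ∑ i, u i • e (Pi.single i 1) := by
        funext k
        fin_cases k <;> simp [e, Fin.sum_univ_two]
      rw [h1]
      refine U.sum_mem fun i _ => U.smul_mem _ ?_
      have h2 : (Pi.single i 1 : Fin 2 → F) ∈ UF := by rw [h]; trivial
      exact h2
  have hnot : ∀ u : Fin 2 → F, u ≠ 0 → e u ∉ U := by
    intro u hu h
    apply hu
    have h1 : u ∈ UF := h
    rw [hUF] at h1
    exact h1
  -- a vector of the line is not an eigenvector with eigenvalues `a` and `b`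
  have key : ∀ (v w : Fin 2 → F) (a b : F), a ≠ b → v ≠ 0 → w ≠ 0 → ρ x *ᵥ v = a • v → ρ x *ᵥ w = b • w →
      ∀ y ∈ U, bc G ρ x *ᵥ y = algebraMap F G a • y → y = 0 := by
    intro v w a b hab hv0 hw0 hv hw y hyU hy
    by_contra hy0
    have hev : bc G ρ x *ᵥ e v = algebraMap F G a • e v := by rw [← he_mul, hv, he_smul]
    have hew : bc G ρ x *ᵥ e w = algebraMap F G b • e w := by rw [← he_mul, hw, he_smul]
    have hew0 : e w ≠ 0 := by
      intro h
      apply hw0
      funext i
      apply (algebraMap F G).injective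
      rw [Pi.zero_apply, map_zero]
      exact congrFun h i
    by_cases hD : y 0 * e v 1 = y 1 * e v 0
    · -- proportional vectors
      obtain ⟨c, hc⟩ : ∃ c : G, e v = c • y := by
        by_cases h0 : y 0 = 0
        · have h1 : y 1 ≠ 0 := by
            intro h1
            apply hy0
            funext i
            fin_cases i
            · exact h0
            · exact h1
          refine ⟨e v 1 / y 1, ?_⟩
          funext i
          fin_cases i
          · simp only [Fin.zero_eta, Pi.smul_apply, smul_eq_mul]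
            rw [h0, zero_mul] at hD
            rcases mul_eq_zero.mp hD.symm with h2 | h2
            · exact absurd h2 h1
            · rw [h2, h0, mul_zero]
          · simp only [Fin.mk_one, Pi.smul_apply, smul_eq_mul]
            rw [div_mul_cancel₀ _ h1]
        · refine ⟨e v 0 / y 0, ?_⟩
          funext i
          fin_cases i
          · simp only [Fin.zero_eta, Pi.smul_apply, smul_eq_mul]
            rw [div_mul_cancel₀ _ h0]
          · simp only [Fin.mk_one, Pi.smul_apply, smul_eq_mul]
            rw [div_mul_eq_mul_div, eq_div_iff h0]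
            linear_combination hD
      apply hnot v hv0
      rw [hc]
      exact U.smul_mem _ hyU
    · -- all vectors are eigenvectors
      have hD' : y 0 * e v 1 - y 1 * e v 0 ≠ 0 := sub_ne_zero.mpr hD
      have h1 : (y 0 * e v 1 - y 1 * e v 0) • e w =
          (e w 0 * e v 1 - e w 1 * e v 0) • y + (y 0 * e w 1 - y 1 * e w 0) • e v := by
        funext i
        fin_cases i
        · simp only [Fin.zero_eta, Pi.smul_apply, Pi.add_apply, smul_eq_mul]
          ring
        · simp only [Fin.mk_one, Pi.smul_apply, Pi.add_apply, smul_eq_mul]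
          ring
      have h2 := congrArg (fun z => bc G ρ x *ᵥ z) h1
      simp only [Matrix.mulVec_smul, Matrix.mulVec_add, hew, hy, hev] at h2
      have h3 : (y 0 * e v 1 - y 1 * e v 0) • (algebraMap F G b • e w) =
          (y 0 * e v 1 - y 1 * e v 0) • (algebraMap F G a • e w) := by
        rw [h2, smul_comm _ (algebraMap F G a) (e w), h1, smul_add]
        rw [smul_comm _ (algebraMap F G a) y, smul_comm _ (algebraMap F G a) (e v)]
      have h4 := smul_right_injective _ hD' h3
      have h5 : (algebraMap F G b - algebraMap F G a) • e w = 0 := by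
        rw [sub_smul, sub_eq_zero]
        exact h4
      rcases smul_eq_zero.mp h5 with h6 | h6
      · apply hab
        exact ((algebraMap F G).injective (sub_eq_zero.mp h6)).symm
      · exact hew0 h6
  -- Cayley-Hamilton
  obtain ⟨u, huU, hu0⟩ := Submodule.exists_mem_ne_zero_of_ne_bot hU0
  have hCH : ∀ y : Fin 2 → G, bc G ρ x *ᵥ (bc G ρ x *ᵥ y) =
      (algebraMap F G a + algebraMap F G b) • (bc G ρ x *ᵥ y) - (algebraMap F G a * algebraMap F G b) • y := by
    have r1 := ha
    have r2 := hb
    rw [Matrix.charpoly_fin_two, Polynomial.IsRoot.def] at r1 r2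
    simp only [Polynomial.eval_add, Polynomial.eval_sub, Polynomial.eval_pow, Polynomial.eval_X,
      Polynomial.eval_mul, Polynomial.eval_C] at r1 r2
    have t1 : (ρ x).trace = a + b := by
      apply mul_left_cancel₀ (sub_ne_zero.mpr hab)
      linear_combination r2 - r1
    have t2 : (ρ x).det = a * b := by
      rw [t1] at r1
      linear_combination r1
    rw [Matrix.trace_fin_two] at t1
    rw [Matrix.det_fin_two] at t2
    have t1' := congrArg (algebraMap F G) t1
    have t2' := congrArg (algebraMap F G) t2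
    simp only [map_add, map_sub, map_mul] at t1' t2'
    rw [← t1', ← t2']
    intro y
    funext i
    have h0 : ∀ (z : Fin 2 → G) (j : Fin 2), (bc G ρ x *ᵥ z) j =
        algebraMap F G (ρ x j 0) * z 0 + algebraMap F G (ρ x j 1) * z 1 := by
      intro z j
      rw [Matrix.mulVec, dotProduct, Fin.sum_univ_two]
      rfl
    simp only [Pi.sub_apply, Pi.smul_apply, smul_eq_mul, h0]
    fin_cases i
    · simp only [Fin.zero_eta]
      ring
    · simp only [Fin.mk_one]
      ring
  have hb1 : bc G ρ x *ᵥ u - algebraMap F G b • u = 0 := by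
    refine key v w a b hab hv0 hw0 hv hw _ (U.sub_mem (hU x u huU) (U.smul_mem _ huU)) ?_
    rw [Matrix.mulVec_sub, Matrix.mulVec_smul, hCH]
    module
  have ha1 : bc G ρ x *ᵥ u - algebraMap F G a • u = 0 := by
    refine key w v b a (Ne.symm hab) hw0 hv0 hw hv _ (U.sub_mem (hU x u huU) (U.smul_mem _ huU)) ?_
    rw [Matrix.mulVec_sub, Matrix.mulVec_smul, hCH]
    module
  have h1 : (algebraMap F G a - algebraMap F G b) • u = 0 := by
    rw [sub_smul]
    have h2 := congrArg₂ (fun p q => p - q) hb1 ha1
    simp only [sub_zero] at h2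
    rw [← h2]
    abel
  rcases smul_eq_zero.mp h1 with h2 | h2
  · exact hab ((algebraMap F G).injective (sub_eq_zero.mp h2))
  · exact hu0 h2

/-- **Algebraic theorem over a field, dimension two.** -/
theorem subQuot_field_two [CharZero F] [IsAlgClosed G] (V : Γ →* Matrix m m F) (ρ : Γ →* Matrix (Fin 2) (Fin 2) F)
    (hirr : Irr ρ) (B : ℕ)
    (h : ∀ x, ∃ z : G, (bc G ρ x).charpoly.IsRoot z ∧ (bigPoly (bc G V) B x).IsRoot z) :
    ∃ a b, SubQuot (tens V 1 a b 0) ρ := by
  classical
  have hchar : CharZero G := charZero_of_injective_algebraMap (algebraMap F G).injective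
  by_cases hG : Irr (bc G ρ)
  · refine subQuot_of_bc (G := G) V ρ hirr fun i j => coefAlg_bigRep_le (bc G V) B ?_
    refine coeff_mem_three (bigRep (bc G V) B) (bc G ρ) hG (fun x => ?_) i j
    obtain ⟨z, hz1, hz2⟩ := h x
    rw [det_aeval_iff]
    intro hc
    have hz3 : (bigRep (bc G V) B x).charpoly.IsRoot z := by
      rw [bigPoly_root] at hz2
      obtain ⟨a, ha, b, hb, al, be, h1, h2, h3⟩ := hz2
      rw [eig_iff]
      refine eig_bigRep (bc G V) B x (⟨a, Nat.lt_succ_iff.mpr ha⟩, ⟨b, Nat.lt_succ_iff.mpr hb⟩) z ?_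
      rw [eig_tens]
      exact ⟨al, be, fun s => (eig_iff _ _).1 (h1 s), fun t => (eig_iff _ _).1 (h2 t), h3⟩
    obtain ⟨p, q, hpq⟩ := hc
    have h4 := congrArg (Polynomial.eval z) hpq
    rw [Polynomial.eval_add, Polynomial.eval_mul, Polynomial.eval_mul, hz1.eq_zero, hz3.eq_zero, mul_zero, mul_zero,
      add_zero, Polynomial.eval_one] at h4
    exact zero_ne_one h4
  · refine subQuot_field (G := G) V ρ hirr B fun x z hz => ?_
    -- the polynomial over the field
    have hbig : bigPoly (bc G V) B x = (bigPoly V B x).map (algebraMap F G) := by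
      unfold bigPoly
      rw [Polynomial.map_prod]
      refine Finset.prod_congr rfl fun ab _ => ?_
      rw [← Matrix.charpoly_map]
      congr 1
      ext p q
      exact tens_bc V ab.1 ab.2 0 x p q
    obtain ⟨y, hy1, hy2⟩ := h x
    rw [hbig] at hy2 ⊢
    rw [bc_charpoly] at hy1 hz
    -- the minimal polynomial of `y`
    by_cases hyF : ∃ a : F, algebraMap F G a = y
    · obtain ⟨a, rfl⟩ := hyF
      have ha : (ρ x).charpoly.IsRoot a := Polynomial.IsRoot.of_map hy1 (algebraMap F G).injective
      -- the other root is in the field too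
      have h5 : z = algebraMap F G a := by
        by_contra hne
        have r1 := hz
        have r2 := ha
        rw [Matrix.charpoly_fin_two, Polynomial.IsRoot.def] at r1 r2
        simp only [Polynomial.map_add, Polynomial.map_sub, Polynomial.map_pow, Polynomial.map_X,
          Polynomial.map_mul, Polynomial.map_C] at r1
        simp only [Polynomial.eval_add, Polynomial.eval_sub, Polynomial.eval_pow, Polynomial.eval_X,
          Polynomial.eval_mul, Polynomial.eval_C] at r1 r2
        have r3 := congrArg (algebraMap F G) r2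
        simp only [map_add, map_sub, map_mul, map_pow, map_zero] at r3
        have h6 : z = algebraMap F G ((ρ x).trace - a) := by
          rw [map_sub]
          apply mul_left_cancel₀ (sub_ne_zero.mpr hne)
          linear_combination r1 - r3
        have h7 : (ρ x).charpoly.IsRoot ((ρ x).trace - a) := by
          rw [h6] at hz
          exact Polynomial.IsRoot.of_map hz (algebraMap F G).injective
        refine no_split ρ hirr hG x a ((ρ x).trace - a) ?_ ha h7
        intro h8
        rw [← h8] at h6
        exact hne h6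
      rw [h5]
      exact hy2
    · -- the characteristic polynomial is irreducible
      have hirred : Irreducible (ρ x).charpoly := by
        refine Polynomial.irreducible_of_degree_le_three_of_not_isRoot ?_ ?_
        · rw [Matrix.charpoly_natDegree_eq_dim, Fintype.card_fin]
          decide
        · intro a ha
          have r1 := hy1
          have r2 := ha
          rw [Matrix.charpoly_fin_two, Polynomial.IsRoot.def] at r1 r2
          simp only [Polynomial.map_add, Polynomial.map_sub, Polynomial.map_pow, Polynomial.map_X,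
            Polynomial.map_mul, Polynomial.map_C] at r1
          simp only [Polynomial.eval_add, Polynomial.eval_sub, Polynomial.eval_pow, Polynomial.eval_X,
            Polynomial.eval_mul, Polynomial.eval_C] at r1 r2
          have r3 := congrArg (algebraMap F G) r2
          simp only [map_add, map_sub, map_mul, map_pow, map_zero] at r3
          have h6 : (y - algebraMap F G a) * (y - algebraMap F G ((ρ x).trace - a)) = 0 := by
            rw [map_sub]
            linear_combination r1 - r3
          rcases mul_eq_zero.mp h6 with h7 | h7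
          · exact hyF ⟨a, (sub_eq_zero.mp h7).symm⟩
          · exact hyF ⟨_, (sub_eq_zero.mp h7).symm⟩
      have hdvd : (ρ x).charpoly ∣ bigPoly V B x := by
        by_contra hnd
        have hc : IsCoprime (ρ x).charpoly (bigPoly V B x) := hirred.coprime_iff_not_dvd.mpr hnd
        obtain ⟨p, q, hpq⟩ := hc
        have h4 := congrArg (fun f => Polynomial.eval y (f.map (algebraMap F G))) hpq
        simp only [Polynomial.map_add, Polynomial.map_mul, Polynomial.eval_add, Polynomial.eval_mul,
          Polynomial.map_one, Polynomial.eval_one] at h4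
        rw [hy1.eq_zero, hy2.eq_zero, mul_zero, mul_zero, add_zero] at h4
        exact zero_ne_one h4
      exact hz.dvd (Polynomial.map_dvd (algebraMap F G) hdvd)

end

end Pool.Agent.H40GO
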